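import Pool.Agent.Q298.DWT.Stm

/-!
# Depth-weighted trees: basic API
-/

open MeasureTheory Filter Topology

namespace Pool.Agent.Q298.DWT

variable {f : ℕ → ℝ} {s : Multiset ℕ}

/-! ### total weight -/

@[simp] lemma Z_zero (f : ℕ → ℝ) : Z f 0 = 0 := by simp [Z]

@[simp] lemma Z_cons (f : ℕ → ℝ) (a : ℕ) (s : Multiset ℕ) : Z f (a ::ₘ s) = f a + Z f s := by
  simp [Z]

@[simp] lemma Z_singleton (f : ℕ → ℝ) (a : ℕ) : Z f {a} = f a := by simp [Z]

lemma Z_add (f : ℕ → ℝ) (s t : Multiset ℕ) : Z f (s + t) = Z f s + Z f t := by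
  simp [Z]

lemma Z_nonneg (hf : ∀ k, 0 < f k) (s : Multiset ℕ) : 0 ≤ Z f s := by
  unfold Z
  refine Multiset.sum_nonneg ?_
  intro x hx
  obtain ⟨d, -, rfl⟩ := Multiset.mem_map.1 hx
  exact (hf d).le

lemma le_Z (hf : ∀ k, 0 < f k) {d : ℕ} (hd : d ∈ s) : f d ≤ Z f s := by
  obtain ⟨t, rfl⟩ := Multiset.exists_cons_of_mem hd
  rw [Z_cons]
  have := Z_nonneg hf t
  linarith

lemma Z_pos (hf : ∀ k, 0 < f k) (hs : s ≠ 0) : 0 < Z f s := by
  obtain ⟨d, hd⟩ := Multiset.exists_mem_of_ne_zero hs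
  exact lt_of_lt_of_le (hf d) (le_Z hf hd)

lemma pw_pos {c : ℝ} (hc : 0 < c) (k : ℕ) : 0 < pw c k := pow_pos hc k

/-! ### sums over multisets -/

lemma msum_le {s : Multiset ℕ} {g h : ℕ → ℝ} (hgh : ∀ d ∈ s, g d ≤ h d) :
    (s.map g).sum ≤ (s.map h).sum := Multiset.sum_map_le_sum_map g h hgh

lemma msum_nonneg {s : Multiset ℕ} {g : ℕ → ℝ} (hg : ∀ d ∈ s, 0 ≤ g d) :
    0 ≤ (s.map g).sum := by
  refine Multiset.sum_nonneg ?_
  intro x hx
  obtain ⟨d, hd, rfl⟩ := Multiset.mem_map.1 hx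
  exact hg d hd

lemma msum_congr {s : Multiset ℕ} {g h : ℕ → ℝ} (hgh : ∀ d ∈ s, g d = h d) :
    (s.map g).sum = (s.map h).sum := by
  rw [Multiset.map_congr rfl hgh]

lemma msum_add (s : Multiset ℕ) (g h : ℕ → ℝ) :
    (s.map (fun d => g d + h d)).sum = (s.map g).sum + (s.map h).sum := Multiset.sum_map_add

lemma msum_sub (s : Multiset ℕ) (g h : ℕ → ℝ) :
    (s.map (fun d => g d - h d)).sum = (s.map g).sum - (s.map h).sum := Multiset.sum_map_sub

lemma msum_mul_left (s : Multiset ℕ) (a : ℝ) (g : ℕ → ℝ) :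
    (s.map (fun d => a * g d)).sum = a * (s.map g).sum := Multiset.sum_map_mul_left

lemma msum_mul_right (s : Multiset ℕ) (a : ℝ) (g : ℕ → ℝ) :
    (s.map (fun d => g d * a)).sum = (s.map g).sum * a := Multiset.sum_map_mul_right

lemma abs_msum_le (s : Multiset ℕ) (g : ℕ → ℝ) :
    |(s.map g).sum| ≤ (s.map (fun d => |g d|)).sum := by
  induction s using Multiset.induction_on with
  | empty => simp
  | cons a s ih =>
    simp only [Multiset.map_cons, Multiset.sum_cons]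
    exact (abs_add_le _ _).trans (by linarith)

/-! ### the operator -/

lemma P_congr {φ ψ : Multiset ℕ → ℝ} (h : ∀ d ∈ s, φ ((d + 1) ::ₘ s) = ψ ((d + 1) ::ₘ s)) :
    P f φ s = P f ψ s := by
  unfold P
  rw [msum_congr (fun d hd => by rw [h d hd])]

lemma P_const (hf : ∀ k, 0 < f k) (hs : s ≠ 0) (a : ℝ) : P f (fun _ => a) s = a := by
  unfold P
  rw [msum_mul_right]
  have := Z_pos hf hs
  unfold Z at *
  field_simp

lemma P_add (f : ℕ → ℝ) (φ ψ : Multiset ℕ → ℝ) (s : Multiset ℕ) :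
    P f (fun t => φ t + ψ t) s = P f φ s + P f ψ s := by
  unfold P
  rw [← add_div, ← msum_add]
  congr 2
  exact Multiset.map_congr rfl (fun d _ => by ring)

lemma P_sub (f : ℕ → ℝ) (φ ψ : Multiset ℕ → ℝ) (s : Multiset ℕ) :
    P f (fun t => φ t - ψ t) s = P f φ s - P f ψ s := by
  unfold P
  rw [← sub_div, ← msum_sub]
  congr 2
  exact Multiset.map_congr rfl (fun d _ => by ring)

lemma P_mul (f : ℕ → ℝ) (a : ℝ) (φ : Multiset ℕ → ℝ) (s : Multiset ℕ) :
    P f (fun t => a * φ t) s = a * P f φ s := by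
  unfold P
  rw [← mul_div_assoc, ← msum_mul_left]
  congr 2
  exact Multiset.map_congr rfl (fun d _ => by ring)

lemma P_mono (hf : ∀ k, 0 < f k) {φ ψ : Multiset ℕ → ℝ}
    (h : ∀ d ∈ s, φ ((d + 1) ::ₘ s) ≤ ψ ((d + 1) ::ₘ s)) : P f φ s ≤ P f ψ s := by
  unfold P
  refine div_le_div_of_nonneg_right ?_ (Z_nonneg hf s)
  exact msum_le (fun d hd => mul_le_mul_of_nonneg_left (h d hd) (hf d).le)

lemma P_nonneg (hf : ∀ k, 0 < f k) {φ : Multiset ℕ → ℝ}
    (h : ∀ d ∈ s, 0 ≤ φ ((d + 1) ::ₘ s)) : 0 ≤ P f φ s := by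
  unfold P
  refine div_nonneg (msum_nonneg (fun d hd => mul_nonneg (hf d).le (h d hd))) (Z_nonneg hf s)

lemma abs_P_le (hf : ∀ k, 0 < f k) (φ : Multiset ℕ → ℝ) (s : Multiset ℕ) :
    |P f φ s| ≤ P f (fun t => |φ t|) s := by
  unfold P
  rw [abs_div, abs_of_nonneg (Z_nonneg hf s)]
  refine div_le_div_of_nonneg_right ((abs_msum_le _ _).trans (le_of_eq ?_)) (Z_nonneg hf s)
  exact msum_congr (fun d _ => by rw [abs_mul, abs_of_pos (hf d)])

/-- `P f φ s` as an average: if all the values are at most `a`, so is the average. -/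
lemma P_le_of_le (hf : ∀ k, 0 < f k) (hs : s ≠ 0) {φ : Multiset ℕ → ℝ} {a : ℝ}
    (h : ∀ d ∈ s, φ ((d + 1) ::ₘ s) ≤ a) : P f φ s ≤ a :=
  (P_mono hf (ψ := fun _ => a) h).trans (le_of_eq (P_const hf hs a))

lemma le_P_of_le (hf : ∀ k, 0 < f k) (hs : s ≠ 0) {φ : Multiset ℕ → ℝ} {a : ℝ}
    (h : ∀ d ∈ s, a ≤ φ ((d + 1) ::ₘ s)) : a ≤ P f φ s :=
  (le_of_eq (P_const hf hs a).symm).trans (P_mono hf (φ := fun _ => a) h)

/-! ### iterates -/

lemma iter_succ (f : ℕ → ℝ) (n : ℕ) (φ : Multiset ℕ → ℝ) (s : Multiset ℕ) :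
    ((P f)^[n + 1]) φ s = P f (((P f)^[n]) φ) s := by
  rw [Function.iterate_succ_apply']

lemma iter_succ' (f : ℕ → ℝ) (n : ℕ) (φ : Multiset ℕ → ℝ) (s : Multiset ℕ) :
    ((P f)^[n + 1]) φ s = ((P f)^[n]) (P f φ) s := by
  rw [Function.iterate_succ_apply]

lemma iter_add_fun (f : ℕ → ℝ) (n : ℕ) (φ ψ : Multiset ℕ → ℝ) (s : Multiset ℕ) :
    ((P f)^[n]) (fun t => φ t + ψ t) s = ((P f)^[n]) φ s + ((P f)^[n]) ψ s := by
  induction n generalizing φ ψ with
  | zero => rfl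
  | succ n ih =>
    have h : P f (fun t => φ t + ψ t) = fun t => P f φ t + P f ψ t :=
      funext (fun t => P_add f φ ψ t)
    rw [iter_succ', iter_succ', iter_succ', h, ← ih]

lemma iter_sub_fun (f : ℕ → ℝ) (n : ℕ) (φ ψ : Multiset ℕ → ℝ) (s : Multiset ℕ) :
    ((P f)^[n]) (fun t => φ t - ψ t) s = ((P f)^[n]) φ s - ((P f)^[n]) ψ s := by
  induction n generalizing φ ψ with
  | zero => rfl
  | succ n ih =>
    have h : P f (fun t => φ t - ψ t) = fun t => P f φ t - P f ψ t :=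
      funext (fun t => P_sub f φ ψ t)
    rw [iter_succ', iter_succ', iter_succ', h, ← ih]

lemma iter_mul_fun (f : ℕ → ℝ) (n : ℕ) (a : ℝ) (φ : Multiset ℕ → ℝ) (s : Multiset ℕ) :
    ((P f)^[n]) (fun t => a * φ t) s = a * ((P f)^[n]) φ s := by
  induction n generalizing φ with
  | zero => rfl
  | succ n ih =>
    have h : P f (fun t => a * φ t) = fun t => a * P f φ t :=
      funext (fun t => P_mul f a φ t)
    rw [iter_succ', iter_succ', h, ← ih]

lemma iter_const (hf : ∀ k, 0 < f k) (n : ℕ) (hs : s ≠ 0) (a : ℝ) :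
    ((P f)^[n]) (fun _ => a) s = a := by
  induction n generalizing s with
  | zero => rfl
  | succ n ih =>
    rw [iter_succ, P_congr (ψ := fun _ => a)]
    · exact P_const hf hs a
    · intro d _
      exact ih (by simp)

/-- monotonicity of the iterates on a class closed under the steps -/
lemma iter_mono (hf : ∀ k, 0 < f k) {Q : Multiset ℕ → Prop}
    (hQ : ∀ t, Q t → ∀ d ∈ t, Q ((d + 1) ::ₘ t)) {φ ψ : Multiset ℕ → ℝ}
    (h : ∀ t, Q t → φ t ≤ ψ t) (n : ℕ) (hs : Q s) :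
    ((P f)^[n]) φ s ≤ ((P f)^[n]) ψ s := by
  induction n generalizing s with
  | zero => exact h s hs
  | succ n ih =>
    rw [iter_succ, iter_succ]
    exact P_mono hf (fun d hd => ih (hQ s hs d hd))

/-- monotonicity of the iterates, nonempty states -/
lemma iter_mono' (hf : ∀ k, 0 < f k) {φ ψ : Multiset ℕ → ℝ}
    (h : ∀ t, t ≠ 0 → φ t ≤ ψ t) (n : ℕ) (hs : s ≠ 0) :
    ((P f)^[n]) φ s ≤ ((P f)^[n]) ψ s :=
  iter_mono hf (Q := fun t => t ≠ 0) (fun _ _ _ _ => by simp) h n hs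

lemma iter_congr {Q : Multiset ℕ → Prop}
    (hQ : ∀ t, Q t → ∀ d ∈ t, Q ((d + 1) ::ₘ t)) {φ ψ : Multiset ℕ → ℝ}
    (h : ∀ t, Q t → φ t = ψ t) (n : ℕ) (hs : Q s) :
    ((P f)^[n]) φ s = ((P f)^[n]) ψ s := by
  induction n generalizing s with
  | zero => exact h s hs
  | succ n ih =>
    rw [iter_succ, iter_succ]
    exact P_congr (fun d hd => ih (hQ s hs d hd))

/-! ### depth -/

@[simp] lemma D_cons (a : ℕ) (s : Multiset ℕ) : D (a ::ₘ s) = max a (D s) := by
  simp [D]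

@[simp] lemma D_singleton (a : ℕ) : D {a} = a := by simp [D]

lemma D_add (s t : Multiset ℕ) : D (s + t) = max (D s) (D t) := by
  simp [D]

lemma le_D {d : ℕ} (hd : d ∈ s) : d ≤ D s := Multiset.le_sup hd

lemma D_mem (hs : s ≠ 0) : D s ∈ s := by
  induction s using Multiset.induction_on with
  | empty => exact absurd rfl hs
  | cons a s ih =>
    rw [D_cons]
    by_cases h0 : s = 0
    · subst h0
      simp [D]
    · rcases le_total a (D s) with h | h
      · rw [max_eq_right h]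
        exact Multiset.mem_cons_of_mem (ih h0)
      · rw [max_eq_left h]
        exact Multiset.mem_cons_self a s

lemma D_step {d : ℕ} (hd : d ∈ s) :
    D ((d + 1) ::ₘ s) = if d = D s then D s + 1 else D s := by
  have h := le_D hd
  rw [D_cons]
  split_ifs with h1
  · omega
  · omega

lemma D_le_step {d : ℕ} : D s ≤ D ((d + 1) ::ₘ s) := by
  rw [D_cons]; omega

lemma D_step_le {d : ℕ} (hd : d ∈ s) : D ((d + 1) ::ₘ s) ≤ D s + 1 := by
  have h := le_D hd
  rw [D_cons]; omega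

lemma Dr_le_step {d : ℕ} : Dr s ≤ Dr ((d + 1) ::ₘ s) := by
  unfold Dr; exact_mod_cast D_le_step

lemma Dr_step_le {d : ℕ} (hd : d ∈ s) : Dr ((d + 1) ::ₘ s) ≤ Dr s + 1 := by
  unfold Dr; exact_mod_cast D_step_le hd

lemma Dr_nonneg (s : Multiset ℕ) : 0 ≤ Dr s := by unfold Dr; positivity

lemma D_map_add (hs : s ≠ 0) (a : ℕ) : D (s.map (fun d => d + a)) = D s + a := by
  have hne : s.map (fun d => d + a) ≠ 0 := by simpa using hs
  refine le_antisymm ?_ ?_
  · obtain ⟨d, hd, h⟩ := Multiset.mem_map.1 (D_mem hne)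
    have := le_D hd
    omega
  · exact le_D (Multiset.mem_map.2 ⟨D s, D_mem hs, rfl⟩)

/-! ### the function `u` -/

@[simp] lemma u_zero (f : ℕ → ℝ) (s : Multiset ℕ) : u f 0 s = 0 := by simp [u]

lemma iter_Dr (f : ℕ → ℝ) (L : ℕ) (s : Multiset ℕ) : ((P f)^[L]) Dr s = u f L s + Dr s := by
  simp [u]

lemma u_succ (hf : ∀ k, 0 < f k) (hs : s ≠ 0) (L : ℕ) :
    u f (L + 1) s = P f (fun t => (Dr t - Dr s) + u f L t) s := by
  have h1 : P f (fun t => (Dr t - Dr s) + u f L t) s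
      = P f (fun t => ((P f)^[L]) Dr t - Dr s) s := by
    refine P_congr (fun d _ => ?_)
    unfold u
    ring
  rw [h1, P_sub, P_const hf hs]
  unfold u
  rw [iter_succ]

lemma u_nonneg (hf : ∀ k, 0 < f k) (L : ℕ) (hs : s ≠ 0) : 0 ≤ u f L s := by
  induction L generalizing s with
  | zero => simp
  | succ L ih =>
    rw [u_succ hf hs]
    refine P_nonneg hf (fun d _ => ?_)
    have h1 := ih (s := (d + 1) ::ₘ s) (by simp)
    have h2 : Dr s ≤ Dr ((d + 1) ::ₘ s) := Dr_le_step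
    linarith

lemma u_le (hf : ∀ k, 0 < f k) (L : ℕ) (hs : s ≠ 0) : u f L s ≤ L := by
  induction L generalizing s with
  | zero => simp
  | succ L ih =>
    rw [u_succ hf hs]
    refine P_le_of_le hf hs (fun d hd => ?_)
    have h1 := ih (s := (d + 1) ::ₘ s) (by simp)
    have h2 : Dr ((d + 1) ::ₘ s) ≤ Dr s + 1 := Dr_step_le hd
    push_cast
    linarith

lemma u_add (f : ℕ → ℝ) (L M : ℕ) (s : Multiset ℕ) :
    u f (L + M) s = u f M s + ((P f)^[M]) (u f L) s := by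
  have h : ((P f)^[L + M]) Dr s = ((P f)^[M]) (((P f)^[L]) Dr) s := by
    rw [add_comm L M, Function.iterate_add_apply]
  have h2 : ((P f)^[M]) (((P f)^[L]) Dr) s = ((P f)^[M]) (fun t => u f L t + Dr t) s := by
    have h' : ((P f)^[L]) Dr = fun t => u f L t + Dr t := funext (fun t => iter_Dr f L t)
    rw [h']
  rw [iter_add_fun] at h2
  have h3 := iter_Dr f M s
  unfold u at *
  linarith

/-! ### the function `H` -/

section H

variable {θ : ℝ}

lemma H_eq_sum (θ : ℝ) (s : Multiset ℕ) :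
    H θ s = (s.map (fun d => θ ^ d / θ ^ D s)).sum := by
  unfold H
  simp_rw [div_eq_mul_inv]
  rw [msum_mul_right]

lemma H_nonneg (hθ : 0 < θ) (s : Multiset ℕ) : 0 ≤ H θ s := by
  rw [H_eq_sum]
  exact msum_nonneg (fun d _ => by positivity)

lemma one_le_H (hθ : 0 < θ) (hs : s ≠ 0) : 1 ≤ H θ s := by
  have h1 : θ ^ D s ≤ (s.map (fun d => θ ^ d)).sum :=
    le_Z (f := fun d => θ ^ d) (fun k => by positivity) (D_mem hs)
  unfold H
  rw [le_div_iff₀ (by positivity)]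
  linarith

/-- a vertex is added below the top level -/
lemma H_step_lt {d : ℕ} (hd : d + 1 ≤ D s) :
    H θ ((d + 1) ::ₘ s) = H θ s + θ ^ (d + 1) / θ ^ D s := by
  have h : D ((d + 1) ::ₘ s) = D s := by rw [D_cons]; omega
  unfold H
  rw [h, Multiset.map_cons, Multiset.sum_cons, add_div, add_comm]

/-- a new deepest vertex -/
lemma H_step_top (hθ : 0 < θ) : H θ ((D s + 1) ::ₘ s) = H θ s / θ + 1 := by
  have h : D ((D s + 1) ::ₘ s) = D s + 1 := by rw [D_cons]; omega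
  unfold H
  rw [h, Multiset.map_cons, Multiset.sum_cons, pow_succ]
  field_simp
  ring

lemma H_step_le (hθ : 1 < θ) {d : ℕ} (hd : d ∈ s) : H θ ((d + 1) ::ₘ s) ≤ H θ s + 1 := by
  have h0 : (0 : ℝ) < θ := by linarith
  rcases lt_or_eq_of_le (le_D hd) with h | h
  · rw [H_step_lt (by omega)]
    have : θ ^ (d + 1) / θ ^ D s ≤ 1 := by
      rw [div_le_one (by positivity)]
      exact pow_le_pow_right₀ hθ.le (by omega)
    linarith
  · subst h
    rw [H_step_top h0]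
    have : H θ s / θ ≤ H θ s := div_le_self (H_nonneg h0 s) hθ.le
    linarith

/-- comparison of the total weight with `H` -/
lemma Z_div_le_H {c : ℝ} (hθ : 0 < θ) (hc : θ ≤ c) (s : Multiset ℕ) :
    Z (pw c) s / pw c (D s) ≤ H θ s := by
  have h0 : 0 < c := hθ.trans_le hc
  rw [H_eq_sum]
  unfold Z
  rw [div_eq_mul_inv, ← msum_mul_right]
  refine msum_le (fun d hd => ?_)
  have hd' := le_D hd
  unfold pw
  rw [← div_eq_mul_inv, div_le_div_iff₀ (by positivity) (by positivity)]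
  obtain ⟨j, hj⟩ := Nat.exists_eq_add_of_le hd'
  rw [hj, pow_add, pow_add]
  have : θ ^ j ≤ c ^ j := pow_le_pow_left₀ hθ.le hc j
  calc c ^ d * (θ ^ d * θ ^ j) = c ^ d * θ ^ d * θ ^ j := by ring
    _ ≤ c ^ d * θ ^ d * c ^ j := mul_le_mul_of_nonneg_left this (by positivity)
    _ = θ ^ d * (c ^ d * c ^ j) := by ring

lemma H_map_add (hθ : 0 < θ) (a : ℕ) (s : Multiset ℕ) : H θ (s.map (fun d => d + a)) = H θ s := by
  by_cases hs : s = 0
  · subst hs; simp [H]
  unfold H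
  rw [D_map_add hs, Multiset.map_map]
  have : (s.map ((fun d => θ ^ d) ∘ fun d => d + a)).sum
      = (s.map (fun d => θ ^ d)).sum * θ ^ a := by
    rw [← msum_mul_right]
    exact msum_congr (fun d _ => by simp [pow_add])
  rw [this, pow_add]
  field_simp

end H

/-! ### the Lyapunov function -/

section V

variable {θ η : ℝ} {q J : ℕ} {m : ℕ → ℕ}

lemma psi_nonneg (m : ℕ → ℕ) (j : ℕ) (s : Multiset ℕ) : 0 ≤ psi m j s := le_max_left _ _

lemma psi_le_one (m : ℕ → ℕ) (j : ℕ) (s : Multiset ℕ) : psi m j s ≤ 1 := by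
  unfold psi
  refine max_le zero_le_one ?_
  have : (0 : ℝ) ≤ (cnt s j : ℝ) / (m j : ℝ) := by positivity
  linarith

lemma sum_psi_nonneg (m : ℕ → ℕ) (J : ℕ) (s : Multiset ℕ) :
    0 ≤ ∑ j ∈ Finset.range J, psi m j s := Finset.sum_nonneg (fun j _ => psi_nonneg m j s)

lemma sum_psi_le (m : ℕ → ℕ) (J : ℕ) (s : Multiset ℕ) :
    ∑ j ∈ Finset.range J, psi m j s ≤ J := by
  calc ∑ j ∈ Finset.range J, psi m j s ≤ ∑ _j ∈ Finset.range J, (1 : ℝ) :=
        Finset.sum_le_sum (fun j _ => psi_le_one m j s)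
    _ = J := by simp

lemma pow_le_V (hθ : 0 < θ) (hη : 0 ≤ η) (s : Multiset ℕ) : H θ s ^ q ≤ V θ η q J m s := by
  unfold V
  have h1 := sum_psi_nonneg m J s
  have h2 : 0 ≤ H θ s ^ q := pow_nonneg (H_nonneg hθ s) q
  have h3 : 0 ≤ H θ s ^ q * (η * ∑ j ∈ Finset.range J, psi m j s) := by positivity
  linarith

lemma V_le (hθ : 0 < θ) (hη : 0 ≤ η) (hJ : η * J ≤ 1) (s : Multiset ℕ) :
    V θ η q J m s ≤ 2 * H θ s ^ q := by
  unfold V
  have h1 := sum_psi_le m J s
  have h2 : 0 ≤ H θ s ^ q := pow_nonneg (H_nonneg hθ s) q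
  have h3 : η * ∑ j ∈ Finset.range J, psi m j s ≤ 1 :=
    (mul_le_mul_of_nonneg_left h1 hη).trans hJ
  have h4 : H θ s ^ q * (1 + η * ∑ j ∈ Finset.range J, psi m j s) ≤ H θ s ^ q * 2 :=
    mul_le_mul_of_nonneg_left (by linarith) h2
  linarith

lemma V_nonneg (hθ : 0 < θ) (hη : 0 ≤ η) (s : Multiset ℕ) : 0 ≤ V θ η q J m s :=
  (pow_nonneg (H_nonneg hθ s) q).trans (pow_le_V hθ hη s)

lemma cnt_map_add (a : ℕ) (s : Multiset ℕ) (j : ℕ) : cnt (s.map (fun d => d + a)) j = cnt s j := by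
  by_cases hs : s = 0
  · subst hs; rfl
  unfold cnt
  rw [D_map_add hs, Multiset.countP_map, Multiset.countP_eq_card_filter]
  congr 1
  refine Multiset.filter_congr (fun d _ => ?_)
  constructor
  · intro h; omega
  · intro h; omega

lemma V_map_add (hθ : 0 < θ) (a : ℕ) (s : Multiset ℕ) :
    V θ η q J m (s.map (fun d => d + a)) = V θ η q J m s := by
  unfold V
  rw [H_map_add hθ]
  congr 3
  refine Finset.sum_congr rfl (fun j _ => ?_)
  unfold psi
  rw [cnt_map_add]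

end V

/-! ### the pure chain is shift invariant -/

lemma P_pw_map_add {c : ℝ} (hc : 0 < c) (φ : Multiset ℕ → ℝ) (a : ℕ) (s : Multiset ℕ) :
    P (pw c) φ (s.map (fun d => d + a)) = P (pw c) (fun t => φ (t.map (fun d => d + a))) s := by
  unfold P Z
  rw [Multiset.map_map, Multiset.map_map]
  have h1 : (s.map (pw c ∘ fun d => d + a)).sum = (s.map (pw c)).sum * c ^ a := by
    rw [← msum_mul_right]
    exact msum_congr (fun d _ => by simp [pw, pow_add])
  have h2 : (s.map ((fun d => pw c d * φ ((d + 1) ::ₘ s.map (fun d => d + a))) ∘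
      fun d => d + a)).sum
      = (s.map (fun d => pw c d * φ (((d + 1) ::ₘ s).map (fun d => d + a)))).sum * c ^ a := by
    rw [← msum_mul_right]
    refine msum_congr (fun d _ => ?_)
    have : (d + a + 1) = (d + 1) + a := by ring
    simp only [Function.comp, Multiset.map_cons, this]
    simp only [pw, pow_add]
    ring
  rw [h1, h2, mul_div_mul_right _ _ (by positivity)]

lemma iter_pw_map_add {c : ℝ} (hc : 0 < c) (n : ℕ) (φ : Multiset ℕ → ℝ) (a : ℕ)
    (s : Multiset ℕ) :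
    ((P (pw c))^[n]) φ (s.map (fun d => d + a))
      = ((P (pw c))^[n]) (fun t => φ (t.map (fun d => d + a))) s := by
  induction n generalizing s with
  | zero => rfl
  | succ n ih =>
    rw [iter_succ, iter_succ, P_pw_map_add hc]
    exact P_congr (fun d _ => ih _)

lemma u_map_add {c : ℝ} (hc : 0 < c) (L : ℕ) (a : ℕ) (hs : s ≠ 0) :
    u (pw c) L (s.map (fun d => d + a)) = u (pw c) L s := by
  have hp : ∀ k, 0 < pw c k := pw_pos hc
  unfold u
  rw [iter_pw_map_add hc]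
  have h1 : ((P (pw c))^[L]) (fun t => Dr (t.map (fun d => d + a))) s
      = ((P (pw c))^[L]) (fun t => Dr t + a) s := by
    refine iter_congr (Q := fun t => t ≠ 0) (fun _ _ _ _ => by simp) (fun t ht => ?_) L hs
    unfold Dr
    rw [D_map_add ht]
    push_cast
    ring
  rw [h1, iter_add_fun, iter_const hp L hs]
  unfold Dr
  rw [D_map_add hs]
  push_cast
  ring

end Pool.Agent.Q298.DWT
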