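import Pool.Agent.Q298.DWT.Basic

/-!
# Depth-weighted trees, step K2: the coupling estimate
-/

open MeasureTheory Filter Topology

namespace Pool.Agent.Q298.DWT

/-- Comparison of two averages with a common part. -/
lemma common_part {w : ℕ → ℝ} (hw : ∀ k, 0 < w k) (x y z : Multiset ℕ) (hz : z ≠ 0)
    (F G g : ℕ → ℝ) (B m W : ℝ) (hx : Z w x ≤ W) (hy : Z w y ≤ W)
    (h1 : ∀ d ∈ x + z, F d ≤ B + m) (h2 : ∀ e ∈ y + z, m ≤ G e)
    (h3 : ∀ d ∈ z, F d - G d ≤ B - g d) :
    ((x + z).map (fun d => w d * F d)).sum / Z w (x + z)
      - ((y + z).map (fun d => w d * G d)).sum / Z w (y + z)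
      ≤ B - (z.map (fun d => w d * g d)).sum / (W + Z w z) := by
  have hzpos : 0 < Z w z := Z_pos hw hz
  have hx0 : 0 ≤ Z w x := Z_nonneg hw x
  have hy0 : 0 ≤ Z w y := Z_nonneg hw y
  have hW : 0 ≤ W := hx0.trans hx
  rw [Z_add, Z_add]
  set Zx := Z w x with hZx
  set Zy := Z w y with hZy
  set Zz := Z w z with hZz
  have hdx : 0 < Zx + Zz := by linarith
  have hdy : 0 < Zy + Zz := by linarith
  have hdW : 0 < W + Zz := by linarith
  set t := (W + Zz)⁻¹ with ht
  set tx := (Zx + Zz)⁻¹ with htx
  set ty := (Zy + Zz)⁻¹ with hty
  have htpos : 0 < t := inv_pos.2 hdW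
  have htx' : t ≤ tx := inv_anti₀ hdx (by linarith)
  have hty' : t ≤ ty := inv_anti₀ hdy (by linarith)
  have hxt : (Zx + Zz) * tx = 1 := mul_inv_cancel₀ hdx.ne'
  have hyt : (Zy + Zz) * ty = 1 := mul_inv_cancel₀ hdy.ne'
  -- sums
  have e1 : ((x + z).map (fun d => w d * F d)).sum
      = (x.map (fun d => w d * F d)).sum + (z.map (fun d => w d * F d)).sum := by simp
  have e2 : ((y + z).map (fun d => w d * G d)).sum
      = (y.map (fun d => w d * G d)).sum + (z.map (fun d => w d * G d)).sum := by simp
  have b1 : (x.map (fun d => w d * F d)).sum ≤ Zx * (B + m) := by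
    have : Zx * (B + m) = (x.map (fun d => w d * (B + m))).sum := by
      rw [msum_mul_right]; rfl
    rw [this]
    exact msum_le (fun d hd => mul_le_mul_of_nonneg_left
      (h1 d (Multiset.mem_add.2 (Or.inl hd))) (hw d).le)
  have b2 : (z.map (fun d => w d * F d)).sum ≤ Zz * (B + m) := by
    have : Zz * (B + m) = (z.map (fun d => w d * (B + m))).sum := by
      rw [msum_mul_right]; rfl
    rw [this]
    exact msum_le (fun d hd => mul_le_mul_of_nonneg_left
      (h1 d (Multiset.mem_add.2 (Or.inr hd))) (hw d).le)
  have b3 : Zy * m ≤ (y.map (fun d => w d * G d)).sum := by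
    have : Zy * m = (y.map (fun d => w d * m)).sum := by
      rw [msum_mul_right]; rfl
    rw [this]
    exact msum_le (fun d hd => mul_le_mul_of_nonneg_left
      (h2 d (Multiset.mem_add.2 (Or.inl hd))) (hw d).le)
  have b4 : Zz * m ≤ (z.map (fun d => w d * G d)).sum := by
    have : Zz * m = (z.map (fun d => w d * m)).sum := by
      rw [msum_mul_right]; rfl
    rw [this]
    exact msum_le (fun d hd => mul_le_mul_of_nonneg_left
      (h2 d (Multiset.mem_add.2 (Or.inr hd))) (hw d).le)
  have b5 : (z.map (fun d => w d * F d)).sum - (z.map (fun d => w d * G d)).sum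
      ≤ Zz * B - (z.map (fun d => w d * g d)).sum := by
    have : Zz * B = (z.map (fun d => w d * B)).sum := by
      rw [msum_mul_right]; rfl
    rw [this, ← msum_sub, ← msum_sub]
    refine msum_le (fun d hd => ?_)
    have := mul_le_mul_of_nonneg_left (h3 d hd) (hw d).le
    linarith
  rw [e1, e2, div_eq_mul_inv, div_eq_mul_inv, div_eq_mul_inv, ← htx, ← hty, ← ht]
  set SxF := (x.map (fun d => w d * F d)).sum
  set SzF := (z.map (fun d => w d * F d)).sum
  set SyG := (y.map (fun d => w d * G d)).sum
  set SzG := (z.map (fun d => w d * G d)).sum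
  set Szg := (z.map (fun d => w d * g d)).sum
  have c1 : SxF * tx ≤ Zx * (B + m) * tx :=
    mul_le_mul_of_nonneg_right b1 (htpos.le.trans htx')
  have c2 : SzF * (tx - t) ≤ Zz * (B + m) * (tx - t) :=
    mul_le_mul_of_nonneg_right b2 (by linarith)
  have c3 : Zy * m * ty ≤ SyG * ty :=
    mul_le_mul_of_nonneg_right b3 (htpos.le.trans hty')
  have c4 : Zz * m * (ty - t) ≤ SzG * (ty - t) :=
    mul_le_mul_of_nonneg_right b4 (by linarith)
  have c5 : (SzF - SzG) * t ≤ (Zz * B - Szg) * t :=
    mul_le_mul_of_nonneg_right b5 htpos.le
  have d1 : (SxF + SzF) * tx ≤ SzF * t + (B + m) * (1 - Zz * t) := by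
    have : (B + m) * (1 - Zz * t) = (B + m) * ((Zx + Zz) * tx - Zz * t) := by rw [hxt]
    rw [this]
    nlinarith
  have d2 : SzG * t + m * (1 - Zz * t) ≤ (SyG + SzG) * ty := by
    have : m * (1 - Zz * t) = m * ((Zy + Zz) * ty - Zz * t) := by rw [hyt]
    rw [this]
    nlinarith
  nlinarith

/-- a multiset of naturals has a minimiser -/
lemma exists_min (G : ℕ → ℝ) {y : Multiset ℕ} (hy : y ≠ 0) : ∃ e ∈ y, ∀ d ∈ y, G e ≤ G d := by
  have hne : y.toFinset.Nonempty := by
    obtain ⟨a, ha⟩ := Multiset.exists_mem_of_ne_zero hy
    exact ⟨a, Multiset.mem_toFinset.2 ha⟩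
  obtain ⟨e, he, h⟩ := y.toFinset.exists_min_image G hne
  exact ⟨e, Multiset.mem_toFinset.1 he, fun d hd => h d (Multiset.mem_toFinset.2 hd)⟩

/-- the step of the coupling, for arbitrary pairs of states with a common part -/
lemma step_bound {c : ℝ} (hc : 0 < c) (U : Multiset ℕ → ℝ) (a κ A : ℝ) (L : ℕ)
    (hU : ∀ x y : Multiset ℕ, x ≠ 0 → y ≠ 0 →
      u (pw c) L x - u (pw c) L y ≤ A + a * (U x + U y) + κ)
    (x y z : Multiset ℕ) (hz : z ≠ 0) (W : ℝ) (hx : Z (pw c) x ≤ W) (hy : Z (pw c) y ≤ W)
    (g : ℕ → ℝ)
    (hg : ∀ d ∈ z, (Dr ((d + 1) ::ₘ (x + z)) - Dr (x + z) + u (pw c) L ((d + 1) ::ₘ (x + z)))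
      - (Dr ((d + 1) ::ₘ (y + z)) - Dr (y + z) + u (pw c) L ((d + 1) ::ₘ (y + z)))
      ≤ A + 1 + a * (U ((d + 1) ::ₘ (x + z)) + U ((d + 1) ::ₘ (y + z))) + κ - g d) :
    u (pw c) (L + 1) (x + z) - u (pw c) (L + 1) (y + z)
      ≤ A + 1 + κ - (z.map (fun d => pw c d * g d)).sum / (W + Z (pw c) z)
        + a * (P (pw c) U (x + z) + P (pw c) U (y + z)) := by
  have hp : ∀ k, 0 < pw c k := pw_pos hc
  have hxz : x + z ≠ 0 := by
    intro h
    exact hz (add_eq_zero.1 h).2
  have hyz : y + z ≠ 0 := by
    intro h
    exact hz (add_eq_zero.1 h).2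
  set F : ℕ → ℝ := fun d => (Dr ((d + 1) ::ₘ (x + z)) - Dr (x + z)
    + u (pw c) L ((d + 1) ::ₘ (x + z))) - a * U ((d + 1) ::ₘ (x + z)) with hF
  set G : ℕ → ℝ := fun d => (Dr ((d + 1) ::ₘ (y + z)) - Dr (y + z)
    + u (pw c) L ((d + 1) ::ₘ (y + z))) + a * U ((d + 1) ::ₘ (y + z)) with hG
  obtain ⟨e, he, hmin⟩ := exists_min G hyz
  have key := common_part hp x y z hz F G g (A + 1 + κ) (G e) W hx hy
    (by
      intro d hd
      have h1 := hU ((d + 1) ::ₘ (x + z)) ((e + 1) ::ₘ (y + z)) (by simp) (by simp)
      have h2 : Dr ((d + 1) ::ₘ (x + z)) ≤ Dr (x + z) + 1 := Dr_step_le hd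
      have h3 : Dr (y + z) ≤ Dr ((e + 1) ::ₘ (y + z)) := Dr_le_step
      simp only [hF, hG]
      linarith)
    (fun d hd => hmin d hd)
    (by
      intro d hd
      have h1 := hg d hd
      simp only [hF, hG]
      linarith)
  have e1 : ((x + z).map (fun d => pw c d * F d)).sum / Z (pw c) (x + z)
      = u (pw c) (L + 1) (x + z) - a * P (pw c) U (x + z) := by
    rw [u_succ hp hxz, ← P_mul, ← P_sub]
    rfl
  have e2 : ((y + z).map (fun d => pw c d * G d)).sum / Z (pw c) (y + z)
      = u (pw c) (L + 1) (y + z) + a * P (pw c) U (y + z) := by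
    rw [u_succ hp hyz, ← P_mul, ← P_add]
    rfl
  rw [e1, e2] at key
  linarith

theorem k2 (hK2a : S_K2a) : S_K2 := by
  intro c hc θ hθ hθc U δ C hδ hC hU0 hUshift hUdrift K hK
  have hc0 : 0 < c := by linarith
  have hθ0 : 0 < θ := by linarith
  have hp : ∀ k, 0 < pw c k := pw_pos hc0
  set a : ℝ := (δ * K)⁻¹ with ha
  have hK0 : 0 < K := by linarith
  have hapos : 0 < a := inv_pos.2 (by positivity)
  have haδ : a * δ * K = 1 := by
    rw [ha]; field_simp
  set A : ℝ := K ^ 2 * Real.exp (K / (c - 1)) with hA
  have hA0 : 0 ≤ A := by positivity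
  -- the drift without the negative part
  have hU1 : ∀ s : Multiset ℕ, s ≠ 0 → P (pw c) U s ≤ U s + C := by
    intro s hs
    have h1 := hUdrift s hs
    have h2 : 0 ≤ δ * H θ s := mul_nonneg hδ.le (H_nonneg hθ0 s)
    linarith
  -- the two claims
  have main : ∀ L : ℕ,
      (∀ x y : Multiset ℕ, x ≠ 0 → y ≠ 0 →
        u (pw c) L x - u (pw c) L y ≤ A + a * (U x + U y) + 2 * a * C * L) ∧
      (∀ (x y z : Multiset ℕ) (W : ℝ), z ≠ 0 → (∀ d ∈ x, d ≤ D z) → (∀ d ∈ y, d ≤ D z) →
        Z (pw c) x ≤ W → Z (pw c) y ≤ W →
        u (pw c) L (x + z) - u (pw c) L (y + z) ≤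
          (1 - Real.exp (-(W * (Multiset.card z + c - 1) / ((c - 1) * Z (pw c) z)))) * (A + 1)
            + a * (U (x + z) + U (y + z)) + 2 * a * C * L) := by
    intro L
    induction L with
    | zero =>
      constructor
      · intro x y _ _
        have h1 := hU0 x
        have h2 := hU0 y
        have h3 : 0 ≤ a * (U x + U y) := by positivity
        simp only [u_zero, Nat.cast_zero, mul_zero]
        linarith
      · intro x y z W hz _ _ hxW _
        have h1 := hU0 (x + z)
        have h2 := hU0 (y + z)
        have h3 : 0 ≤ a * (U (x + z) + U (y + z)) := by positivity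
        have hW : 0 ≤ W := (Z_nonneg hp x).trans hxW
        have hzp : 0 < Z (pw c) z := Z_pos hp hz
        have h4 : Real.exp (-(W * (Multiset.card z + c - 1) / ((c - 1) * Z (pw c) z))) ≤ 1 := by
          rw [Real.exp_le_one_iff, neg_nonpos]
          have hcard : (0 : ℝ) ≤ Multiset.card z := by positivity
          have : 0 ≤ (Multiset.card z : ℝ) + c - 1 := by linarith
          have : 0 < c - 1 := by linarith
          positivity
        have h5 : 0 ≤ (1 - Real.exp (-(W * (Multiset.card z + c - 1) /
            ((c - 1) * Z (pw c) z)))) * (A + 1) :=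
          mul_nonneg (by linarith) (by linarith)
        simp only [u_zero, Nat.cast_zero, mul_zero]
        linarith
    | succ L ih =>
      obtain ⟨ihU, ihT⟩ := ih
      constructor
      · -- same depth first
        have same : ∀ x y : Multiset ℕ, x ≠ 0 → y ≠ 0 → D x = D y →
            u (pw c) (L + 1) x - u (pw c) (L + 1) y
              ≤ A + a * (U x + U y) + 2 * a * C * (L + 1 : ℕ) := by
          intro x y hx hy hD
          obtain ⟨x', hx'⟩ := Multiset.exists_cons_of_mem (D_mem hx)
          obtain ⟨y', hy'⟩ := Multiset.exists_cons_of_mem (D_mem hy)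
          have hDx := D_mem hx
          by_cases hbig : K < H θ x ∨ K < H θ y
          · -- trivial coupling
            have h := step_bound hc0 U a (2 * a * C * L) A L ihU x' y' {D x} (by simp)
              (max (Z (pw c) x') (Z (pw c) y')) (le_max_left _ _) (le_max_right _ _)
              (fun _ => 0) (by
                intro d hd
                rw [Multiset.mem_singleton] at hd
                subst hd
                have h1 := ihU ((D x + 1) ::ₘ (x' + {D x})) ((D x + 1) ::ₘ (y' + {D x}))
                  (by simp) (by simp)
                have h2 : Dr ((D x + 1) ::ₘ (x' + {D x})) ≤ Dr (x' + {D x}) + 1 :=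
                  Dr_step_le (by simp)
                have h3 : Dr (y' + {D x}) ≤ Dr ((D x + 1) ::ₘ (y' + {D x})) := Dr_le_step
                linarith)
            have ex : x' + {D x} = x := by
              rw [hx']
              conv_lhs => rw [← hx']
              rw [add_comm, Multiset.singleton_add]
            have ey : y' + {D x} = y := by
              rw [hD]
              conv_rhs => rw [hy']
              rw [add_comm, Multiset.singleton_add]
            rw [ex, ey] at h
            have h1 := hUdrift x hx
            have h2 := hUdrift y hy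
            have h3 := H_nonneg hθ0 x
            have h4 := H_nonneg hθ0 y
            have h5 : K ≤ H θ x + H θ y := by
              rcases hbig with hb | hb <;> linarith
            have h6 : 1 ≤ a * δ * (H θ x + H θ y) := by
              calc 1 = a * δ * K := haδ.symm
                _ ≤ a * δ * (H θ x + H θ y) :=
                  mul_le_mul_of_nonneg_left h5 (by positivity)
            have h7 : a * (P (pw c) U x + P (pw c) U y)
                ≤ a * (U x + U y + 2 * C - δ * (H θ x + H θ y)) :=
              mul_le_mul_of_nonneg_left (by linarith) hapos.le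
            simp only [mul_zero, Multiset.map_const', Multiset.sum_replicate, smul_zero,
              zero_div] at h
            push_cast
            nlinarith
          · push Not at hbig
            obtain ⟨hHx, hHy⟩ := hbig
            have ex : x' + {D x} = x := by
              rw [hx']
              conv_lhs => rw [← hx']
              rw [add_comm, Multiset.singleton_add]
            have ey : y' + {D x} = y := by
              rw [hD]
              conv_rhs => rw [hy']
              rw [add_comm, Multiset.singleton_add]
            have hcD : 0 < pw c (D x) := hp _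
            have hZx : Z (pw c) x ≤ K * pw c (D x) := by
              have h1 := Z_div_le_H hθ0 hθc.le x
              rw [div_le_iff₀ hcD] at h1
              exact h1.trans (mul_le_mul_of_nonneg_right hHx hcD.le)
            have hZy : Z (pw c) y ≤ K * pw c (D x) := by
              have h1 := Z_div_le_H hθ0 hθc.le y
              rw [← hD, div_le_iff₀ hcD] at h1
              exact h1.trans (mul_le_mul_of_nonneg_right hHy hcD.le)
            have hZx' : Z (pw c) x' ≤ (K - 1) * pw c (D x) := by
              have : Z (pw c) x = Z (pw c) x' + pw c (D x) := by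
                conv_lhs => rw [← ex]
                rw [Z_add, Z_singleton]
              linarith
            have hZy' : Z (pw c) y' ≤ (K - 1) * pw c (D x) := by
              have : Z (pw c) y = Z (pw c) y' + pw c (D x) := by
                conv_lhs => rw [← ey]
                rw [Z_add, Z_singleton]
              linarith
            set ψ : ℝ := Real.exp (-(K / (c - 1))) with hψ
            have hT := ihT x y {D x + 1} (K * pw c (D x)) (by simp)
              (by intro d hd; rw [D_singleton]; exact (le_D hd).trans (by omega))
              (by intro d hd; rw [D_singleton, hD]; exact (le_D hd).trans (by omega)) hZx hZy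
            have hψ' : Real.exp (-(K * pw c (D x) * (Multiset.card {D x + 1} + c - 1) /
                ((c - 1) * Z (pw c) {D x + 1}))) = ψ := by
              rw [hψ, Z_singleton, Multiset.card_singleton]
              congr 2
              unfold pw
              have : c - 1 ≠ 0 := by linarith
              rw [pow_succ]
              push_cast
              field_simp
              ring
            rw [hψ'] at hT
            have ecx : x + {D x + 1} = (D x + 1) ::ₘ x := by
              rw [add_comm, Multiset.singleton_add]
            have ecy : y + {D x + 1} = (D x + 1) ::ₘ y := by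
              rw [add_comm, Multiset.singleton_add]
            rw [ecx, ecy] at hT
            have h := step_bound hc0 U a (2 * a * C * L) A L ihU x' y' {D x} (by simp)
              ((K - 1) * pw c (D x)) hZx' hZy' (fun _ => ψ * (A + 1)) (by
                intro d hd
                rw [Multiset.mem_singleton] at hd
                subst hd
                rw [ex, ey]
                have h2 : Dr ((D x + 1) ::ₘ x) = Dr x + 1 := by
                  unfold Dr
                  rw [D_step (D_mem hx), if_pos rfl]
                  push_cast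
                  ring
                have h3 : Dr ((D x + 1) ::ₘ y) = Dr y + 1 := by
                  unfold Dr
                  rw [hD, D_step (D_mem hy), if_pos rfl]
                  push_cast
                  ring
                linarith)
            rw [ex, ey] at h
            have e3 : ((({D x} : Multiset ℕ).map (fun d => pw c d * (ψ * (A + 1)))).sum)
                / ((K - 1) * pw c (D x) + Z (pw c) {D x}) = ψ * (A + 1) / K := by
              rw [Multiset.map_singleton, Multiset.sum_singleton, Z_singleton]
              have : (K - 1) * pw c (D x) + pw c (D x) = K * pw c (D x) := by ring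
              rw [this]
              field_simp
            rw [e3] at h
            have e4 : K ≤ ψ * (A + 1) := by
              have e5 : ψ * A = K ^ 2 := by
                rw [hψ, hA, Real.exp_neg]
                field_simp
              have e6 : 0 < ψ := Real.exp_pos _
              nlinarith
            have e7 : 1 ≤ ψ * (A + 1) / K := by
              rw [le_div_iff₀ hK0]
              linarith
            have h1 := hU1 x hx
            have h2 := hU1 y hy
            have h7 : a * (P (pw c) U x + P (pw c) U y) ≤ a * (U x + U y + 2 * C) :=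
              mul_le_mul_of_nonneg_left (by linarith) hapos.le
            push_cast
            nlinarith
        intro x y hx hy
        have hx1 : x.map (fun d => d + (D y - D x)) ≠ 0 := by simpa using hx
        have hy1 : y.map (fun d => d + (D x - D y)) ≠ 0 := by simpa using hy
        have h := same _ _ hx1 hy1 (by
          rw [D_map_add hx, D_map_add hy]
          omega)
        rw [u_map_add hc0 _ _ hx, u_map_add hc0 _ _ hy, hUshift, hUshift] at h
        exact h
      · intro x y z W hz hxD hyD hxW hyW
        have hzp : 0 < Z (pw c) z := Z_pos hp hz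
        have hDxz : D (x + z) = D z := by
          rw [D_add]
          refine max_eq_right ?_
          exact Multiset.sup_le.2 hxD
        have hDyz : D (y + z) = D z := by
          rw [D_add]
          refine max_eq_right ?_
          exact Multiset.sup_le.2 hyD
        set g : ℕ → ℝ := fun d => Real.exp (-(W * (Multiset.card z + c) /
          ((c - 1) * (Z (pw c) z + c * pw c d)))) * (A + 1) with hg
        have h := step_bound hc0 U a (2 * a * C * L) A L ihU x y z hz W hxW hyW g (by
          intro d hd
          have h1 := ihT x y ((d + 1) ::ₘ z) W (by simp)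
            (fun e he => (hxD e he).trans D_le_step) (fun e he => (hyD e he).trans D_le_step)
            hxW hyW
          have e1 : x + (d + 1) ::ₘ z = (d + 1) ::ₘ (x + z) := Multiset.add_cons _ _ _
          have e2 : y + (d + 1) ::ₘ z = (d + 1) ::ₘ (y + z) := Multiset.add_cons _ _ _
          rw [e1, e2] at h1
          have e3 : Dr ((d + 1) ::ₘ (x + z)) - Dr (x + z)
              = Dr ((d + 1) ::ₘ (y + z)) - Dr (y + z) := by
            unfold Dr
            rw [D_cons, D_cons, hDxz, hDyz]
          have e4 : Real.exp (-(W * (Multiset.card ((d + 1) ::ₘ z) + c - 1) /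
              ((c - 1) * Z (pw c) ((d + 1) ::ₘ z)))) * (A + 1) = g d := by
            rw [hg]
            congr 4
            · rw [Multiset.card_cons]; push_cast; ring
            · rw [Z_cons]
              unfold pw
              rw [pow_succ]
              ring
          have e5 : (1 - Real.exp (-(W * (Multiset.card ((d + 1) ::ₘ z) + c - 1) /
              ((c - 1) * Z (pw c) ((d + 1) ::ₘ z))))) * (A + 1) = A + 1 - g d := by
            rw [← e4]; ring
          rw [e5] at h1
          linarith)
        have hj := hK2a c hc W ((Z_nonneg hp x).trans hxW) z hz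
        have e6 : (z.map (fun d => pw c d * g d)).sum / (W + Z (pw c) z)
            = (z.map (fun d => pw c d *
              Real.exp (-(W * (Multiset.card z + c) / ((c - 1) * (Z (pw c) z + c * pw c d)))))).sum
              / (W + Z (pw c) z) * (A + 1) := by
          rw [div_mul_eq_mul_div, ← msum_mul_right]
          congr 2
          exact Multiset.map_congr rfl (fun d _ => by rw [hg]; ring)
        rw [e6] at h
        have hxz : x + z ≠ 0 := fun h => hz (add_eq_zero.1 h).2
        have hyz : y + z ≠ 0 := fun h => hz (add_eq_zero.1 h).2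
        have h1 := hU1 _ hxz
        have h2 := hU1 _ hyz
        have h7 : a * (P (pw c) U (x + z) + P (pw c) U (y + z))
            ≤ a * (U (x + z) + U (y + z) + 2 * C) :=
          mul_le_mul_of_nonneg_left (by linarith) hapos.le
        have h8 := mul_le_mul_of_nonneg_right hj (by linarith : (0 : ℝ) ≤ A + 1)
        push_cast
        nlinarith
  intro x y hx hy L
  have h1 := (main L).1 x y hx hy
  have h2 := (main L).1 y x hy hx
  have e1 : a * (U x + U y) = (U x + U y) / (δ * K) := by
    rw [ha, div_eq_mul_inv]; ring
  have e2 : 2 * a * C * L = 2 * C * L / (δ * K) := by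
    rw [ha, div_eq_mul_inv]; ring
  rw [abs_le]
  constructor
  · rw [add_comm (U y)] at h2
    rw [← e1, ← e2]
    linarith
  · rw [← e1, ← e2]
    linarith

end Pool.Agent.Q298.DWT
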