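import Pool.Agent.Q298.DWT.Basic

/-!
# Depth-weighted trees, step K2a: the Jensen lemma
-/

open MeasureTheory Filter Topology

namespace Pool.Agent.Q298.DWT

theorem k2a : S_K2a := by
  intro c hc W hW z hz
  have hc0 : 0 < c := by linarith
  have hp : ∀ k, 0 < pw c k := pw_pos hc0
  set S := Z (pw c) z with hS
  have hSpos : 0 < S := Z_pos hp hz
  set m : ℝ := (Multiset.card z : ℝ) with hm
  have hcard : 0 < Multiset.card z := Multiset.card_pos.2 hz
  have hm1 : 1 ≤ m := by rw [hm]; exact_mod_cast hcard
  set B : ℝ := W * (m + c) / (c - 1) with hB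
  have hc1 : 0 < c - 1 := by linarith
  have hB0 : 0 ≤ B := by positivity
  -- the mean of `1 / (S + c w)`
  set y : ℕ → ℝ := fun d => (S + c * pw c d)⁻¹ with hy
  have hy0 : ∀ d, 0 < y d := fun d => inv_pos.2 (by have := hp d; positivity)
  set T : ℝ := (z.map (fun d => pw c d * y d)).sum with hT
  -- (ii) bound for `T`
  have hTle : T ≤ m / (m + c) := by
    -- tangent line at `S / m`
    have htan : ∀ d ∈ z, pw c d * y d ≤ 1 / (m + c) + (m ^ 2 / (S * (m + c) ^ 2)) *
        (pw c d - S / m) := by
      intro d _
      have hw := hp d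
      rw [hy]
      simp only
      have h1 : 0 < S + c * pw c d := by positivity
      rw [← div_eq_mul_inv, div_le_iff₀ h1]
      have h2 : (1 / (m + c) + (m ^ 2 / (S * (m + c) ^ 2)) * (pw c d - S / m)) *
          (S + c * pw c d) - pw c d = c * (m * pw c d - S) ^ 2 / (S * (m + c) ^ 2) := by
        field_simp
        ring
      have h3 : 0 ≤ c * (m * pw c d - S) ^ 2 / (S * (m + c) ^ 2) := by positivity
      linarith
    have h4 := msum_le htan
    have h5 : (z.map (fun d => 1 / (m + c) + (m ^ 2 / (S * (m + c) ^ 2)) *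
        (pw c d - S / m))).sum = m / (m + c) := by
      rw [msum_add, msum_mul_left, msum_sub]
      simp only [Multiset.map_const', Multiset.sum_replicate, nsmul_eq_mul]
      rw [← hm]
      have : (z.map (fun d => pw c d)).sum = S := rfl
      rw [this]
      field_simp
      ring
    rw [h5] at h4
    exact h4
  -- (i) convexity of the exponential
  set Y : ℝ := T / S with hY
  have hexp : ∀ d, Real.exp (-(B * Y)) * (1 - B * (y d - Y)) ≤ Real.exp (-(B * y d)) := by
    intro d
    have h1 : 1 - B * (y d - Y) ≤ Real.exp (-(B * (y d - Y))) := by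
      have := Real.add_one_le_exp (-(B * (y d - Y)))
      linarith
    have h2 : Real.exp (-(B * y d)) = Real.exp (-(B * Y)) * Real.exp (-(B * (y d - Y))) := by
      rw [← Real.exp_add]
      congr 1
      ring
    rw [h2]
    exact mul_le_mul_of_nonneg_left h1 (Real.exp_pos _).le
  have hsum : S * Real.exp (-(B * Y)) ≤ (z.map (fun d => pw c d * Real.exp (-(B * y d)))).sum := by
    have h1 : (z.map (fun d => pw c d * (Real.exp (-(B * Y)) * (1 - B * (y d - Y))))).sum
        = S * Real.exp (-(B * Y)) := by
      have h2 : (z.map (fun d => pw c d * (Real.exp (-(B * Y)) * (1 - B * (y d - Y))))).sum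
          = (z.map (fun d => (Real.exp (-(B * Y)) * (1 + B * Y)) * pw c d
            - (Real.exp (-(B * Y)) * B) * (pw c d * y d))).sum :=
        msum_congr (fun d _ => by ring)
      rw [h2, msum_sub, msum_mul_left, msum_mul_left, ← hT]
      have : (z.map (fun d => pw c d)).sum = S := rfl
      rw [this, hY]
      field_simp
      ring
    rw [← h1]
    exact msum_le (fun d _ => mul_le_mul_of_nonneg_left (hexp d) (hp d).le)
  have hgoal : (z.map (fun d => pw c d *
      Real.exp (-(W * (m + c) / ((c - 1) * (S + c * pw c d)))))).sum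
      = (z.map (fun d => pw c d * Real.exp (-(B * y d)))).sum := by
    refine msum_congr (fun d _ => ?_)
    congr 3
    rw [hB, hy]
    have h1 : 0 < S + c * pw c d := by have := hp d; positivity
    field_simp
  rw [hgoal, le_div_iff₀ (by positivity)]
  refine le_trans ?_ hsum
  -- exponent comparison
  have hBY : B * Y ≤ W * m / ((c - 1) * S) := by
    rw [hB, hY]
    calc W * (m + c) / (c - 1) * (T / S) ≤ W * (m + c) / (c - 1) * ((m / (m + c)) / S) := by
          refine mul_le_mul_of_nonneg_left ?_ (by positivity)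
          exact div_le_div_of_nonneg_right hTle hSpos.le
      _ = W * m / ((c - 1) * S) := by
          field_simp
  have h6 : Real.exp (-(W * m / ((c - 1) * S))) ≤ Real.exp (-(B * Y)) := by
    apply Real.exp_le_exp.2
    linarith
  have h7 : W * (m + c - 1) / ((c - 1) * S) = W * m / ((c - 1) * S) + W / S := by
    field_simp
    ring
  have h8 : W + S ≤ S * Real.exp (W / S) := by
    have h9 := Real.add_one_le_exp (W / S)
    calc W + S = S * (W / S + 1) := by field_simp
      _ ≤ S * Real.exp (W / S) := mul_le_mul_of_nonneg_left h9 hSpos.le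
  rw [h7]
  have h10 : Real.exp (-(W * m / ((c - 1) * S) + W / S))
      = Real.exp (-(W * m / ((c - 1) * S))) * (Real.exp (W / S))⁻¹ := by
    rw [neg_add, Real.exp_add, Real.exp_neg (W / S)]
  rw [h10]
  have h11 : 0 < Real.exp (W / S) := Real.exp_pos _
  calc Real.exp (-(W * m / ((c - 1) * S))) * (Real.exp (W / S))⁻¹ * (W + S)
      ≤ Real.exp (-(W * m / ((c - 1) * S))) * (Real.exp (W / S))⁻¹ * (S * Real.exp (W / S)) :=
        mul_le_mul_of_nonneg_left h8 (by positivity)
    _ = S * Real.exp (-(W * m / ((c - 1) * S))) := by field_simp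
    _ ≤ S * Real.exp (-(B * Y)) := mul_le_mul_of_nonneg_left h6 hSpos.le

end Pool.Agent.Q298.DWT
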