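import Pool.Agent.Q298.DWT.Basic

/-!
# Depth-weighted trees, step K3: existence of the speed of the pure chain
-/

open MeasureTheory Filter Topology

namespace Pool.Agent.Q298.DWT

variable {f : ℕ → ℝ} {s : Multiset ℕ}

lemma single_le_msum {g : ℕ → ℝ} (hg : ∀ d ∈ s, 0 ≤ g d) {d : ℕ} (hd : d ∈ s) :
    g d ≤ (s.map g).sum := by
  obtain ⟨t, rfl⟩ := Multiset.exists_cons_of_mem hd
  rw [Multiset.map_cons, Multiset.sum_cons]
  have := msum_nonneg (s := t) (g := g) (fun e he => hg e (Multiset.mem_cons_of_mem he))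
  linarith

/-- occupation bound from a drift inequality -/
lemma occ (hf : ∀ k, 0 < f k) (U g : Multiset ℕ → ℝ) (C : ℝ)
    (h : ∀ t : Multiset ℕ, t ≠ 0 → P f U t ≤ U t - g t + C) (hs : s ≠ 0) (T : ℕ) :
    ∑ n ∈ Finset.range T, ((P f)^[n]) g s ≤ U s - ((P f)^[T]) U s + C * T := by
  induction T with
  | zero => simp
  | succ T ih =>
    rw [Finset.sum_range_succ]
    have h1 : ((P f)^[T + 1]) U s ≤ ((P f)^[T]) (fun t => (U t - g t) + C) s := by
      rw [iter_succ']
      exact iter_mono' hf h T hs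
    have h2 : ((P f)^[T]) (fun t => (U t - g t) + C) s
        = ((P f)^[T]) U s - ((P f)^[T]) g s + C := by
      rw [iter_add_fun, iter_sub_fun, iter_const hf T hs]
    push_cast
    linarith

lemma u_one_nonneg (hf : ∀ k, 0 < f k) (hs : s ≠ 0) : 0 ≤ u f 1 s := u_nonneg hf 1 hs

lemma u_one_le (hf : ∀ k, 0 < f k) (hs : s ≠ 0) : u f 1 s ≤ 1 := by
  have := u_le hf 1 hs
  simpa using this

lemma u_succ_sub (f : ℕ → ℝ) (n : ℕ) (s : Multiset ℕ) :
    u f (n + 1) s = u f n s + ((P f)^[n]) (u f 1) s := by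
  rw [add_comm n 1, u_add]

lemma u_mono_step (hf : ∀ k, 0 < f k) (n : ℕ) (hs : s ≠ 0) : u f n s ≤ u f (n + 1) s := by
  rw [u_succ_sub]
  have : ((P f)^[n]) (fun _ => (0 : ℝ)) s ≤ ((P f)^[n]) (u f 1) s :=
    iter_mono' hf (fun t ht => u_one_nonneg hf ht) n hs
  rw [iter_const hf n hs] at this
  linarith

lemma u_step_le (hf : ∀ k, 0 < f k) (n : ℕ) (hs : s ≠ 0) : u f (n + 1) s ≤ u f n s + 1 := by
  rw [u_succ_sub]
  have : ((P f)^[n]) (u f 1) s ≤ ((P f)^[n]) (fun _ => (1 : ℝ)) s :=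
    iter_mono' hf (fun t ht => u_one_le hf ht) n hs
  rw [iter_const hf n hs] at this
  linarith

lemma u_add_le (hf : ∀ k, 0 < f k) (n i : ℕ) (hs : s ≠ 0) :
    u f n s ≤ u f (n + i) s ∧ u f (n + i) s ≤ u f n s + i := by
  induction i with
  | zero => simp
  | succ i ih =>
    have h1 := u_mono_step hf (n + i) hs
    have h2 := u_step_le hf (n + i) hs
    have e : n + (i + 1) = n + i + 1 := by ring
    rw [e]
    push_cast
    constructor <;> linarith [ih.1, ih.2]

lemma u_eq_sum (f : ℕ → ℝ) (T : ℕ) (s : Multiset ℕ) :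
    u f T s = ∑ n ∈ Finset.range T, ((P f)^[n]) (u f 1) s := by
  induction T with
  | zero => simp
  | succ T ih => rw [u_succ_sub, Finset.sum_range_succ, ih]

/-- the sum of the `L`-step increments is almost `L` times the total -/
lemma sum_iter_u (hf : ∀ k, 0 < f k) (L T : ℕ) (hs : s ≠ 0) :
    |∑ n ∈ Finset.range T, ((P f)^[n]) (u f L) s - L * u f T s| ≤ (L : ℝ) ^ 2 := by
  have e1 : ∀ T : ℕ, ∑ n ∈ Finset.range T, ((P f)^[n]) (u f L) s
      = ∑ i ∈ Finset.range L, (u f (T + i) s - u f i s) := by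
    intro T
    induction T with
    | zero => simp
    | succ T ih =>
      rw [Finset.sum_range_succ, ih]
      have h1 : ((P f)^[T]) (u f L) s = u f (T + L) s - u f T s := by
        have := u_add f L T s
        rw [add_comm L T] at this
        linarith
      have h2 : u f (T + L) s - u f T s
          = ∑ i ∈ Finset.range L, (u f (T + (i + 1)) s - u f (T + i) s) := by
        rw [Finset.sum_range_sub (fun i => u f (T + i) s)]
        simp
      rw [h1, h2, ← Finset.sum_add_distrib]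
      refine Finset.sum_congr rfl (fun i _ => ?_)
      have : T + 1 + i = T + (i + 1) := by ring
      rw [this]
      ring
  rw [e1 T]
  have e2 : (L : ℝ) * u f T s = ∑ _i ∈ Finset.range L, u f T s := by simp
  rw [e2, ← Finset.sum_sub_distrib]
  calc |∑ i ∈ Finset.range L, (u f (T + i) s - u f i s - u f T s)|
      ≤ ∑ i ∈ Finset.range L, |u f (T + i) s - u f i s - u f T s| :=
        Finset.abs_sum_le_sum_abs _ _
    _ ≤ ∑ _i ∈ Finset.range L, (L : ℝ) := by
        refine Finset.sum_le_sum (fun i hi => ?_)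
        have hi' : (i : ℝ) ≤ L := by exact_mod_cast (Finset.mem_range.1 hi).le
        have h1 := u_add_le hf T i hs
        have h2 := u_nonneg hf i hs
        have h3 := u_le hf i hs
        rw [abs_le]
        constructor <;> linarith [h1.1, h1.2]
    _ = (L : ℝ) ^ 2 := by simp; ring

lemma EG_pw {c : ℝ} (hc : 1 < c) : EG (pw c) c := by
  have hc0 : 0 < c := by linarith
  refine ⟨pw_pos hc0, ?_⟩
  have : (fun k => pw c (k + 1) / pw c k) = fun _ => c := by
    funext k
    unfold pw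
    rw [pow_succ]
    field_simp
  rw [this]
  exact tendsto_const_nhds

/-- tangent line for `1 / x` -/
lemma inv_ge_tangent {x K : ℝ} (hx : 0 < x) (hK : 0 < K) : 2 / K - x / K ^ 2 ≤ 1 / x := by
  rw [div_sub_div _ _ hK.ne' (by positivity), div_le_div_iff₀ (by positivity) hx]
  nlinarith [sq_nonneg (x - K), mul_pos hK hx, mul_pos (mul_pos hK hK) hx,
    mul_nonneg hK.le (sq_nonneg (x - K))]

section K3

variable {c : ℝ}

/-- the data obtained from K1 and K2 for one `θ` -/
lemma pre (h1 : S_K1) (h2 : S_K2) (hc : 1 < c) {θ : ℝ} (hθ : 1 < θ) (hθc : θ < c) :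
    ∃ (U : Multiset ℕ → ℝ) (δ C : ℝ), 0 < δ ∧ 0 ≤ C ∧ (∀ s, H θ s ^ 2 ≤ U s) ∧
      (∀ s : Multiset ℕ, s ≠ 0 → P (pw c) U s ≤ U s - δ * H θ s + C) ∧
      ∀ ε : ℝ, 0 < ε → ∃ A : ℝ, 0 ≤ A ∧ ∀ x y : Multiset ℕ, x ≠ 0 → y ≠ 0 → ∀ L : ℕ,
        |u (pw c) L x - u (pw c) L y| ≤ A + ε * (H θ x ^ 2 + H θ y ^ 2) + ε * L := by
  obtain ⟨η, J, m, δ, C, hη, hηJ, hm, hδ, hC, hdrift⟩ :=
    h1 (pw c) c hc (EG_pw hc) θ hθ hθc 2 (by norm_num)
  have hθ0 : 0 < θ := by linarith
  refine ⟨V θ η 2 J m, δ, C, hδ, hC, fun s => pow_le_V hθ0 hη s, ?_, ?_⟩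
  · intro s hs
    have := hdrift s hs
    simpa using this
  · intro ε hε
    have hUdrift : ∀ s : Multiset ℕ, s ≠ 0 →
        P (pw c) (V θ η 2 J m) s ≤ V θ η 2 J m s - δ * H θ s + C := by
      intro s hs
      have := hdrift s hs
      simpa using this
    set K : ℝ := max 1 ((2 + 2 * C) / (δ * ε)) with hK
    have hK1 : 1 ≤ K := le_max_left _ _
    have hK2 : (2 + 2 * C) / (δ * ε) ≤ K := le_max_right _ _
    have hK0 : 0 < K := by linarith
    have hbd : 2 + 2 * C ≤ ε * (δ * K) := by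
      rw [div_le_iff₀ (by positivity)] at hK2
      linarith
    refine ⟨K ^ 2 * Real.exp (K / (c - 1)), by positivity, ?_⟩
    intro x y hx hy L
    have h := h2 c hc θ hθ hθc (V θ η 2 J m) δ C hδ hC (fun s => V_nonneg hθ0 hη s)
      (fun s a => V_map_add hθ0 a s) hUdrift K hK1 x y hx hy L
    have hVx := V_le (q := 2) (m := m) hθ0 hη hηJ x
    have hVy := V_le (q := 2) (m := m) hθ0 hη hηJ y
    have hδK : 0 < δ * K := by positivity
    have e1 : (V θ η 2 J m x + V θ η 2 J m y) / (δ * K) ≤ ε * (H θ x ^ 2 + H θ y ^ 2) := by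
      rw [div_le_iff₀ hδK]
      have h3 : 0 ≤ H θ x ^ 2 + H θ y ^ 2 := by positivity
      have h4 : (2 : ℝ) ≤ ε * (δ * K) := by linarith
      nlinarith
    have e2 : 2 * C * L / (δ * K) ≤ ε * L := by
      rw [div_le_iff₀ hδK]
      have h3 : (0 : ℝ) ≤ L := by positivity
      have h4 : 2 * C ≤ ε * (δ * K) := by linarith
      nlinarith
    linarith

lemma H_singleton_zero (θ : ℝ) : H θ {0} = 1 := by simp [H]

set_option maxHeartbeats 2000000 in
/-- Cauchy-type estimate for the speed. -/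
lemma speed_close (h1 : S_K1) (h2 : S_K2) (hc : 1 < c) {τ : ℝ} (hτ : 0 < τ) :
    ∃ L1 : ℕ, ∀ L : ℕ, L1 ≤ L → ∃ T1 : ℕ, ∀ T : ℕ, T1 ≤ T →
      |u (pw c) T {0} / T - u (pw c) L {0} / L| ≤ τ := by
  have hc0 : 0 < c := by linarith
  have hp : ∀ k, 0 < pw c k := pw_pos hc0
  set θ : ℝ := (1 + c) / 2 with hθdef
  have hθ : 1 < θ := by rw [hθdef]; linarith
  have hθc : θ < c := by rw [hθdef]; linarith
  have hθ0 : 0 < θ := by linarith
  obtain ⟨U, δ, C, hδ, hC, hUH, hdrift, hcoup⟩ := pre h1 h2 hc hθ hθc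
  have hx0 : ({0} : Multiset ℕ) ≠ 0 := by simp
  have hU0 : ∀ s, 0 ≤ U s := fun s => (by positivity : 0 ≤ H θ s ^ 2).trans (hUH s)
  set C1 : ℝ := U {0} + C with hC1
  have hC1pos : 1 ≤ C1 := by
    have := hUH {0}
    rw [H_singleton_zero] at this
    linarith
  set K0 : ℝ := 4 * C1 / (δ * τ) with hK0
  have hK0pos : 0 < K0 := by positivity
  set ε : ℝ := τ / 4 with hε
  obtain ⟨A, hA, hA2⟩ := hcoup ε (by positivity)
  set A' : ℝ := A + ε * (K0 ^ 2 + 1) with hA'
  have hA'0 : 0 ≤ A' := by positivity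
  obtain ⟨L1, hL1⟩ := exists_nat_gt (4 * A' / τ)
  refine ⟨L1 + 1, ?_⟩
  intro L hL
  have hL0 : 0 < L := by omega
  have hLr : (0 : ℝ) < L := by exact_mod_cast hL0
  have hLL1 : (L1 : ℝ) ≤ L := by exact_mod_cast (by omega : L1 ≤ L)
  have hA'L : A' ≤ τ / 4 * L := by
    have : 4 * A' / τ < L := lt_of_lt_of_le hL1 hLL1
    rw [div_lt_iff₀ hτ] at this
    linarith
  obtain ⟨T1, hT1⟩ := exists_nat_gt (4 * (L : ℝ) / τ)
  refine ⟨T1 + 1, ?_⟩
  intro T hT
  have hT0 : 0 < T := by omega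
  have hTr : (0 : ℝ) < T := by exact_mod_cast hT0
  have hTT1 : (T1 : ℝ) ≤ T := by exact_mod_cast (by omega : T1 ≤ T)
  have hLT : (L : ℝ) ≤ τ / 4 * T := by
    have : 4 * (L : ℝ) / τ < T := lt_of_lt_of_le hT1 hTT1
    rw [div_lt_iff₀ hτ] at this
    linarith
  set aL := u (pw c) L {0} with haL
  set aT := u (pw c) T {0} with haT
  -- pointwise bound
  have hpt : ∀ x : Multiset ℕ, x ≠ 0 → |u (pw c) L x - aL| ≤
      (A' + ε * L) + (L / K0) * H θ x := by
    intro x hx
    have hH0 := H_nonneg hθ0 x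
    by_cases hHK : H θ x ≤ K0
    · have h3 := hA2 x {0} hx hx0 L
      rw [H_singleton_zero] at h3
      have h4 : H θ x ^ 2 ≤ K0 ^ 2 := pow_le_pow_left₀ hH0 hHK 2
      have h5 : 0 ≤ (L / K0) * H θ x := by positivity
      have h6 : ε * (H θ x ^ 2 + 1 ^ 2) ≤ ε * (K0 ^ 2 + 1) :=
        mul_le_mul_of_nonneg_left (by linarith) (by positivity)
      rw [hA']
      linarith
    · push Not at hHK
      have h3 : |u (pw c) L x - aL| ≤ L := by
        have h4 := u_nonneg hp L hx
        have h5 := u_le hp L hx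
        have h6 := u_nonneg hp L hx0
        have h7 := u_le hp L hx0
        rw [abs_le]
        constructor <;> linarith
      have h4 : (L : ℝ) ≤ (L / K0) * H θ x := by
        rw [div_mul_eq_mul_div, le_div_iff₀ hK0pos]
        exact mul_le_mul_of_nonneg_left hHK.le hLr.le
      have h5 : 0 ≤ A' + ε * L := by positivity
      linarith
  -- summation
  have hocc := occ hp U (fun t => δ * H θ t) C hdrift hx0 T
  have hPU : 0 ≤ ((P (pw c))^[T]) U {0} := by
    have := iter_mono' hp (φ := fun _ => (0 : ℝ)) (ψ := U) (fun t _ => hU0 t) T hx0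
    rwa [iter_const hp T hx0] at this
  have hsumH : ∑ n ∈ Finset.range T, ((P (pw c))^[n]) (H θ) {0} ≤ (U {0} + C * T) / δ := by
    rw [le_div_iff₀ hδ]
    have : ∑ n ∈ Finset.range T, ((P (pw c))^[n]) (fun t => δ * H θ t) {0}
        = (∑ n ∈ Finset.range T, ((P (pw c))^[n]) (H θ) {0}) * δ := by
      rw [Finset.sum_mul]
      refine Finset.sum_congr rfl (fun n _ => ?_)
      rw [iter_mul_fun, mul_comm]
    rw [← this]
    linarith
  have hterm : ∀ n : ℕ, |((P (pw c))^[n]) (u (pw c) L) {0} - aL| ≤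
      (A' + ε * L) + (L / K0) * ((P (pw c))^[n]) (H θ) {0} := by
    intro n
    have e1 : ((P (pw c))^[n]) (fun t => (A' + ε * L) + (L / K0) * H θ t) {0}
        = (A' + ε * L) + (L / K0) * ((P (pw c))^[n]) (H θ) {0} := by
      rw [iter_add_fun, iter_const hp n hx0, iter_mul_fun]
    have e2 : ((P (pw c))^[n]) (fun t => aL + ((A' + ε * L) + (L / K0) * H θ t)) {0}
        = aL + ((A' + ε * L) + (L / K0) * ((P (pw c))^[n]) (H θ) {0}) := by
      rw [iter_add_fun, iter_const hp n hx0, e1]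
    have e3 : ((P (pw c))^[n]) (fun t => aL - ((A' + ε * L) + (L / K0) * H θ t)) {0}
        = aL - ((A' + ε * L) + (L / K0) * ((P (pw c))^[n]) (H θ) {0}) := by
      rw [iter_sub_fun, iter_const hp n hx0, e1]
    have h3 : ((P (pw c))^[n]) (u (pw c) L) {0} ≤
        ((P (pw c))^[n]) (fun t => aL + ((A' + ε * L) + (L / K0) * H θ t)) {0} :=
      iter_mono' hp (fun t ht => by have := (abs_le.1 (hpt t ht)).2; linarith) n hx0
    have h4 : ((P (pw c))^[n]) (fun t => aL - ((A' + ε * L) + (L / K0) * H θ t)) {0} ≤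
        ((P (pw c))^[n]) (u (pw c) L) {0} :=
      iter_mono' hp (fun t ht => by have := (abs_le.1 (hpt t ht)).1; linarith) n hx0
    rw [e2] at h3
    rw [e3] at h4
    rw [abs_le]
    constructor <;> linarith
  have hsum : |∑ n ∈ Finset.range T, ((P (pw c))^[n]) (u (pw c) L) {0} - T * aL| ≤
      T * (A' + ε * L) + (L / K0) * ((U {0} + C * T) / δ) := by
    have e1 : (T : ℝ) * aL = ∑ _n ∈ Finset.range T, aL := by simp
    rw [e1, ← Finset.sum_sub_distrib]
    calc |∑ n ∈ Finset.range T, (((P (pw c))^[n]) (u (pw c) L) {0} - aL)|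
        ≤ ∑ n ∈ Finset.range T, |((P (pw c))^[n]) (u (pw c) L) {0} - aL| :=
          Finset.abs_sum_le_sum_abs _ _
      _ ≤ ∑ n ∈ Finset.range T, ((A' + ε * L) + (L / K0) * ((P (pw c))^[n]) (H θ) {0}) :=
          Finset.sum_le_sum (fun n _ => hterm n)
      _ = T * (A' + ε * L) + (L / K0) * ∑ n ∈ Finset.range T, ((P (pw c))^[n]) (H θ) {0} := by
          rw [Finset.sum_add_distrib, ← Finset.mul_sum, Finset.sum_const, Finset.card_range,
            nsmul_eq_mul]
      _ ≤ T * (A' + ε * L) + (L / K0) * ((U {0} + C * T) / δ) := by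
          have : 0 ≤ (L : ℝ) / K0 := by positivity
          have := mul_le_mul_of_nonneg_left hsumH this
          linarith
  have hid := sum_iter_u hp L T hx0
  rw [← haT] at hid
  -- combine
  have hcomb : |(L : ℝ) * aT - T * aL| ≤
      (L : ℝ) ^ 2 + (T * (A' + ε * L) + (L / K0) * ((U {0} + C * T) / δ)) := by
    have h3 := abs_le.1 hid
    have h4 := abs_le.1 hsum
    rw [abs_le]
    constructor <;> linarith [h3.1, h3.2, h4.1, h4.2]
  have hT1r : (1 : ℝ) ≤ T := by exact_mod_cast hT0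
  have hlast : (L / K0) * ((U {0} + C * T) / δ) ≤ τ / 4 * (L * T) := by
    have h3 : U {0} + C * T ≤ C1 * T := by
      have := hU0 {0}
      rw [hC1]
      nlinarith
    calc (L / K0) * ((U {0} + C * T) / δ) ≤ (L / K0) * ((C1 * T) / δ) := by
          refine mul_le_mul_of_nonneg_left ?_ (by positivity)
          exact div_le_div_of_nonneg_right h3 hδ.le
      _ = τ / 4 * (L * T) := by
          rw [hK0]
          field_simp
  have hfin : |(L : ℝ) * aT - T * aL| ≤ τ * (L * T) := by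
    have h3 : (L : ℝ) ^ 2 ≤ τ / 4 * (L * T) := by nlinarith
    have h4 : (T : ℝ) * (A' + ε * L) ≤ τ / 4 * (L * T) + τ / 4 * (L * T) := by
      rw [hε]
      nlinarith
    linarith
  have hdiv : aT / T - aL / L = ((L : ℝ) * aT - T * aL) / (L * T) := by
    field_simp
  rw [hdiv, abs_div, abs_of_pos (by positivity : (0 : ℝ) < L * T), div_le_iff₀ (by positivity)]
  exact hfin

lemma exists_speed (h1 : S_K1) (h2 : S_K2) (hc : 1 < c) :
    ∃ ν : ℝ, Tendsto (fun L : ℕ => u (pw c) L {0} / (L : ℝ)) atTop (𝓝 ν) := by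
  apply cauchySeq_tendsto_of_complete
  rw [Metric.cauchySeq_iff]
  intro ε hε
  obtain ⟨L1, hL1⟩ := speed_close h1 h2 hc (τ := ε / 4) (by positivity)
  refine ⟨L1, ?_⟩
  intro a ha b hb
  obtain ⟨T1, hT1⟩ := hL1 a ha
  obtain ⟨T2, hT2⟩ := hL1 b hb
  have h3 := hT1 (max T1 T2) (le_max_left _ _)
  have h4 := hT2 (max T1 T2) (le_max_right _ _)
  rw [Real.dist_eq]
  have h5 := abs_le.1 h3
  have h6 := abs_le.1 h4
  rw [abs_lt]
  constructor <;> linarith [h5.1, h5.2, h6.1, h6.2]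

/-- lower bound for the probability of a new deepest vertex -/
lemma u_one_ge {θ : ℝ} (hθ : 0 < θ) (hθc : θ ≤ c) (hs : s ≠ 0) :
    1 / H θ s ≤ u (pw c) 1 s := by
  have hc0 : 0 < c := hθ.trans_le hθc
  have hp : ∀ k, 0 < pw c k := pw_pos hc0
  have hZ := Z_pos hp hs
  have hD := hp (D s)
  have h1 := Z_div_le_H hθ hθc s
  have hH : 0 < H θ s := lt_of_lt_of_le zero_lt_one (one_le_H hθ hs)
  have h2 : u (pw c) 1 s = P (pw c) (fun t => Dr t - Dr s) s := by
    have := u_succ hp hs 0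
    simpa using this
  have h3 : pw c (D s) ≤ (s.map (fun d => pw c d * (Dr ((d + 1) ::ₘ s) - Dr s))).sum := by
    have h4 := single_le_msum (s := s) (g := fun d => pw c d * (Dr ((d + 1) ::ₘ s) - Dr s))
      (fun d _ => mul_nonneg (hp d).le (by have := @Dr_le_step s d; linarith)) (D_mem hs)
    have h5 : Dr ((D s + 1) ::ₘ s) - Dr s = 1 := by
      unfold Dr
      rw [D_step (D_mem hs), if_pos rfl]
      push_cast
      ring
    simp only [h5, mul_one] at h4
    exact h4
  rw [h2]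
  unfold P
  rw [div_le_div_iff₀ hH hZ, one_mul]
  rw [div_le_iff₀ hD] at h1
  calc Z (pw c) s ≤ H θ s * pw c (D s) := h1
    _ ≤ H θ s * (s.map (fun d => pw c d * (Dr ((d + 1) ::ₘ s) - Dr s))).sum :=
        mul_le_mul_of_nonneg_left h3 hH.le
    _ = _ := by ring

/-- lower bound for the probability of no new deepest vertex, if the level below the top one is
occupied -/
lemma one_sub_u_one_ge {θ : ℝ} (hθ : 0 < θ) (hθc : θ ≤ c) (hs : s ≠ 0)
    (hD1 : 1 ≤ D s) (hDm : D s - 1 ∈ s) :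
    1 / (c * H θ s) ≤ 1 - u (pw c) 1 s := by
  have hc0 : 0 < c := hθ.trans_le hθc
  have hp : ∀ k, 0 < pw c k := pw_pos hc0
  have hZ := Z_pos hp hs
  have hD := hp (D s)
  have h1 := Z_div_le_H hθ hθc s
  have hH : 0 < H θ s := lt_of_lt_of_le zero_lt_one (one_le_H hθ hs)
  have h2 : 1 - u (pw c) 1 s = P (pw c) (fun t => 1 - (Dr t - Dr s)) s := by
    have := u_succ hp hs 0
    rw [P_sub, P_const hp hs]
    simpa using this
  have h3 : pw c (D s - 1)
      ≤ (s.map (fun d => pw c d * (1 - (Dr ((d + 1) ::ₘ s) - Dr s)))).sum := by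
    have h4 := single_le_msum (s := s)
      (g := fun d => pw c d * (1 - (Dr ((d + 1) ::ₘ s) - Dr s)))
      (fun d hd => mul_nonneg (hp d).le (by have := Dr_step_le hd; linarith)) hDm
    have h5 : Dr ((D s - 1 + 1) ::ₘ s) - Dr s = 0 := by
      unfold Dr
      rw [D_step hDm, if_neg (by omega)]
      ring
    simp only [h5, sub_zero, mul_one] at h4
    exact h4
  have h6 : pw c (D s) = c * pw c (D s - 1) := by
    unfold pw
    rw [← pow_succ']
    congr 1
    omega
  rw [h2]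
  unfold P
  rw [div_le_div_iff₀ (by positivity) hZ, one_mul]
  rw [div_le_iff₀ hD] at h1
  calc Z (pw c) s ≤ H θ s * pw c (D s) := h1
    _ = c * H θ s * pw c (D s - 1) := by rw [h6]; ring
    _ ≤ c * H θ s * (s.map (fun d => pw c d * (1 - (Dr ((d + 1) ::ₘ s) - Dr s)))).sum :=
        mul_le_mul_of_nonneg_left h3 (by positivity)
    _ = _ := by ring

theorem k3 (h1 : S_K1) (h2 : S_K2) : S_nu := by
  intro c hc
  obtain ⟨ν, hν⟩ := exists_speed h1 h2 hc
  have hc0 : 0 < c := by linarith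
  have hp : ∀ k, 0 < pw c k := pw_pos hc0
  have hx0 : ({0} : Multiset ℕ) ≠ 0 := by simp
  -- data for a fixed `θ`
  set θ0 : ℝ := (1 + c) / 2 with hθdef
  have hθ : 1 < θ0 := by rw [hθdef]; linarith
  have hθc : θ0 < c := by rw [hθdef]; linarith
  have hθ0 : 0 < θ0 := by linarith
  obtain ⟨U, δ, C, hδ, hC, hUH, hdrift, -⟩ := pre h1 h2 hc hθ hθc
  have hU0 : ∀ s, 0 ≤ U s := fun s => (by positivity : 0 ≤ H θ0 s ^ 2).trans (hUH s)
  have hsumH : ∀ x : Multiset ℕ, x ≠ 0 → ∀ T : ℕ,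
      ∑ n ∈ Finset.range T, ((P (pw c))^[n]) (H θ0) x ≤ (U x + C * T) / δ := by
    intro x hx T
    have hocc := occ hp U (fun t => δ * H θ0 t) C hdrift hx T
    have hPU : 0 ≤ ((P (pw c))^[T]) U x := by
      have := iter_mono' hp (φ := fun _ => (0 : ℝ)) (ψ := U) (fun t _ => hU0 t) T hx
      rwa [iter_const hp T hx] at this
    rw [le_div_iff₀ hδ]
    have : ∑ n ∈ Finset.range T, ((P (pw c))^[n]) (fun t => δ * H θ0 t) x
        = (∑ n ∈ Finset.range T, ((P (pw c))^[n]) (H θ0) x) * δ := by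
      rw [Finset.sum_mul]
      refine Finset.sum_congr rfl (fun n _ => ?_)
      rw [iter_mul_fun, mul_comm]
    rw [← this]
    linarith
  -- averages of `1 / H`
  have hlow : ∀ (Q : Multiset ℕ → Prop), (∀ t, Q t → t ≠ 0) →
      (∀ t, Q t → ∀ d ∈ t, Q ((d + 1) ::ₘ t)) → ∀ (g : Multiset ℕ → ℝ) (b : ℝ), 0 < b →
      (∀ t, Q t → b * (1 / H θ0 t) ≤ g t) → ∀ x : Multiset ℕ, Q x → ∃ κ : ℝ, 0 < κ ∧
        ∀ T : ℕ, 1 ≤ T → κ * T ≤ ∑ n ∈ Finset.range T, ((P (pw c))^[n]) g x := by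
    intro Q hQ0 hQ g b hb hg x hQx
    have hx := hQ0 x hQx
    have hUx : 1 ≤ U x := by
      have h3 := one_le_H hθ0 hx
      have h4 := hUH x
      nlinarith
    set K0 : ℝ := (U x + C) / δ with hK0
    have hK0pos : 0 < K0 := by positivity
    refine ⟨b / K0, by positivity, ?_⟩
    intro T hT
    have hTr : (1 : ℝ) ≤ T := by exact_mod_cast hT
    have h3 : ∀ n, b * (2 / K0) - (b / K0 ^ 2) * ((P (pw c))^[n]) (H θ0) x
        ≤ ((P (pw c))^[n]) g x := by
      intro n
      have e1 : ((P (pw c))^[n]) (fun t => b * (2 / K0) - (b / K0 ^ 2) * H θ0 t) x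
          = b * (2 / K0) - (b / K0 ^ 2) * ((P (pw c))^[n]) (H θ0) x := by
        rw [iter_sub_fun, iter_const hp n hx, iter_mul_fun]
      rw [← e1]
      refine iter_mono hp hQ (fun t ht => ?_) n hQx
      have hHt : 0 < H θ0 t := lt_of_lt_of_le zero_lt_one (one_le_H hθ0 (hQ0 t ht))
      have h4 := inv_ge_tangent hHt hK0pos
      have h5 := mul_le_mul_of_nonneg_left h4 hb.le
      have h6 := hg t ht
      have e2 : b * (2 / K0 - H θ0 t / K0 ^ 2)
          = b * (2 / K0) - (b / K0 ^ 2) * H θ0 t := by ring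
      linarith
    have h4 := Finset.sum_le_sum (fun n (_ : n ∈ Finset.range T) => h3 n)
    rw [Finset.sum_sub_distrib, Finset.sum_const, Finset.card_range, nsmul_eq_mul,
      ← Finset.mul_sum] at h4
    have h5 := hsumH x hx T
    have h6 : (U x + C * T) / δ ≤ K0 * T := by
      rw [hK0, div_mul_eq_mul_div]
      refine div_le_div_of_nonneg_right ?_ hδ.le
      have := hU0 x
      nlinarith
    have h7 : (b / K0 ^ 2) * ∑ n ∈ Finset.range T, ((P (pw c))^[n]) (H θ0) x
        ≤ (b / K0 ^ 2) * (K0 * T) :=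
      mul_le_mul_of_nonneg_left (h5.trans h6) (by positivity)
    have h8 : (T : ℝ) * (b * (2 / K0)) - (b / K0 ^ 2) * (K0 * T) = b / K0 * T := by
      field_simp
      ring
    linarith
  refine ⟨ν, ?_, ?_, ?_⟩
  · -- positivity
    obtain ⟨κ, hκ, hκT⟩ := hlow (fun t => t ≠ 0) (fun t ht => ht) (fun _ _ _ _ => by simp)
      (u (pw c) 1) 1 one_pos (fun t ht => by
        rw [one_mul]
        exact u_one_ge hθ0 hθc.le ht) {0} hx0
    have : κ ≤ ν := by
      refine ge_of_tendsto hν ?_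
      filter_upwards [eventually_ge_atTop 1] with T hT
      have hTr : (0 : ℝ) < T := by exact_mod_cast hT
      rw [le_div_iff₀ hTr, u_eq_sum]
      exact hκT T hT
    linarith
  · -- below one
    set x1 : Multiset ℕ := (0 + 1) ::ₘ {0} with hx1
    have hx1' : x1 ≠ 0 := by rw [hx1]; simp
    have hD1 : D x1 = 1 := by rw [hx1, D_cons, D_singleton]; rfl
    obtain ⟨κ, hκ, hκT⟩ := hlow (fun t => t ≠ 0 ∧ 1 ≤ D t ∧ D t - 1 ∈ t) (fun t ht => ht.1)
      (by
        rintro t ⟨ht0, ht1, ht2⟩ d hd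
        refine ⟨by simp, ht1.trans D_le_step, ?_⟩
        rw [D_step hd]
        split_ifs with hdD
        · rw [Nat.add_sub_cancel, ← hdD]
          exact Multiset.mem_cons_of_mem hd
        · exact Multiset.mem_cons_of_mem ht2)
      (fun t => 1 - u (pw c) 1 t) (1 / c) (by positivity) (fun t ht => by
        have := one_sub_u_one_ge (c := c) hθ0 hθc.le ht.1 ht.2.1 ht.2.2
        rw [div_mul_div_comm, one_mul]
        exact this) x1 ⟨hx1', hD1.ge, by rw [hD1, hx1]; simp⟩
    have hux1 : ∀ T : ℕ, 1 ≤ T → u (pw c) T x1 ≤ (1 - κ) * T := by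
      intro T hT
      have h3 := hκT T hT
      have h4 : ∑ n ∈ Finset.range T, ((P (pw c))^[n]) (fun t => 1 - u (pw c) 1 t) x1
          = T - u (pw c) T x1 := by
        rw [u_eq_sum]
        have : ∀ n, ((P (pw c))^[n]) (fun t => 1 - u (pw c) 1 t) x1
            = 1 - ((P (pw c))^[n]) (u (pw c) 1) x1 := by
          intro n
          rw [iter_sub_fun, iter_const hp n hx1']
        simp_rw [this]
        rw [Finset.sum_sub_distrib]
        simp
      rw [h4] at h3
      linarith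
    have hstep : ∀ T : ℕ, u (pw c) (T + 1) {0} = 1 + u (pw c) T x1 := by
      intro T
      rw [u_succ hp hx0]
      unfold P
      rw [Multiset.map_singleton, Multiset.sum_singleton, Z_singleton]
      have h3 : Dr ((0 + 1) ::ₘ ({0} : Multiset ℕ)) - Dr {0} = 1 := by
        unfold Dr
        rw [D_cons, D_singleton]
        norm_num
      have h4 : pw c 0 * (Dr ((0 + 1) ::ₘ ({0} : Multiset ℕ)) - Dr {0}
          + u (pw c) T ((0 + 1) ::ₘ {0})) / pw c 0 = 1 + u (pw c) T x1 := by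
        rw [h3]
        have := (hp 0).ne'
        rw [mul_div_assoc, mul_comm, div_mul_cancel₀ _ this]
      exact h4
    have hν' := (tendsto_add_atTop_iff_nat (f := fun L : ℕ => u (pw c) L {0} / (L : ℝ)) 1).2 hν
    have hle : ν ≤ 1 - κ := by
      have hlim : Tendsto (fun T : ℕ => (1 + (1 - κ) * (T : ℝ)) / ((T : ℝ) + 1)) atTop
          (𝓝 (1 - κ)) := by
        have e1 : (fun T : ℕ => (1 + (1 - κ) * (T : ℝ)) / ((T : ℝ) + 1))
            = fun T : ℕ => (1 - κ) + κ * (1 / ((T : ℝ) + 1)) := by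
          funext T
          have : (0 : ℝ) < (T : ℝ) + 1 := by positivity
          field_simp
          ring
        rw [e1]
        have h5 := (tendsto_one_div_add_atTop_nhds_zero_nat (𝕜 := ℝ)).const_mul κ
        have h6 := h5.const_add (1 - κ)
        simpa using h6
      refine le_of_tendsto_of_tendsto hν' hlim ?_
      filter_upwards [eventually_ge_atTop 1] with T hT
      rw [hstep]
      push_cast
      have := hux1 T hT
      refine div_le_div_of_nonneg_right (by linarith) (by positivity)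
    linarith
  · -- locally uniform convergence
    intro θ hθ' hθc' K ε hε
    have hθ0' : 0 < θ := by linarith
    obtain ⟨U', δ', C', hδ', hC', hUH', hdrift', hcoup'⟩ := pre h1 h2 hc hθ' hθc'
    obtain ⟨A, hA, hA2⟩ := hcoup' (ε / 3) (by positivity)
    have hev : ∀ᶠ L : ℕ in atTop, |u (pw c) L {0} / (L : ℝ) - ν| < ε / 6 := by
      have := (Metric.tendsto_nhds.1 hν) (ε / 6) (by positivity)
      simpa [Real.dist_eq] using this
    obtain ⟨L2, hL2⟩ := eventually_atTop.1 hev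
    obtain ⟨L3, hL3⟩ := exists_nat_gt ((A + ε / 3 * (K ^ 2 + 1)) * 6 / ε)
    refine ⟨max (max L2 L3) 1, ?_⟩
    intro L hL s hs hHs
    have hL2' : L2 ≤ L := (le_max_left L2 L3).trans ((le_max_left _ 1).trans hL)
    have hL3' : L3 ≤ L := (le_max_right L2 L3).trans ((le_max_left _ 1).trans hL)
    have hL1' : 1 ≤ L := (le_max_right _ 1).trans hL
    have hLr : (0 : ℝ) < L := by exact_mod_cast hL1'
    have h3 := hA2 s {0} hs hx0 L
    rw [H_singleton_zero] at h3
    have hH1 := one_le_H hθ0' hs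
    have h4 : H θ s ^ 2 ≤ K ^ 2 := pow_le_pow_left₀ (by linarith) hHs 2
    have h5 : |u (pw c) L {0} - ν * L| ≤ ε / 6 * L := by
      have h6 := (hL2 L hL2').le
      have e1 : u (pw c) L {0} - ν * L = (u (pw c) L {0} / (L : ℝ) - ν) * L := by
        field_simp
      rw [e1, abs_mul, abs_of_pos hLr]
      exact mul_le_mul_of_nonneg_right h6 hLr.le
    have h7 : A + ε / 3 * (K ^ 2 + 1) ≤ ε / 6 * L := by
      have h8 : (A + ε / 3 * (K ^ 2 + 1)) * 6 / ε < L :=
        lt_of_lt_of_le hL3 (by exact_mod_cast hL3')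
      rw [div_lt_iff₀ hε] at h8
      linarith
    have h9 : ε / 3 * (H θ s ^ 2 + 1 ^ 2) ≤ ε / 3 * (K ^ 2 + 1) :=
      mul_le_mul_of_nonneg_left (by linarith) (by positivity)
    have h10 := abs_le.1 h3
    have h11 := abs_le.1 h5
    rw [abs_le]
    constructor <;> nlinarith [h10.1, h10.2, h11.1, h11.2]

end K3

end Pool.Agent.Q298.DWT
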