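import Pool.Agent.Q298.DWT.Basic

/-!
# Depth-weighted trees, step K4: comparison with the pure chain at large depth
-/

open MeasureTheory Filter Topology

namespace Pool.Agent.Q298.DWT

variable {f : ℕ → ℝ} {c θ : ℝ}

/-- ratios over `j` steps -/
lemma ratio_tendsto (hc : 0 < c) (hf : EG f c) (j : ℕ) :
    Tendsto (fun k => f k / f (k + j)) atTop (𝓝 ((c ^ j)⁻¹)) := by
  induction j with
  | zero =>
    have : (fun k => f k / f (k + 0)) = fun _ => (1 : ℝ) := by
      funext k
      rw [add_zero, div_self (hf.1 k).ne']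
    rw [this]
    simp
  | succ j ih =>
    have h1 : Tendsto (fun k => f (k + j) / f (k + j + 1)) atTop (𝓝 c⁻¹) := by
      have h2 := (hf.2.inv₀ hc.ne')
      have h3 := (tendsto_add_atTop_iff_nat (f := fun k => (f (k + 1) / f k)⁻¹) j).2 h2
      refine h3.congr (fun k => ?_)
      rw [inv_div]
    have h4 := ih.mul h1
    have e1 : (c ^ j)⁻¹ * c⁻¹ = (c ^ (j + 1))⁻¹ := by rw [pow_succ, mul_inv]
    rw [e1] at h4
    refine h4.congr (fun k => ?_)
    have h5 := (hf.1 (k + j)).ne'
    rw [← add_assoc]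
    field_simp

/-- for large depth the weights seen from the top decay at least like `θ ^ (-j)` -/
lemma far_bound (hf : EG f c) (hθ : 1 < θ) (hθc : θ < c) :
    ∃ (C : ℝ) (k0 : ℕ), 1 ≤ C ∧ ∀ n, k0 ≤ n → ∀ j, j ≤ n → f (n - j) / f n ≤ C * (θ ^ j)⁻¹ := by
  have hθ0 : 0 < θ := by linarith
  have hev : ∀ᶠ k in atTop, θ < f (k + 1) / f k := hf.2.eventually_const_lt hθc
  obtain ⟨k0, hk0⟩ := eventually_atTop.1 hev
  -- monotonicity of `g k = f k / θ ^ k` from `k0` on
  set g : ℕ → ℝ := fun k => f k / θ ^ k with hg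
  have hgpos : ∀ k, 0 < g k := fun k => div_pos (hf.1 k) (by positivity)
  have hstep : ∀ k, k0 ≤ k → g k ≤ g (k + 1) := by
    intro k hk
    have h1 := hk0 k hk
    rw [lt_div_iff₀ (hf.1 k)] at h1
    rw [hg]
    simp only
    rw [div_le_div_iff₀ (by positivity) (by positivity), pow_succ]
    have : (0 : ℝ) < θ ^ k := by positivity
    nlinarith
  have hmono : ∀ k i, k0 ≤ k → g k ≤ g (k + i) := by
    intro k i hk
    induction i with
    | zero => simp
    | succ i ih => exact ih.trans (hstep (k + i) (by omega))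
  set C : ℝ := 1 + ∑ i ∈ Finset.range k0, g i / g k0 with hC
  have hsum0 : 0 ≤ ∑ i ∈ Finset.range k0, g i / g k0 :=
    Finset.sum_nonneg (fun i _ => (div_pos (hgpos i) (hgpos k0)).le)
  refine ⟨C, k0, by linarith, ?_⟩
  intro n hn j hj
  have hgn : g (n - j) ≤ C * g n := by
    by_cases h : k0 ≤ n - j
    · have h1 := hmono (n - j) j h
      rw [Nat.sub_add_cancel hj] at h1
      have h2 := hgpos n
      nlinarith
    · have h1 : g (n - j) / g k0 ≤ ∑ i ∈ Finset.range k0, g i / g k0 :=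
        Finset.single_le_sum (f := fun i => g i / g k0)
          (fun i _ => (div_pos (hgpos i) (hgpos k0)).le) (Finset.mem_range.2 (by omega))
      have h2 : g k0 ≤ g n := by
        have := hmono k0 (n - k0) le_rfl
        rwa [Nat.add_sub_cancel' hn] at this
      have h3 : g (n - j) / g k0 ≤ C := by linarith
      rw [div_le_iff₀ (hgpos k0)] at h3
      exact h3.trans (mul_le_mul_of_nonneg_left h2 (by linarith))
  rw [hg] at hgn
  simp only at hgn
  have hfn := hf.1 n
  have e1 : θ ^ n = θ ^ (n - j) * θ ^ j := by rw [← pow_add, Nat.sub_add_cancel hj]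
  rw [e1, div_le_iff₀ (by positivity)] at hgn
  rw [div_le_iff₀ hfn]
  have h1 : (0 : ℝ) < θ ^ (n - j) := by positivity
  have h2 : (0 : ℝ) < θ ^ j := by positivity
  calc f (n - j) ≤ C * (f n / (θ ^ (n - j) * θ ^ j)) * θ ^ (n - j) := hgn
    _ = C * (θ ^ j)⁻¹ * f n := by field_simp

/-- uniform comparison of the weights seen from the top -/
lemma weights_close (hf : EG f c) (hθ : 1 < θ) (hθc : θ < c) {e : ℝ} (he : 0 < e) :
    ∃ n0 : ℕ, ∀ n, n0 ≤ n → ∀ j, j ≤ n → |f (n - j) / f n - (c ^ j)⁻¹| ≤ e * (θ ^ j)⁻¹ := by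
  have hθ0 : 0 < θ := by linarith
  have hc0 : 0 < c := by linarith
  set θ' : ℝ := (θ + c) / 2 with hθ'
  have h1 : θ < θ' := by rw [hθ']; linarith
  have h2 : θ' < c := by rw [hθ']; linarith
  have hθ'0 : 0 < θ' := by linarith
  obtain ⟨C, k0, hC, hfar⟩ := far_bound hf (by linarith : 1 < θ') h2
  -- choice of `J`
  have hq : θ / θ' < 1 := by rw [div_lt_one hθ'0]; exact h1
  obtain ⟨J, hJ⟩ := exists_pow_lt_of_lt_one (show 0 < e / C by positivity) hq
  have hfarJ : ∀ j, J ≤ j → C * (θ' ^ j)⁻¹ ≤ e * (θ ^ j)⁻¹ := by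
    intro j hj
    have h3 : (θ / θ') ^ j ≤ (θ / θ') ^ J :=
      pow_le_pow_of_le_one (by positivity) hq.le hj
    have h4 : (θ / θ') ^ j ≤ e / C := h3.trans hJ.le
    rw [div_pow, div_le_div_iff₀ (by positivity) (by positivity)] at h4
    rw [← div_eq_mul_inv, ← div_eq_mul_inv, div_le_div_iff₀ (by positivity) (by positivity)]
    linarith
  -- the finitely many near levels
  have hnear : ∀ᶠ k in atTop, ∀ j ∈ Finset.range J,
      |f k / f (k + j) - (c ^ j)⁻¹| < e * (θ ^ J)⁻¹ := by
    rw [Finset.eventually_all]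
    intro j _
    have h3 := Metric.tendsto_nhds.1 (ratio_tendsto hc0 hf j) (e * (θ ^ J)⁻¹) (by positivity)
    simpa [Real.dist_eq] using h3
  obtain ⟨k1, hk1⟩ := eventually_atTop.1 hnear
  refine ⟨k0 + k1 + J, ?_⟩
  intro n hn j hj
  by_cases hjJ : j < J
  · have h3 := (hk1 (n - j) (by omega) j (Finset.mem_range.2 hjJ)).le
    rw [Nat.sub_add_cancel hj] at h3
    refine h3.trans (mul_le_mul_of_nonneg_left ?_ he.le)
    exact inv_anti₀ (by positivity) (pow_le_pow_right₀ hθ.le hjJ.le)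
  · push Not at hjJ
    have h3 := hfar n (by omega) j hj
    have h4 : (c ^ j)⁻¹ ≤ C * (θ' ^ j)⁻¹ := by
      have h5 : (c ^ j)⁻¹ ≤ (θ' ^ j)⁻¹ :=
        inv_anti₀ (by positivity) (pow_le_pow_left₀ hθ'0.le h2.le j)
      have h6 : 0 < (θ' ^ j)⁻¹ := by positivity
      nlinarith
    have h5 := hfarJ j hjJ
    have h6 : 0 ≤ f (n - j) / f n := (div_pos (hf.1 _) (hf.1 _)).le
    have h7 : 0 ≤ (c ^ j)⁻¹ := by positivity
    rw [abs_le]
    constructor <;> linarith

lemma weights_close' (hf : EG f c) (hθ : 1 < θ) (hθc : θ < c) {e : ℝ} (he : 0 < e) :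
    ∃ n0 : ℕ, ∀ s : Multiset ℕ, n0 ≤ D s → ∀ d ∈ s,
      |f d / f (D s) - pw c d / pw c (D s)| ≤ e * (θ ^ d / θ ^ D s) := by
  have hθ0 : 0 < θ := by linarith
  have hc0 : 0 < c := by linarith
  obtain ⟨n0, hn0⟩ := weights_close hf hθ hθc he
  refine ⟨n0, ?_⟩
  intro s hs d hd
  have hdD := le_D hd
  have h := hn0 (D s) hs (D s - d) (by omega)
  have e1 : D s - (D s - d) = d := by omega
  rw [e1] at h
  have e2 : ∀ x : ℝ, 0 < x → x ^ d / x ^ D s = (x ^ (D s - d))⁻¹ := by
    intro x hx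
    have : x ^ D s = x ^ d * x ^ (D s - d) := by rw [← pow_add, Nat.add_sub_cancel' hdD]
    rw [this]
    field_simp
  unfold pw
  rw [e2 c hc0, e2 θ hθ0]
  exact h

/-- comparison of the one-step averages -/
lemma avg_close (hf : EG f c) (hθ : 1 < θ) (hθc : θ < c) (s : Multiset ℕ) (hs : s ≠ 0)
    {e K B : ℝ} (he : 0 < e) (hB : 0 ≤ B) (hH : H θ s ≤ K)
    (hclose : ∀ d ∈ s, |f d / f (D s) - pw c d / pw c (D s)| ≤ e * (θ ^ d / θ ^ D s))
    (G : ℕ → ℝ) (hG : ∀ d ∈ s, |G d| ≤ B) :
    |(s.map (fun d => f d * G d)).sum / Z f s - (s.map (fun d => pw c d * G d)).sum / Z (pw c) s|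
      ≤ 2 * e * K * B := by
  have hθ0 : 0 < θ := by linarith
  have hc0 : 0 < c := by linarith
  have hp : ∀ k, 0 < pw c k := pw_pos hc0
  have hfD := hf.1 (D s)
  have hcD := hp (D s)
  set rf : ℕ → ℝ := fun d => f d / f (D s) with hrf
  set rc : ℕ → ℝ := fun d => pw c d / pw c (D s) with hrc
  have hrf0 : ∀ d, 0 < rf d := fun d => div_pos (hf.1 d) hfD
  have hrc0 : ∀ d, 0 < rc d := fun d => div_pos (hp d) hcD
  set Rf : ℝ := (s.map rf).sum with hRf
  set Rc : ℝ := (s.map rc).sum with hRc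
  have hRf1 : 1 ≤ Rf := by
    have h1 := le_Z (f := rf) hrf0 (D_mem hs)
    have h2 : rf (D s) = 1 := div_self hfD.ne'
    rw [h2] at h1
    exact h1
  have hRc1 : 1 ≤ Rc := by
    have h1 := le_Z (f := rc) hrc0 (D_mem hs)
    have h2 : rc (D s) = 1 := div_self hcD.ne'
    rw [h2] at h1
    exact h1
  have hRf0 : 0 < Rf := by linarith
  have hRc0 : 0 < Rc := by linarith
  set E : ℝ := (s.map (fun d => |rf d - rc d|)).sum with hE
  have hE1 : E ≤ e * K := by
    calc E ≤ (s.map (fun d => e * (θ ^ d / θ ^ D s))).sum := msum_le hclose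
      _ = e * H θ s := by rw [msum_mul_left, ← H_eq_sum]
      _ ≤ e * K := mul_le_mul_of_nonneg_left hH he.le
  have hE0 : 0 ≤ E := msum_nonneg (fun d _ => abs_nonneg _)
  have hRR : |Rf - Rc| ≤ E := by
    rw [hRf, hRc, ← msum_sub]
    exact abs_msum_le _ _
  -- rewrite the averages
  have ef : (s.map (fun d => f d * G d)).sum / Z f s = (s.map (fun d => rf d * G d)).sum / Rf := by
    have h1 : (s.map (fun d => rf d * G d)).sum = (s.map (fun d => f d * G d)).sum / f (D s) := by
      rw [div_eq_mul_inv, ← msum_mul_right]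
      exact msum_congr (fun d _ => by rw [hrf]; simp only; ring)
    have h2 : Rf = Z f s / f (D s) := by
      rw [hRf, div_eq_mul_inv]
      unfold Z
      rw [← msum_mul_right]
      exact msum_congr (fun d _ => by rw [hrf]; simp only; ring)
    rw [h1, h2]
    have := Z_pos hf.1 hs
    field_simp
  have ec : (s.map (fun d => pw c d * G d)).sum / Z (pw c) s
      = (s.map (fun d => rc d * G d)).sum / Rc := by
    have h1 : (s.map (fun d => rc d * G d)).sum
        = (s.map (fun d => pw c d * G d)).sum / pw c (D s) := by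
      rw [div_eq_mul_inv, ← msum_mul_right]
      exact msum_congr (fun d _ => by rw [hrc]; simp only; ring)
    have h2 : Rc = Z (pw c) s / pw c (D s) := by
      rw [hRc, div_eq_mul_inv]
      unfold Z
      rw [← msum_mul_right]
      exact msum_congr (fun d _ => by rw [hrc]; simp only; ring)
    rw [h1, h2]
    have := Z_pos hp hs
    field_simp
  rw [ef, ec]
  set Sf := (s.map (fun d => rf d * G d)).sum with hSf
  set Sc := (s.map (fun d => rc d * G d)).sum with hSc
  have hS1 : |Sf - Sc| ≤ B * E := by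
    rw [hSf, hSc, ← msum_sub]
    calc |(s.map (fun d => rf d * G d - rc d * G d)).sum|
        ≤ (s.map (fun d => |rf d * G d - rc d * G d|)).sum := abs_msum_le _ _
      _ ≤ (s.map (fun d => B * |rf d - rc d|)).sum := by
          refine msum_le (fun d hd => ?_)
          have : rf d * G d - rc d * G d = (rf d - rc d) * G d := by ring
          rw [this, abs_mul, mul_comm]
          exact mul_le_mul_of_nonneg_right (hG d hd) (abs_nonneg _)
      _ = B * E := by rw [msum_mul_left]
  have hS2 : |Sc| ≤ B * Rc := by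
    rw [hSc]
    calc |(s.map (fun d => rc d * G d)).sum| ≤ (s.map (fun d => |rc d * G d|)).sum :=
          abs_msum_le _ _
      _ ≤ (s.map (fun d => B * rc d)).sum := by
          refine msum_le (fun d hd => ?_)
          rw [abs_mul, abs_of_pos (hrc0 d), mul_comm]
          exact mul_le_mul_of_nonneg_right (hG d hd) (hrc0 d).le
      _ = B * Rc := by rw [msum_mul_left]
  have hid : Sf / Rf - Sc / Rc = (Sf - Sc) / Rf + Sc / Rc * ((Rc - Rf) / Rf) := by
    field_simp
    ring
  rw [hid]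
  have h1 : |(Sf - Sc) / Rf| ≤ B * E := by
    rw [abs_div, abs_of_pos hRf0]
    exact (div_le_self (abs_nonneg _) hRf1).trans hS1
  have h2 : |Sc / Rc| ≤ B := by
    rw [abs_div, abs_of_pos hRc0, div_le_iff₀ hRc0]
    exact hS2
  have h3 : |(Rc - Rf) / Rf| ≤ E := by
    rw [abs_div, abs_of_pos hRf0, abs_sub_comm]
    exact (div_le_self (abs_nonneg _) hRf1).trans hRR
  have h4 : |Sc / Rc * ((Rc - Rf) / Rf)| ≤ B * E := by
    rw [abs_mul]
    exact mul_le_mul h2 h3 (abs_nonneg _) hB
  calc |(Sf - Sc) / Rf + Sc / Rc * ((Rc - Rf) / Rf)| ≤ B * E + B * E :=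
        (abs_add_le _ _).trans (add_le_add h1 h4)
    _ = 2 * B * E := by ring
    _ ≤ 2 * B * (e * K) := mul_le_mul_of_nonneg_left hE1 (by positivity)
    _ = 2 * e * K * B := by ring

theorem k4 : S_K4 := by
  intro f c hc hf θ hθ hθc K ε L
  have hθ0 : 0 < θ := by linarith
  have hc0 : 0 < c := by linarith
  have hp : ∀ k, 0 < pw c k := pw_pos hc0
  induction L generalizing K ε with
  | zero =>
    intro hε
    refine ⟨0, fun s _ _ _ => ?_⟩
    simp only [u_zero, sub_self, abs_zero]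
    exact hε.le
  | succ L ih =>
    intro hε
    obtain ⟨n1, hn1⟩ := ih (K + 1) (ε / 2) (by positivity)
    set K' : ℝ := |K| + 1 with hK'
    have hK'0 : 0 < K' := by positivity
    set e : ℝ := ε / (4 * K' * (L + 1)) with he
    have hepos : 0 < e := by positivity
    obtain ⟨n2, hn2⟩ := weights_close' hf hθ hθc hepos
    refine ⟨max n1 n2, ?_⟩
    intro s hs hDs hHs
    have hD1 : n1 ≤ D s := (le_max_left _ _).trans hDs
    have hD2 : n2 ≤ D s := (le_max_right _ _).trans hDs
    have hHK : H θ s ≤ K' := hHs.trans (by rw [hK']; have := le_abs_self K; linarith)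
    rw [u_succ hf.1 hs, u_succ hp hs]
    set G : ℕ → ℝ := fun d => Dr ((d + 1) ::ₘ s) - Dr s + u (pw c) L ((d + 1) ::ₘ s) with hG
    have hGb : ∀ d ∈ s, |G d| ≤ (L : ℝ) + 1 := by
      intro d hd
      have h1 := @Dr_le_step s d
      have h2 := Dr_step_le hd
      have h3 := u_nonneg hp L (s := (d + 1) ::ₘ s) (by simp)
      have h4 := u_le hp L (s := (d + 1) ::ₘ s) (by simp)
      rw [hG, abs_le]
      simp only
      constructor <;> linarith
    have h1 := avg_close hf hθ hθc s hs hepos (by positivity : (0 : ℝ) ≤ (L : ℝ) + 1) hHK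
      (hn2 s hD2) G hGb
    have h2 : 2 * e * K' * ((L : ℝ) + 1) = ε / 2 := by
      rw [he]
      field_simp
      ring
    rw [h2] at h1
    have e1 : (s.map (fun d => pw c d * G d)).sum / Z (pw c) s
        = P (pw c) (fun t => Dr t - Dr s + u (pw c) L t) s := rfl
    have e2 : (s.map (fun d => f d * G d)).sum / Z f s
        = P f (fun t => Dr t - Dr s + u (pw c) L t) s := rfl
    rw [e1, e2] at h1
    have h3 : |P f (fun t => Dr t - Dr s + u f L t) s
        - P f (fun t => Dr t - Dr s + u (pw c) L t) s| ≤ ε / 2 := by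
      rw [← P_sub]
      refine (abs_P_le hf.1 _ _).trans ?_
      refine P_le_of_le hf.1 hs (fun d hd => ?_)
      have h4 := hn1 ((d + 1) ::ₘ s) (by simp) (hD1.trans D_le_step)
        ((H_step_le hθ hd).trans (by linarith))
      have e3 : Dr ((d + 1) ::ₘ s) - Dr s + u f L ((d + 1) ::ₘ s)
          - (Dr ((d + 1) ::ₘ s) - Dr s + u (pw c) L ((d + 1) ::ₘ s))
          = u f L ((d + 1) ::ₘ s) - u (pw c) L ((d + 1) ::ₘ s) := by ring
      rw [e3]
      exact h4
    have h5 := abs_le.1 h1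
    have h6 := abs_le.1 h3
    rw [abs_le]
    constructor <;> linarith [h5.1, h5.2, h6.1, h6.2]

end Pool.Agent.Q298.DWT
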