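import Pool.Agent.Q298.DWT.Basic

/-!
# Depth-weighted trees, step K5: the law of large numbers on the path level
-/

open MeasureTheory Filter Topology

namespace Pool.Agent.Q298.DWT

/-! ### depths and profiles -/

lemma dep_eq (p : ℕ → ℕ) (n : ℕ) :
    dep p n = if 1 ≤ p n ∧ p n < n then dep p (p n) + 1 else 0 := by
  rw [dep]
  by_cases h : 1 ≤ p n ∧ p n < n
  · simp [h]
  · simp [h]

lemma dep_zero (p : ℕ → ℕ) : dep p 0 = 0 := by
  rw [dep_eq, if_neg (by omega)]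

lemma dep_one (p : ℕ → ℕ) : dep p 1 = 0 := by
  rw [dep_eq, if_neg (by omega)]

lemma dep_congr {p q : ℕ → ℕ} (n : ℕ) (h : ∀ k ∈ Finset.Icc 2 n, p k = q k) :
    dep p n = dep q n := by
  induction n using Nat.strong_induction_on with
  | _ n ih =>
    by_cases hn : n ≤ 1
    · interval_cases n
      · rw [dep_zero, dep_zero]
      · rw [dep_one, dep_one]
    · have hpn : p n = q n := h n (Finset.mem_Icc.2 ⟨by omega, le_rfl⟩)
      rw [dep_eq p, dep_eq q, ← hpn]
      by_cases h2 : 1 ≤ p n ∧ p n < n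
      · rw [if_pos h2, if_pos h2, ih (p n) h2.2]
        intro k hk
        rw [Finset.mem_Icc] at hk
        exact h k (Finset.mem_Icc.2 ⟨hk.1, by omega⟩)
      · rw [if_neg h2, if_neg h2]

lemma prof_one (p : ℕ → ℕ) : prof p 1 = {0} := by
  unfold prof
  rw [Finset.Icc_self]
  simp [dep_one]

lemma prof_succ (p : ℕ → ℕ) (n : ℕ) : prof p (n + 1) = dep p (n + 1) ::ₘ prof p n := by
  unfold prof
  have h : Finset.Icc 1 (n + 1) = insert (n + 1) (Finset.Icc 1 n) := by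
    ext k
    simp only [Finset.mem_insert, Finset.mem_Icc]
    omega
  have h2 : n + 1 ∉ Finset.Icc 1 n := by
    simp
  rw [h, Finset.insert_val_of_notMem h2, Multiset.map_cons]

lemma prof_congr {p q : ℕ → ℕ} (n : ℕ) (h : ∀ k ∈ Finset.Icc 2 n, p k = q k) :
    prof p n = prof q n := by
  unfold prof
  refine Multiset.map_congr rfl (fun i hi => ?_)
  have hi' : i ∈ Finset.Icc 1 n := hi
  rw [Finset.mem_Icc] at hi'
  refine dep_congr i (fun k hk => ?_)
  rw [Finset.mem_Icc] at hk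
  exact h k (Finset.mem_Icc.2 ⟨hk.1, by omega⟩)

lemma prof_ne_zero (p : ℕ → ℕ) {n : ℕ} (hn : 1 ≤ n) : prof p n ≠ 0 := by
  obtain ⟨m, rfl⟩ := Nat.exists_eq_add_of_le' hn
  rw [prof_succ]
  exact Multiset.cons_ne_zero

lemma dep_update (a : ℕ → ℕ) (n i : ℕ) (hi : i ∈ Finset.Icc 1 n) :
    dep (Function.update a (n + 1) i) (n + 1) = dep a i + 1 := by
  rw [Finset.mem_Icc] at hi
  rw [dep_eq, Function.update_self, if_pos ⟨hi.1, by omega⟩]
  congr 1
  refine dep_congr i (fun k hk => ?_)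
  rw [Finset.mem_Icc] at hk
  exact Function.update_of_ne (by omega) _ _

lemma prof_update (a : ℕ → ℕ) (n i : ℕ) (hi : i ∈ Finset.Icc 1 n) :
    prof (Function.update a (n + 1) i) (n + 1) = (dep a i + 1) ::ₘ prof a n := by
  rw [prof_succ, dep_update a n i hi]
  congr 1
  refine prof_congr n (fun k hk => ?_)
  rw [Finset.mem_Icc] at hk
  exact Function.update_of_ne (by omega) _ _

lemma Z_prof (f : ℕ → ℝ) (a : ℕ → ℕ) (n : ℕ) :
    Z f (prof a n) = ∑ j ∈ Finset.Icc 1 n, f (dep a j) := by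
  unfold Z prof
  rw [Multiset.map_map]
  rfl

lemma P_prof (f : ℕ → ℝ) (φ : Multiset ℕ → ℝ) (a : ℕ → ℕ) (n : ℕ) :
    P f φ (prof a n) = ∑ i ∈ Finset.Icc 1 n,
      f (dep a i) / (∑ j ∈ Finset.Icc 1 n, f (dep a j)) * φ ((dep a i + 1) ::ₘ prof a n) := by
  unfold P
  rw [Z_prof, div_eq_mul_inv, ← msum_mul_right]
  have : (Multiset.map (fun d => f d * φ ((d + 1) ::ₘ prof a n) *
      (∑ j ∈ Finset.Icc 1 n, f (dep a j))⁻¹) (prof a n)).sum
      = ∑ i ∈ Finset.Icc 1 n, f (dep a i) * φ ((dep a i + 1) ::ₘ prof a n) *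
      (∑ j ∈ Finset.Icc 1 n, f (dep a j))⁻¹ := by
    conv_lhs => rw [prof, Multiset.map_map]
    rfl
  rw [this]
  refine Finset.sum_congr rfl (fun i _ => ?_)
  rw [div_eq_mul_inv]
  ring

/-! ### the finitely many histories -/

section path

variable {f : ℕ → ℝ} {Ω : Type} [MeasurableSpace Ω] {μ : Measure Ω} [IsProbabilityMeasure μ]
  {X : ℕ → Ω → ℕ}

/-- the event that the history up to `n` is `a` -/
def ev (X : ℕ → Ω → ℕ) (n : ℕ) (a : ℕ → ℕ) : Set Ω := {ω | ∀ k ∈ Finset.Icc 2 n, X k ω = a k}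

lemma ev_meas (hX : ∀ n, Measurable (X n)) (n : ℕ) (a : ℕ → ℕ) : MeasurableSet (ev X n a) := by
  have : ev X n a = ⋂ k ∈ Finset.Icc 2 n, (X k) ⁻¹' {a k} := by
    ext ω
    simp [ev]
  rw [this]
  exact Finset.measurableSet_biInter _ (fun k _ => hX k (measurableSet_singleton _))

/-- extension of a finite history -/
def ext (n : ℕ) (g : ∀ k ∈ Finset.Icc 2 n, ℕ) (k : ℕ) : ℕ :=
  if h : k ∈ Finset.Icc 2 n then g k h else 0

/-- the admissible histories -/
def hist (n : ℕ) : Finset (∀ k ∈ Finset.Icc 2 n, ℕ) :=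
  (Finset.Icc 2 n).pi (fun k => Finset.Icc 1 (k - 1))

omit [MeasurableSpace Ω] in
lemma mem_ev_ext {n : ℕ} {g : ∀ k ∈ Finset.Icc 2 n, ℕ} {ω : Ω} :
    ω ∈ ev X n (ext n g) ↔ g = fun k _ => X k ω := by
  constructor
  · intro h
    funext k hk
    have := h k hk
    rw [this]
    simp [ext, hk]
  · intro h k hk
    rw [h]
    simp [ext, hk]

/-- a function of the history depends only on the coordinates in `Icc 2 n` -/
def Dep (n : ℕ) (G : (ℕ → ℕ) → ℝ) : Prop :=
  ∀ a b : ℕ → ℕ, (∀ k ∈ Finset.Icc 2 n, a k = b k) → G a = G b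

lemma Dep.mono {n m : ℕ} (h : n ≤ m) {G : (ℕ → ℕ) → ℝ} (hG : Dep n G) : Dep m G := by
  intro a b hab
  refine hG a b (fun k hk => hab k ?_)
  rw [Finset.mem_Icc] at hk ⊢
  omega

lemma Dep.add {n : ℕ} {G H : (ℕ → ℕ) → ℝ} (hG : Dep n G) (hH : Dep n H) :
    Dep n (fun a => G a + H a) := fun a b hab => by
  simp only [hG a b hab, hH a b hab]

lemma Dep.mul {n : ℕ} {G H : (ℕ → ℕ) → ℝ} (hG : Dep n G) (hH : Dep n H) :
    Dep n (fun a => G a * H a) := fun a b hab => by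
  simp only [hG a b hab, hH a b hab]

lemma Dep.sub {n : ℕ} {G H : (ℕ → ℕ) → ℝ} (hG : Dep n G) (hH : Dep n H) :
    Dep n (fun a => G a - H a) := fun a b hab => by
  simp only [hG a b hab, hH a b hab]

lemma Dep_prof {n : ℕ} (ψ : Multiset ℕ → ℝ) : Dep n (fun a => ψ (prof a n)) := by
  intro a b hab
  simp only [prof_congr n hab]

lemma Dep_sum {n : ℕ} {ι : Type} (s : Finset ι) (G : ι → (ℕ → ℕ) → ℝ)
    (h : ∀ i ∈ s, Dep n (G i)) : Dep n (fun a => ∑ i ∈ s, G i a) := by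
  intro a b hab
  exact Finset.sum_congr rfl (fun i hi => h i hi a b hab)

/-- the path of parents -/
def pth (X : ℕ → Ω → ℕ) (ω : Ω) : ℕ → ℕ := fun k => X k ω

/-- given the history, the next parent is in `Icc 1 n` -/
lemma next_mem (hf : ∀ k, 0 < f k) (hX : IsDWT f μ X) (n : ℕ) (hn : 1 ≤ n) (a : ℕ → ℕ) :
    μ (ev X n a ∩ {ω | X (n + 1) ω ∉ Finset.Icc 1 n}) = 0 := by
  have hmeas := hX.1
  have h1 : ∀ i ∈ Finset.Icc 1 n, μ.real (ev X n a ∩ {ω | X (n + 1) ω = i}) =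
      μ.real (ev X n a) * (f (dep a i) / ∑ j ∈ Finset.Icc 1 n, f (dep a j)) := by
    intro i hi
    exact hX.2 n hn a i hi
  have hne : (Finset.Icc 1 n).Nonempty := ⟨1, Finset.mem_Icc.2 ⟨le_rfl, hn⟩⟩
  have hZ : 0 < ∑ j ∈ Finset.Icc 1 n, f (dep a j) := Finset.sum_pos (fun j _ => hf _) hne
  have h2 : ∑ i ∈ Finset.Icc 1 n, μ.real (ev X n a ∩ {ω | X (n + 1) ω = i})
      = μ.real (ev X n a) := by
    rw [Finset.sum_congr rfl h1, ← Finset.mul_sum, ← Finset.sum_div, div_self hZ.ne', mul_one]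
  have hms : ∀ i, MeasurableSet {ω | X (n + 1) ω = i} := fun i =>
    hmeas (n + 1) (measurableSet_singleton i)
  have h3 : μ.real (⋃ i ∈ Finset.Icc 1 n, (ev X n a ∩ {ω | X (n + 1) ω = i}))
      = ∑ i ∈ Finset.Icc 1 n, μ.real (ev X n a ∩ {ω | X (n + 1) ω = i}) := by
    rw [measureReal_biUnion_finset]
    · intro i _ j _ hij
      refine Set.disjoint_left.2 (fun ω h4 h5 => hij ?_)
      have h6 : X (n + 1) ω = i := h4.2
      have h7 : X (n + 1) ω = j := h5.2
      rw [← h6, ← h7]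
    · intro i _
      exact (ev_meas hmeas n a).inter (hms i)
  have h4 : (⋃ i ∈ Finset.Icc 1 n, (ev X n a ∩ {ω | X (n + 1) ω = i}))
      = ev X n a ∩ {ω | X (n + 1) ω ∈ Finset.Icc 1 n} := by
    ext ω
    simp only [Set.mem_iUnion, Set.mem_inter_iff, Set.mem_ofPred_eq]
    constructor
    · rintro ⟨i, hi, h5, h6⟩
      exact ⟨h5, by rw [h6]; exact hi⟩
    · rintro ⟨h5, h6⟩
      exact ⟨_, h6, h5, rfl⟩
  rw [h4, h2] at h3
  have hms2 : MeasurableSet {ω | X (n + 1) ω ∈ Finset.Icc 1 n} :=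
    hmeas (n + 1) (MeasurableSet.of_discrete (s := {i : ℕ | i ∈ Finset.Icc 1 n}))
  have h5 := measureReal_inter_add_sdiff (μ := μ) (s := ev X n a) hms2
  rw [h3] at h5
  have h6 : μ.real (ev X n a \ {ω | X (n + 1) ω ∈ Finset.Icc 1 n}) = 0 := by linarith
  have h7 : ev X n a \ {ω | X (n + 1) ω ∈ Finset.Icc 1 n}
      = ev X n a ∩ {ω | X (n + 1) ω ∉ Finset.Icc 1 n} := rfl
  rw [h7] at h6
  exact (measureReal_eq_zero_iff).1 h6

lemma ae_hist (hf : ∀ k, 0 < f k) (hX : IsDWT f μ X) (n : ℕ) (hn : 1 ≤ n) :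
    ∀ᵐ ω ∂μ, ∀ k ∈ Finset.Icc 2 n, X k ω ∈ Finset.Icc 1 (k - 1) := by
  induction n with
  | zero => exact Filter.Eventually.of_forall (fun ω k hk => by simp at hk)
  | succ n ih =>
    by_cases hn0 : n = 0
    · subst hn0
      exact Filter.Eventually.of_forall (fun ω k hk => by
        rw [Finset.mem_Icc] at hk
        omega)
    have hn1 : 1 ≤ n := by omega
    have h1 : ∀ᵐ ω ∂μ, ∀ g ∈ hist n, ω ∉ ev X n (ext n g) ∩ {ω | X (n + 1) ω ∉ Finset.Icc 1 n} := by
      rw [Filter.eventually_all_finset]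
      intro g _
      have := next_mem hf hX n hn1 (ext n g)
      exact measure_eq_zero_iff_ae_notMem.1 this
    filter_upwards [ih hn1, h1] with ω hω1 hω2 k hk
    rw [Finset.mem_Icc] at hk
    by_cases hkn : k ≤ n
    · exact hω1 k (Finset.mem_Icc.2 ⟨hk.1, hkn⟩)
    · have hk' : k = n + 1 := by omega
      subst hk'
      have hg : (fun k (_ : k ∈ Finset.Icc 2 n) => X k ω) ∈ hist n := by
        unfold hist
        rw [Finset.mem_pi]
        exact hω1
      have h2 := hω2 _ hg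
      by_contra h3
      exact h2 ⟨mem_ev_ext.2 rfl, h3⟩

/-- representation of a function of the history -/
lemma repr_hist (hf : ∀ k, 0 < f k) (hX : IsDWT f μ X) (n : ℕ) (hn : 1 ≤ n)
    {G : (ℕ → ℕ) → ℝ} (hG : Dep n G) :
    (fun ω => G (pth X ω)) =ᵐ[μ] fun ω => ∑ g ∈ hist n,
      (ev X n (ext n g)).indicator (fun _ => G (ext n g)) ω := by
  classical
  filter_upwards [ae_hist hf hX n hn] with ω hω
  have hg : (fun k (_ : k ∈ Finset.Icc 2 n) => X k ω) ∈ hist n := by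
    unfold hist
    rw [Finset.mem_pi]
    exact hω
  rw [Finset.sum_eq_single_of_mem _ hg]
  · rw [Set.indicator_of_mem (mem_ev_ext.2 rfl)]
    refine hG _ _ (fun k hk => ?_)
    simp [ext, hk, pth]
  · intro g _ hne
    refine Set.indicator_of_notMem (fun h => hne (mem_ev_ext.1 h)) _

lemma integrable_hist (hf : ∀ k, 0 < f k) (hX : IsDWT f μ X) (n : ℕ) (hn : 1 ≤ n)
    {G : (ℕ → ℕ) → ℝ} (hG : Dep n G) : Integrable (fun ω => G (pth X ω)) μ := by
  refine (integrable_congr (repr_hist hf hX n hn hG)).2 ?_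
  refine integrable_finsetSum _ (fun g _ => ?_)
  exact (integrable_const _).indicator (ev_meas hX.1 n _)

lemma integral_hist (hf : ∀ k, 0 < f k) (hX : IsDWT f μ X) (n : ℕ) (hn : 1 ≤ n)
    {G : (ℕ → ℕ) → ℝ} (hG : Dep n G) :
    ∫ ω, G (pth X ω) ∂μ = ∑ g ∈ hist n, μ.real (ev X n (ext n g)) * G (ext n g) := by
  rw [integral_congr_ae (repr_hist hf hX n hn hG), integral_finsetSum]
  · refine Finset.sum_congr rfl (fun g _ => ?_)
    rw [integral_indicator_const _ (ev_meas hX.1 n _), smul_eq_mul]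
  · intro g _
    exact (integrable_const _).indicator (ev_meas hX.1 n _)

/-- the one-step formula -/
lemma one_step (hf : ∀ k, 0 < f k) (hX : IsDWT f μ X) (n : ℕ) (hn : 1 ≤ n)
    {G : (ℕ → ℕ) → ℝ} (hG : Dep (n + 1) G) :
    ∫ ω, G (pth X ω) ∂μ = ∫ ω, (∑ i ∈ Finset.Icc 1 n,
      f (dep (pth X ω) i) / (∑ j ∈ Finset.Icc 1 n, f (dep (pth X ω) j)) *
        G (Function.update (pth X ω) (n + 1) i)) ∂μ := by
  classical
  set TG : (ℕ → ℕ) → ℝ := fun a => ∑ i ∈ Finset.Icc 1 n,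
      f (dep a i) / (∑ j ∈ Finset.Icc 1 n, f (dep a j)) * G (Function.update a (n + 1) i) with hTG
  have hdep : ∀ a b : ℕ → ℕ, (∀ k ∈ Finset.Icc 2 n, a k = b k) → ∀ i ∈ Finset.Icc 1 n,
      dep a i = dep b i := by
    intro a b hab i hi
    rw [Finset.mem_Icc] at hi
    refine dep_congr i (fun k hk => hab k ?_)
    rw [Finset.mem_Icc] at hk ⊢
    omega
  have hTGdep : Dep n TG := by
    intro a b hab
    rw [hTG]
    simp only
    have h1 : ∑ j ∈ Finset.Icc 1 n, f (dep a j) = ∑ j ∈ Finset.Icc 1 n, f (dep b j) :=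
      Finset.sum_congr rfl (fun j hj => by rw [hdep a b hab j hj])
    refine Finset.sum_congr rfl (fun i hi => ?_)
    rw [h1, hdep a b hab i hi]
    congr 1
    refine hG _ _ (fun k hk => ?_)
    rw [Finset.mem_Icc] at hk
    by_cases hkn : k = n + 1
    · subst hkn
      rw [Function.update_self, Function.update_self]
    · rw [Function.update_of_ne hkn, Function.update_of_ne hkn]
      exact hab k (Finset.mem_Icc.2 ⟨hk.1, by omega⟩)
  have hR := integral_hist hf hX n hn hTGdep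
  have e1 : (fun ω => TG (pth X ω)) = fun ω => (∑ i ∈ Finset.Icc 1 n,
      f (dep (pth X ω) i) / (∑ j ∈ Finset.Icc 1 n, f (dep (pth X ω) j)) *
        G (Function.update (pth X ω) (n + 1) i)) := rfl
  rw [← e1, hR]
  -- the left side
  have hms : ∀ i, MeasurableSet {ω | X (n + 1) ω = i} := fun i =>
    hX.1 (n + 1) (measurableSet_singleton i)
  have hrep : (fun ω => G (pth X ω)) =ᵐ[μ] fun ω => ∑ g ∈ hist n, ∑ i ∈ Finset.Icc 1 n,
      (ev X n (ext n g) ∩ {ω | X (n + 1) ω = i}).indicator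
        (fun _ => G (Function.update (ext n g) (n + 1) i)) ω := by
    filter_upwards [ae_hist hf hX (n + 1) (by omega)] with ω hω
    have hg : (fun k (_ : k ∈ Finset.Icc 2 n) => X k ω) ∈ hist n := by
      unfold hist
      rw [Finset.mem_pi]
      intro k hk
      refine hω k ?_
      rw [Finset.mem_Icc] at hk ⊢
      omega
    have hi : X (n + 1) ω ∈ Finset.Icc 1 n := by
      have := hω (n + 1) (Finset.mem_Icc.2 ⟨by omega, le_rfl⟩)
      simpa using this
    rw [Finset.sum_eq_single_of_mem _ hg, Finset.sum_eq_single_of_mem _ hi]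
    · have hmem : ω ∈ ev X n (ext n (fun k (_ : k ∈ Finset.Icc 2 n) => X k ω)) ∩
          {ω' | X (n + 1) ω' = X (n + 1) ω} := ⟨mem_ev_ext.2 rfl, rfl⟩
      rw [Set.indicator_of_mem hmem]
      refine hG _ _ (fun k hk => ?_)
      rw [Finset.mem_Icc] at hk
      by_cases hkn : k = n + 1
      · subst hkn
        rw [Function.update_self]
        rfl
      · rw [Function.update_of_ne hkn]
        have : k ∈ Finset.Icc 2 n := Finset.mem_Icc.2 ⟨hk.1, by omega⟩
        simp [ext, this, pth]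
    · intro i _ hne
      refine Set.indicator_of_notMem (fun h => hne ?_) _
      exact h.2.symm
    · intro g _ hne
      refine Finset.sum_eq_zero (fun i _ => ?_)
      refine Set.indicator_of_notMem (fun h => hne (mem_ev_ext.1 h.1)) _
  rw [integral_congr_ae hrep, integral_finsetSum]
  · refine Finset.sum_congr rfl (fun g _ => ?_)
    rw [integral_finsetSum]
    · rw [hTG]
      simp only
      rw [Finset.mul_sum]
      refine Finset.sum_congr rfl (fun i hi => ?_)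
      rw [integral_indicator_const _ ((ev_meas hX.1 n _).inter (hms i)), smul_eq_mul]
      have h2 : μ.real (ev X n (ext n g) ∩ {ω | X (n + 1) ω = i}) =
        μ.real (ev X n (ext n g)) * (f (dep (ext n g) i) /
          ∑ j ∈ Finset.Icc 1 n, f (dep (ext n g) j)) := hX.2 n hn (ext n g) i hi
      rw [h2]
      ring
    · intro i _
      exact (integrable_const _).indicator ((ev_meas hX.1 n _).inter (hms i))
  · intro g _
    refine integrable_finsetSum _ (fun i _ => ?_)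
    exact (integrable_const _).indicator ((ev_meas hX.1 n _).inter (hms i))

/-- Markov property for pairs of consecutive profiles -/
lemma markov (hf : ∀ k, 0 < f k) (hX : IsDWT f μ X) (n : ℕ) (hn : 1 ≤ n)
    {g : (ℕ → ℕ) → ℝ} (hg : Dep n g) (Φ : Multiset ℕ → Multiset ℕ → ℝ) :
    ∫ ω, g (pth X ω) * Φ (prof (pth X ω) n) (prof (pth X ω) (n + 1)) ∂μ
      = ∫ ω, g (pth X ω) * P f (Φ (prof (pth X ω) n)) (prof (pth X ω) n) ∂μ := by
  have hG : Dep (n + 1) (fun a => g a * Φ (prof a n) (prof a (n + 1))) := by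
    intro a b hab
    have hab' : ∀ k ∈ Finset.Icc 2 n, a k = b k := fun k hk => hab k (by
      rw [Finset.mem_Icc] at hk ⊢
      omega)
    simp only
    rw [hg a b hab', prof_congr n hab', prof_congr (n + 1) hab]
  rw [one_step hf hX n hn hG]
  refine integral_congr_ae (Filter.Eventually.of_forall (fun ω => ?_))
  simp only
  rw [P_prof, Finset.mul_sum]
  refine Finset.sum_congr rfl (fun i hi => ?_)
  have hupd : ∀ k ∈ Finset.Icc 2 n, Function.update (pth X ω) (n + 1) i k = pth X ω k := by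
    intro k hk
    rw [Finset.mem_Icc] at hk
    exact Function.update_of_ne (by omega) _ _
  rw [hg _ _ hupd, prof_congr n hupd, prof_update _ n i hi]
  ring

lemma markov' (hf : ∀ k, 0 < f k) (hX : IsDWT f μ X) (n : ℕ) (hn : 1 ≤ n)
    {g : (ℕ → ℕ) → ℝ} (hg : Dep n g) (φ : Multiset ℕ → ℝ) :
    ∫ ω, g (pth X ω) * φ (prof (pth X ω) (n + 1)) ∂μ
      = ∫ ω, g (pth X ω) * P f φ (prof (pth X ω) n) ∂μ :=
  markov hf hX n hn hg (fun _ => φ)

/-- the law of the profile -/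
lemma integral_prof (hf : ∀ k, 0 < f k) (hX : IsDWT f μ X) (n : ℕ) (ψ : Multiset ℕ → ℝ) :
    ∫ ω, ψ (prof (pth X ω) (n + 1)) ∂μ = ((P f)^[n]) ψ {0} := by
  induction n generalizing ψ with
  | zero =>
    have : ∀ ω, ψ (prof (pth X ω) (0 + 1)) = ψ {0} := by
      intro ω
      rw [zero_add, prof_one]
    simp_rw [this]
    simp
  | succ n ih =>
    have h := markov' hf hX (n + 1) (by omega) (g := fun _ => 1) (fun _ _ _ => rfl) ψ
    simp only [one_mul] at h
    rw [h, ih, iter_succ']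

/-- the martingale part -/
noncomputable def mart (f : ℕ → ℝ) (φ : Multiset ℕ → ℝ) (T : ℕ) (a : ℕ → ℕ) : ℝ :=
  ∑ n ∈ Finset.range T, (φ (prof a (n + 2)) - P f φ (prof a (n + 1)))

lemma mart_dep (f : ℕ → ℝ) (φ : Multiset ℕ → ℝ) (T : ℕ) : Dep (T + 1) (mart f φ T) := by
  refine Dep_sum _ _ (fun n hn => ?_)
  have hn' := Finset.mem_range.1 hn
  refine Dep.sub ?_ ?_
  · exact (Dep_prof (n := n + 2) φ).mono (by omega)
  · exact (Dep_prof (n := n + 1) (P f φ)).mono (by omega)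

lemma mart_sq (hf : ∀ k, 0 < f k) (hX : IsDWT f μ X) (φ : Multiset ℕ → ℝ) (T : ℕ) :
    ∫ ω, (mart f φ T (pth X ω)) ^ 2 ∂μ ≤ ∑ n ∈ Finset.range T,
      ((P f)^[n]) (fun s => P f (fun s' => (φ s' - φ s) ^ 2) s) {0} := by
  induction T with
  | zero => simp [mart]
  | succ T ih =>
    rw [Finset.sum_range_succ]
    set M : (ℕ → ℕ) → ℝ := mart f φ T with hM
    have hMdep : Dep (T + 1) M := mart_dep f φ T
    -- abbreviations for the functions of the path
    set φ0 : (ℕ → ℕ) → ℝ := fun a => φ (prof a (T + 1)) with hφ0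
    set φ1 : (ℕ → ℕ) → ℝ := fun a => φ (prof a (T + 2)) with hφ1
    set π0 : (ℕ → ℕ) → ℝ := fun a => P f φ (prof a (T + 1)) with hπ0
    have dφ0 : Dep (T + 1) φ0 := Dep_prof φ
    have dφ1 : Dep (T + 2) φ1 := Dep_prof φ
    have dπ0 : Dep (T + 1) π0 := Dep_prof (P f φ)
    have I : ∀ {G : (ℕ → ℕ) → ℝ}, Dep (T + 2) G → Integrable (fun ω => G (pth X ω)) μ :=
      fun hG => integrable_hist hf hX (T + 2) (by omega) hG
    have mM := hMdep.mono (by omega : T + 1 ≤ T + 2)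
    have m0 := dφ0.mono (by omega : T + 1 ≤ T + 2)
    have mp := dπ0.mono (by omega : T + 1 ≤ T + 2)
    -- Markov identities
    have k1 : ∫ ω, M (pth X ω) * φ1 (pth X ω) ∂μ = ∫ ω, M (pth X ω) * π0 (pth X ω) ∂μ :=
      markov' hf hX (T + 1) (by omega) hMdep φ
    have k2 : ∫ ω, π0 (pth X ω) * φ1 (pth X ω) ∂μ = ∫ ω, π0 (pth X ω) * π0 (pth X ω) ∂μ :=
      markov' hf hX (T + 1) (by omega) dπ0 φ
    have k3 : ∫ ω, φ0 (pth X ω) * φ1 (pth X ω) ∂μ = ∫ ω, φ0 (pth X ω) * π0 (pth X ω) ∂μ :=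
      markov' hf hX (T + 1) (by omega) dφ0 φ
    have k4 : ∫ ω, (φ1 (pth X ω) - φ0 (pth X ω)) ^ 2 ∂μ
        = ((P f)^[T]) (fun s => P f (fun s' => (φ s' - φ s) ^ 2) s) {0} := by
      have h := markov hf hX (T + 1) (by omega) (g := fun _ => 1) (fun _ _ _ => rfl)
        (fun s s' => (φ s' - φ s) ^ 2)
      simp only [one_mul] at h
      rw [← integral_prof hf hX T]
      exact h
    rw [← k4]
    -- expansions
    have e1 : ∀ ω, (mart f φ (T + 1) (pth X ω)) ^ 2
        = (M (pth X ω)) ^ 2 + 2 * (M (pth X ω) * φ1 (pth X ω)) - 2 * (M (pth X ω) * π0 (pth X ω))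
          + (φ1 (pth X ω) * φ1 (pth X ω) - 2 * (π0 (pth X ω) * φ1 (pth X ω))
          + π0 (pth X ω) * π0 (pth X ω)) := by
      intro ω
      have : mart f φ (T + 1) (pth X ω) = M (pth X ω) + (φ1 (pth X ω) - π0 (pth X ω)) := by
        rw [mart, Finset.sum_range_succ]
        rfl
      rw [this]
      ring
    have iMM : Integrable (fun ω => (M (pth X ω)) ^ 2) μ := by
      have := I (mM.mul mM)
      simpa [sq] using this
    have iM1 : Integrable (fun ω => M (pth X ω) * φ1 (pth X ω)) μ := I (mM.mul dφ1)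
    have iMp : Integrable (fun ω => M (pth X ω) * π0 (pth X ω)) μ := I (mM.mul mp)
    have i11 : Integrable (fun ω => φ1 (pth X ω) * φ1 (pth X ω)) μ := I (dφ1.mul dφ1)
    have ip1 : Integrable (fun ω => π0 (pth X ω) * φ1 (pth X ω)) μ := I (mp.mul dφ1)
    have ipp : Integrable (fun ω => π0 (pth X ω) * π0 (pth X ω)) μ := I (mp.mul mp)
    have i01 : Integrable (fun ω => φ0 (pth X ω) * φ1 (pth X ω)) μ := I (m0.mul dφ1)
    have i0p : Integrable (fun ω => φ0 (pth X ω) * π0 (pth X ω)) μ := I (m0.mul mp)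
    have i00 : Integrable (fun ω => φ0 (pth X ω) * φ0 (pth X ω)) μ := I (m0.mul m0)
    have hL : ∫ ω, (mart f φ (T + 1) (pth X ω)) ^ 2 ∂μ = ∫ ω, (M (pth X ω)) ^ 2 ∂μ
        + ∫ ω, φ1 (pth X ω) * φ1 (pth X ω) ∂μ - ∫ ω, π0 (pth X ω) * π0 (pth X ω) ∂μ := by
      simp_rw [e1]
      have j1 : Integrable (fun ω => 2 * (M (pth X ω) * φ1 (pth X ω))) μ := iM1.const_mul 2
      have j2 : Integrable (fun ω => 2 * (M (pth X ω) * π0 (pth X ω))) μ := iMp.const_mul 2
      have j3 : Integrable (fun ω => 2 * (π0 (pth X ω) * φ1 (pth X ω))) μ := ip1.const_mul 2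
      have j4 : Integrable (fun ω => (M (pth X ω)) ^ 2 + 2 * (M (pth X ω) * φ1 (pth X ω))) μ :=
        iMM.add j1
      have j5 : Integrable (fun ω => (M (pth X ω)) ^ 2 + 2 * (M (pth X ω) * φ1 (pth X ω))
          - 2 * (M (pth X ω) * π0 (pth X ω))) μ := j4.sub j2
      have j6 : Integrable (fun ω => φ1 (pth X ω) * φ1 (pth X ω)
          - 2 * (π0 (pth X ω) * φ1 (pth X ω))) μ := i11.sub j3
      have j7 : Integrable (fun ω => φ1 (pth X ω) * φ1 (pth X ω)
          - 2 * (π0 (pth X ω) * φ1 (pth X ω)) + π0 (pth X ω) * π0 (pth X ω)) μ := j6.add ipp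
      rw [integral_add j5 j7, integral_sub j4 j2, integral_add iMM j1,
        integral_add j6 ipp, integral_sub i11 j3,
        integral_const_mul, integral_const_mul, integral_const_mul, k1, k2]
      ring
    have e2 : ∀ ω, (φ1 (pth X ω) - φ0 (pth X ω)) ^ 2 = φ1 (pth X ω) * φ1 (pth X ω)
        - 2 * (φ0 (pth X ω) * φ1 (pth X ω)) + φ0 (pth X ω) * φ0 (pth X ω) := by
      intro ω
      ring
    have hR : ∫ ω, (φ1 (pth X ω) - φ0 (pth X ω)) ^ 2 ∂μ = ∫ ω, φ1 (pth X ω) * φ1 (pth X ω) ∂μ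
        - 2 * ∫ ω, φ0 (pth X ω) * π0 (pth X ω) ∂μ + ∫ ω, φ0 (pth X ω) * φ0 (pth X ω) ∂μ := by
      simp_rw [e2]
      have j1 : Integrable (fun ω => 2 * (φ0 (pth X ω) * φ1 (pth X ω))) μ := i01.const_mul 2
      have j2 : Integrable (fun ω => φ1 (pth X ω) * φ1 (pth X ω)
          - 2 * (φ0 (pth X ω) * φ1 (pth X ω))) μ := i11.sub j1
      rw [integral_add j2 i00, integral_sub i11 j1, integral_const_mul, k3]
    have hsq : 0 ≤ ∫ ω, (π0 (pth X ω) - φ0 (pth X ω)) ^ 2 ∂μ :=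
      integral_nonneg (fun ω => sq_nonneg _)
    have e3 : ∀ ω, (π0 (pth X ω) - φ0 (pth X ω)) ^ 2 = π0 (pth X ω) * π0 (pth X ω)
        - 2 * (φ0 (pth X ω) * π0 (pth X ω)) + φ0 (pth X ω) * φ0 (pth X ω) := by
      intro ω
      ring
    simp_rw [e3] at hsq
    have j1 : Integrable (fun ω => 2 * (φ0 (pth X ω) * π0 (pth X ω))) μ := i0p.const_mul 2
    have j2 : Integrable (fun ω => π0 (pth X ω) * π0 (pth X ω)
        - 2 * (φ0 (pth X ω) * π0 (pth X ω))) μ := ipp.sub j1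
    rw [integral_add j2 i00, integral_sub ipp j1, integral_const_mul] at hsq
    rw [hL, hR]
    linarith

lemma mart_eq (f : ℕ → ℝ) (φ : Multiset ℕ → ℝ) (T : ℕ) (a : ℕ → ℕ) :
    mart f φ T a = φ (prof a (T + 1)) - φ {0}
      - ∑ n ∈ Finset.range T, (P f φ (prof a (n + 1)) - φ (prof a (n + 1))) := by
  induction T with
  | zero => simp [mart, prof_one]
  | succ T ih =>
    rw [mart, Finset.sum_range_succ, Finset.sum_range_succ]
    rw [mart] at ih
    rw [ih]
    ring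

end path

theorem k5 : S_K5 := by
  intro f hf Ω _ μ _ X hX φ B hB
  -- bad events
  have hbad : ∀ ε : ℝ, 0 < ε → ∀ᵐ ω ∂μ, ∀ᶠ k : ℕ in atTop,
      |mart f φ (k ^ 2) (pth X ω)| < ε * (k : ℝ) ^ 2 := by
    intro ε hε
    have hP : ∀ k : ℕ, μ {ω | (ε * (k : ℝ) ^ 2) ^ 2 ≤ (mart f φ (k ^ 2) (pth X ω)) ^ 2}
        ≤ if k = 0 then 1 else ENNReal.ofReal (|B| / ε ^ 2 * (1 / (k : ℝ) ^ 2)) := by
      intro k
      split_ifs with hk
      · exact prob_le_one
      · have hkr : (0 : ℝ) < k := by exact_mod_cast Nat.pos_of_ne_zero hk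
        have hint : Integrable (fun ω => (mart f φ (k ^ 2) (pth X ω)) ^ 2) μ := by
          have := integrable_hist hf hX (k ^ 2 + 1) (by omega)
            ((mart_dep f φ (k ^ 2)).mul (mart_dep f φ (k ^ 2)))
          simpa [sq] using this
        have h1 := mul_meas_ge_le_integral_of_nonneg (μ := μ)
          (f := fun ω => (mart f φ (k ^ 2) (pth X ω)) ^ 2)
          (Filter.Eventually.of_forall (fun ω => sq_nonneg _)) hint ((ε * (k : ℝ) ^ 2) ^ 2)
        have h2 := (mart_sq hf hX φ (k ^ 2)).trans (hB (k ^ 2))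
        have h3 : (0 : ℝ) < (ε * (k : ℝ) ^ 2) ^ 2 := by positivity
        have h4 : μ.real {ω | (ε * (k : ℝ) ^ 2) ^ 2 ≤ (mart f φ (k ^ 2) (pth X ω)) ^ 2}
            ≤ |B| / ε ^ 2 * (1 / (k : ℝ) ^ 2) := by
          have h5 : (ε * (k : ℝ) ^ 2) ^ 2 *
              μ.real {ω | (ε * (k : ℝ) ^ 2) ^ 2 ≤ (mart f φ (k ^ 2) (pth X ω)) ^ 2}
              ≤ |B| * (k : ℝ) ^ 2 := by
            have h6 : B * ((k ^ 2 : ℕ) : ℝ) ≤ |B| * (k : ℝ) ^ 2 := by
              push_cast
              exact mul_le_mul_of_nonneg_right (le_abs_self B) (by positivity)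
            exact (h1.trans h2).trans h6
          have h7 : |B| / ε ^ 2 * (1 / (k : ℝ) ^ 2)
              = |B| * (k : ℝ) ^ 2 / (ε * (k : ℝ) ^ 2) ^ 2 := by
            field_simp
          rw [h7, le_div_iff₀ h3]
          linarith
        rw [measureReal_def] at h4
        exact (ENNReal.le_ofReal_iff_toReal_le (measure_ne_top _ _) (by positivity)).2 h4
    have hsum : ∑' k : ℕ, μ {ω | (ε * (k : ℝ) ^ 2) ^ 2 ≤ (mart f φ (k ^ 2) (pth X ω)) ^ 2} ≠ ⊤ := by
      refine ne_top_of_le_ne_top ?_ (ENNReal.tsum_le_tsum hP)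
      have hs : Summable (fun k : ℕ => |B| / ε ^ 2 * (1 / (k : ℝ) ^ 2)) :=
        (Real.summable_one_div_nat_pow.2 one_lt_two).mul_left _
      have h1 : ∑' k : ℕ, ENNReal.ofReal (|B| / ε ^ 2 * (1 / (k : ℝ) ^ 2)) ≠ ⊤ :=
        hs.tsum_ofReal_ne_top
      have h2 : (∑' k : ℕ, if k = 0 then (1 : ENNReal)
          else ENNReal.ofReal (|B| / ε ^ 2 * (1 / (k : ℝ) ^ 2)))
          ≤ (∑' k : ℕ, if k = 0 then (1 : ENNReal) else 0)
            + ∑' k : ℕ, ENNReal.ofReal (|B| / ε ^ 2 * (1 / (k : ℝ) ^ 2)) := by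
        rw [← ENNReal.tsum_add]
        refine ENNReal.tsum_le_tsum (fun k => ?_)
        split_ifs
        · exact le_self_add
        · simp
      refine ne_top_of_le_ne_top ?_ h2
      refine ENNReal.add_ne_top.2 ⟨?_, h1⟩
      rw [tsum_ite_eq]
      exact ENNReal.one_ne_top
    filter_upwards [ae_eventually_notMem hsum] with ω hω
    filter_upwards [hω] with k hk
    have h1 : (mart f φ (k ^ 2) (pth X ω)) ^ 2 < (ε * (k : ℝ) ^ 2) ^ 2 := by
      by_contra h
      exact hk (not_lt.1 h)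
    exact abs_lt_of_sq_lt_sq h1 (by positivity)
  have hall : ∀ᵐ ω ∂μ, ∀ j : ℕ, ∀ᶠ k : ℕ in atTop,
      |mart f φ (k ^ 2) (pth X ω)| < (1 / ((j : ℝ) + 1)) * (k : ℝ) ^ 2 := by
    rw [ae_all_iff]
    intro j
    exact hbad _ (by positivity)
  filter_upwards [hall] with ω hω
  rw [Metric.tendsto_nhds]
  intro ε hε
  obtain ⟨j, hj⟩ := exists_nat_one_div_lt hε
  filter_upwards [hω j, eventually_ge_atTop 1] with k hk hk1
  have hkr : (0 : ℝ) < k := by exact_mod_cast hk1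
  have e1 := mart_eq f φ (k ^ 2) (pth X ω)
  unfold pth at e1 hk
  rw [← e1, Real.dist_eq, sub_zero, abs_div, abs_of_pos (by positivity : (0 : ℝ) < (k : ℝ) ^ 2),
    div_lt_iff₀ (by positivity)]
  refine hk.trans ?_
  exact mul_lt_mul_of_pos_right hj (by positivity)

end Pool.Agent.Q298.DWT
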