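import Pool.Agent.Q298.DWT.K5

/-!
# Depth-weighted trees, step K6: existence of the process
-/

open MeasureTheory Filter Topology

namespace Pool.Agent.Q298.DWT

/-- the parents read off a list `[a n, ..., a 2]` -/
def par (l : List ℕ) (k : ℕ) : ℕ := l.getD (l.length + 1 - k) 0

/-- the list `[a (m + 1), ..., a 2]` -/
def Lst (a : ℕ → ℕ) : ℕ → List ℕ
  | 0 => []
  | m + 1 => a (m + 2) :: Lst a m

lemma Lst_length (a : ℕ → ℕ) (m : ℕ) : (Lst a m).length = m := by
  induction m with
  | zero => rfl
  | succ m ih => rw [Lst, List.length_cons, ih]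

lemma par_Lst (a : ℕ → ℕ) (m k : ℕ) (hk : k ∈ Finset.Icc 2 (m + 1)) : par (Lst a m) k = a k := by
  induction m with
  | zero =>
    rw [Finset.mem_Icc] at hk
    omega
  | succ m ih =>
    rw [Finset.mem_Icc] at hk
    unfold par
    rw [Lst_length, Lst]
    by_cases h : k = m + 2
    · subst h
      have : m + 1 + 1 - (m + 2) = 0 := by omega
      rw [this]
      rfl
    · have h2 : m + 1 + 1 - k = (m + 1 - k) + 1 := by omega
      rw [h2, List.getD_cons_succ]
      have h3 := ih (Finset.mem_Icc.2 ⟨hk.1, by omega⟩)
      unfold par at h3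
      rw [Lst_length] at h3
      exact h3

/-- the law of the next parent for the history `l` -/
noncomputable def nu (f : ℕ → ℝ) (l : List ℕ) : Measure ℕ :=
  ∑ i ∈ Finset.Icc 1 (l.length + 1), ENNReal.ofReal (f (dep (par l) i) /
    ∑ j ∈ Finset.Icc 1 (l.length + 1), f (dep (par l) j)) • Measure.dirac i

section

variable {f : ℕ → ℝ}

lemma sum_pos_hist (hf : ∀ k, 0 < f k) (l : List ℕ) :
    0 < ∑ j ∈ Finset.Icc 1 (l.length + 1), f (dep (par l) j) :=
  Finset.sum_pos (fun _ _ => hf _) ⟨1, Finset.mem_Icc.2 ⟨le_rfl, by omega⟩⟩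

lemma nu_prob (hf : ∀ k, 0 < f k) (l : List ℕ) : IsProbabilityMeasure (nu f l) := by
  constructor
  unfold nu
  have hS := sum_pos_hist hf l
  simp only [Measure.coe_finsetSum, Finset.sum_apply, Measure.smul_apply, measure_univ,
    smul_eq_mul, mul_one]
  rw [← ENNReal.ofReal_sum_of_nonneg (fun i _ => (div_pos (hf _) hS).le), ← Finset.sum_div,
    div_self hS.ne', ENNReal.ofReal_one]

lemma nu_singleton (l : List ℕ) (i : ℕ) (hi : i ∈ Finset.Icc 1 (l.length + 1)) :
    nu f l {i} = ENNReal.ofReal (f (dep (par l) i) /
      ∑ j ∈ Finset.Icc 1 (l.length + 1), f (dep (par l) j)) := by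
  unfold nu
  simp only [Measure.coe_finsetSum, Finset.sum_apply, Measure.smul_apply, smul_eq_mul]
  rw [Finset.sum_eq_single_of_mem i hi]
  · rw [Measure.dirac_apply' _ (measurableSet_singleton i), Set.indicator_of_mem (by simp)]
    simp
  · intro j _ hj
    rw [Measure.dirac_apply' _ (measurableSet_singleton i), Set.indicator_of_notMem (by simpa using hj)]
    simp

end

/-- the history of the first `m + 1` vertices -/
def hs (ω : List ℕ → ℕ) : ℕ → List ℕ
  | 0 => []
  | m + 1 => ω (hs ω m) :: hs ω m

/-- the parents -/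
def XX (k : ℕ) (ω : List ℕ → ℕ) : ℕ := if k < 2 then 0 else ω (hs ω (k - 2))

lemma hs_meas (m : ℕ) (l : List ℕ) : MeasurableSet {ω : List ℕ → ℕ | hs ω m = l} := by
  induction m generalizing l with
  | zero =>
    by_cases h : l = []
    · subst h
      simp [hs]
    · have : {ω : List ℕ → ℕ | hs ω 0 = l} = ∅ := by
        ext ω
        simp only [hs, Set.mem_ofPred_eq, Set.mem_empty_iff_false, iff_false]
        exact fun h2 => h h2.symm
      rw [this]
      exact MeasurableSet.empty
  | succ m ih =>
    cases l with
    | nil =>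
      have : {ω : List ℕ → ℕ | hs ω (m + 1) = []} = ∅ := by
        ext ω
        simp [hs]
      rw [this]
      exact MeasurableSet.empty
    | cons b l =>
      have : {ω : List ℕ → ℕ | hs ω (m + 1) = b :: l}
          = {ω | hs ω m = l} ∩ (fun ω => ω l) ⁻¹' {b} := by
        ext ω
        simp only [hs, Set.mem_ofPred_eq, List.cons.injEq, Set.mem_inter_iff, Set.mem_preimage,
          Set.mem_singleton_iff]
        constructor
        · rintro ⟨h1, h2⟩
          exact ⟨h2, by rw [← h2]; exact h1⟩
        · rintro ⟨h1, h2⟩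
          exact ⟨by rw [h1]; exact h2, h1⟩
      rw [this]
      exact (ih l).inter (measurable_pi_apply l (measurableSet_singleton b))

lemma XX_meas (k : ℕ) : Measurable (XX k) := by
  refine measurable_to_countable' (fun b => ?_)
  unfold XX
  by_cases hk : k < 2
  · simp only [hk, if_true]
    exact measurable_const (measurableSet_singleton b)
  · simp only [hk, if_false]
    have : (fun ω : List ℕ → ℕ => ω (hs ω (k - 2))) ⁻¹' {b}
        = ⋃ l : List ℕ, ({ω | hs ω (k - 2) = l} ∩ (fun ω => ω l) ⁻¹' {b}) := by
      ext ω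
      simp only [Set.mem_preimage, Set.mem_singleton_iff, Set.mem_iUnion, Set.mem_inter_iff,
        Set.mem_ofPred_eq]
      constructor
      · intro h
        exact ⟨_, rfl, h⟩
      · rintro ⟨l, h1, h2⟩
        rw [h1]
        exact h2
    rw [this]
    exact MeasurableSet.iUnion (fun l =>
      (hs_meas _ l).inter (measurable_pi_apply l (measurableSet_singleton b)))

lemma hs_eq (ω : List ℕ → ℕ) (a : ℕ → ℕ) (m : ℕ) (h : ∀ j < m, ω (Lst a j) = a (j + 2)) :
    hs ω m = Lst a m := by
  induction m with
  | zero => rfl
  | succ m ih =>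
    have h1 := ih (fun j hj => h j (by omega))
    rw [hs, Lst, h1, h m (by omega)]

lemma event_iff (ω : List ℕ → ℕ) (a : ℕ → ℕ) (m : ℕ) :
    (∀ k ∈ Finset.Icc 2 (m + 1), XX k ω = a k) ↔ ∀ j < m, ω (Lst a j) = a (j + 2) := by
  induction m with
  | zero =>
    constructor
    · intro _ j hj
      omega
    · intro _ k hk
      rw [Finset.mem_Icc] at hk
      omega
  | succ m ih =>
    constructor
    · intro h j hj
      have h1 : ∀ k ∈ Finset.Icc 2 (m + 1), XX k ω = a k := fun k hk => h k (by
        rw [Finset.mem_Icc] at hk ⊢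
        omega)
      have h2 := ih.1 h1
      by_cases hjm : j < m
      · exact h2 j hjm
      · have : j = m := by omega
        subst this
        have h3 := hs_eq ω a j h2
        have h4 := h (j + 2) (Finset.mem_Icc.2 ⟨by omega, by omega⟩)
        unfold XX at h4
        rw [if_neg (by omega), Nat.add_sub_cancel, h3] at h4
        exact h4
    · intro h k hk
      rw [Finset.mem_Icc] at hk
      have h2 : ∀ j < m, ω (Lst a j) = a (j + 2) := fun j hj => h j (by omega)
      by_cases hkm : k ≤ m + 1
      · exact ih.2 h2 k (Finset.mem_Icc.2 ⟨hk.1, hkm⟩)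
      · have : k = m + 2 := by omega
        subst this
        unfold XX
        rw [if_neg (by omega), Nat.add_sub_cancel, hs_eq ω a m h2]
        exact h m (by omega)

theorem k6 : S_exist := by
  classical
  intro f hf
  have : ∀ l, IsProbabilityMeasure (nu f l) := nu_prob hf
  refine ⟨List ℕ → ℕ, inferInstance, Measure.infinitePi (nu f), inferInstance, XX, XX_meas, ?_⟩
  intro n hn a i hi
  obtain ⟨m, rfl⟩ := Nat.exists_eq_add_of_le' hn
  have hinj : Function.Injective (Lst a) := by
    intro x y hxy
    have := congrArg List.length hxy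
    rwa [Lst_length, Lst_length] at this
  -- the history event
  have e1 : {ω : List ℕ → ℕ | ∀ k ∈ Finset.Icc 2 (m + 1), XX k ω = a k}
      = Set.pi ((Finset.range m).image (Lst a) : Finset (List ℕ))
        (fun l => {a (l.length + 2)}) := by
    ext ω
    simp only [Set.mem_ofPred_eq, event_iff, Set.mem_pi, Finset.coe_image, Finset.coe_range,
      Set.mem_image, Set.mem_Iio, Set.mem_singleton_iff]
    constructor
    · rintro h l ⟨j, hj, rfl⟩
      rw [Lst_length]
      exact h j hj
    · intro h j hj
      have := h (Lst a j) ⟨j, hj, rfl⟩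
      rwa [Lst_length] at this
  have e2 : {ω : List ℕ → ℕ | (∀ k ∈ Finset.Icc 2 (m + 1), XX k ω = a k) ∧ XX (m + 1 + 1) ω = i}
      = Set.pi ((Finset.range (m + 1)).image (Lst a) : Finset (List ℕ))
        (fun l => if l.length = m then {i} else {a (l.length + 2)}) := by
    ext ω
    simp only [Set.mem_ofPred_eq, event_iff, Set.mem_pi, Finset.coe_image, Finset.coe_range,
      Set.mem_image, Set.mem_Iio]
    constructor
    · rintro ⟨h, h2⟩ l ⟨j, hj, rfl⟩
      rw [Lst_length]
      by_cases hjm : j = m
      · subst hjm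
        rw [if_pos rfl, Set.mem_singleton_iff]
        unfold XX at h2
        rw [if_neg (by omega)] at h2
        have : j + 1 + 1 - 2 = j := by omega
        rw [this, hs_eq ω a j h] at h2
        exact h2
      · rw [if_neg hjm, Set.mem_singleton_iff]
        exact h j (by omega)
    · intro h
      have h1 : ∀ j < m, ω (Lst a j) = a (j + 2) := by
        intro j hj
        have := h (Lst a j) ⟨j, by omega, rfl⟩
        rw [Lst_length, if_neg (by omega), Set.mem_singleton_iff] at this
        exact this
      refine ⟨h1, ?_⟩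
      have := h (Lst a m) ⟨m, by omega, rfl⟩
      rw [Lst_length, if_pos rfl, Set.mem_singleton_iff] at this
      unfold XX
      rw [if_neg (by omega)]
      have e3 : m + 1 + 1 - 2 = m := by omega
      rw [e3, hs_eq ω a m h1]
      exact this
  have hmeas : ∀ (l : List ℕ), MeasurableSet ({a (l.length + 2)} : Set ℕ) :=
    fun l => measurableSet_singleton _
  rw [e1, e2, measureReal_def, measureReal_def]
  have p1 : Measure.infinitePi (nu f) (Set.pi ((Finset.range m).image (Lst a) : Finset (List ℕ))
        (fun l => {a (l.length + 2)})) = ∏ l ∈ (Finset.range m).image (Lst a),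
        nu f l {a (l.length + 2)} :=
    Measure.infinitePi_pi (μ := nu f) (X := fun _ => ℕ) (fun l _ => hmeas l)
  have p2 : Measure.infinitePi (nu f)
        (Set.pi ((Finset.range (m + 1)).image (Lst a) : Finset (List ℕ))
        (fun l => if l.length = m then {i} else {a (l.length + 2)}))
        = ∏ l ∈ (Finset.range (m + 1)).image (Lst a),
        nu f l (if l.length = m then {i} else {a (l.length + 2)}) :=
    Measure.infinitePi_pi (μ := nu f) (X := fun _ => ℕ) (fun l _ => by
      split_ifs
      · exact measurableSet_singleton _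
      · exact hmeas l)
  rw [p1, p2, Finset.prod_image (fun x _ y _ h => hinj h),
    Finset.prod_image (fun x _ y _ h => hinj h), Finset.prod_range_succ, ENNReal.toReal_mul]
  congr 1
  · congr 1
    refine Finset.prod_congr rfl (fun j hj => ?_)
    rw [Finset.mem_range] at hj
    rw [Lst_length, if_neg (by omega)]
  · rw [Lst_length, if_pos rfl, nu_singleton _ _ (by rw [Lst_length]; exact hi), Lst_length]
    have hdep : ∀ j ∈ Finset.Icc 1 (m + 1), dep (par (Lst a m)) j = dep a j := by
      intro j hj
      rw [Finset.mem_Icc] at hj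
      refine dep_congr j (fun k hk => par_Lst a m k ?_)
      rw [Finset.mem_Icc] at hk ⊢
      omega
    rw [hdep i hi, Finset.sum_congr rfl (fun j hj => by rw [hdep j hj])]
    refine ENNReal.toReal_ofReal ?_
    exact div_nonneg (hf _).le (Finset.sum_nonneg (fun _ _ => (hf _).le))

end Pool.Agent.Q298.DWT
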