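import Pool.Agent.Q298.DWT.K3
import Pool.Agent.Q298.DWT.K5
import Pool.Agent.Q176.DWT.K1

/-!
# Depth-weighted trees, step K7: assembly on the path level
-/

open MeasureTheory Filter Topology

namespace Pool.Agent.Q298.DWT

/-- from the squares to all integers -/
lemma sq_to_all (G : ℕ → ℝ) (hmono : ∀ n, G n ≤ G (n + 1)) (hlip : ∀ n, G (n + 1) ≤ G n + 1)
    (ν : ℝ) (h : Tendsto (fun k : ℕ => G (k ^ 2) / (k : ℝ) ^ 2) atTop (𝓝 ν)) :
    Tendsto (fun n : ℕ => G n / (n : ℝ)) atTop (𝓝 ν) := by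
  have hadd : ∀ n i, G n ≤ G (n + i) ∧ G (n + i) ≤ G n + i := by
    intro n i
    induction i with
    | zero => simp
    | succ i ih =>
      have h1 := hmono (n + i)
      have h2 := hlip (n + i)
      have e : n + (i + 1) = n + i + 1 := by ring
      rw [e]
      push_cast
      constructor <;> linarith [ih.1, ih.2]
  rw [Metric.tendsto_nhds]
  intro ε hε
  have h1 := Metric.tendsto_nhds.1 h (ε / 4) (by positivity)
  obtain ⟨k0, hk0⟩ := eventually_atTop.1 h1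
  obtain ⟨k1, hk1⟩ := exists_nat_gt (8 * (1 + |ν|) / ε)
  filter_upwards [eventually_ge_atTop ((k0 + k1 + 1) ^ 2)] with n hn
  set k := Nat.sqrt n with hk
  have hkle : k ^ 2 ≤ n := by rw [sq]; exact Nat.sqrt_le n
  have hklt : n < (k + 1) ^ 2 := by rw [sq]; exact Nat.lt_succ_sqrt n
  have hkk : k0 + k1 + 1 ≤ k := by
    rw [hk]
    exact Nat.le_sqrt'.2 hn
  have hkpos : 0 < k := by omega
  have hkr : (0 : ℝ) < k := by exact_mod_cast hkpos
  obtain ⟨i, hi⟩ := Nat.exists_eq_add_of_le hkle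
  have hi2 : i ≤ 2 * k := by nlinarith
  have hir : (i : ℝ) ≤ 2 * k := by exact_mod_cast hi2
  have hnr : (n : ℝ) = (k : ℝ) ^ 2 + i := by rw [hi]; push_cast; ring
  have hnpos : (0 : ℝ) < n := by rw [hnr]; positivity
  have h2 := hk0 k (by omega)
  rw [Real.dist_eq] at h2
  have h3 : |G (k ^ 2) - ν * (k : ℝ) ^ 2| ≤ ε / 4 * (k : ℝ) ^ 2 := by
    have e1 : G (k ^ 2) - ν * (k : ℝ) ^ 2 = (G (k ^ 2) / (k : ℝ) ^ 2 - ν) * (k : ℝ) ^ 2 := by
      field_simp
    rw [e1, abs_mul, abs_of_pos (by positivity : (0 : ℝ) < (k : ℝ) ^ 2)]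
    exact mul_le_mul_of_nonneg_right h2.le (by positivity)
  have h4 := hadd (k ^ 2) i
  rw [← hi] at h4
  have h5 : 8 * (1 + |ν|) ≤ ε * k := by
    have : 8 * (1 + |ν|) / ε < k := lt_of_lt_of_le hk1 (by exact_mod_cast (by omega : k1 ≤ k))
    rw [div_lt_iff₀ hε] at this
    linarith
  have h6 : |G n - ν * n| ≤ ε / 2 * n := by
    have h7 : |ν * i| ≤ |ν| * (2 * k) := by
      rw [abs_mul, abs_of_nonneg (by positivity : (0 : ℝ) ≤ (i : ℝ))]
      exact mul_le_mul_of_nonneg_left hir (abs_nonneg _)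
    have h8 : (2 + 2 * |ν|) * k ≤ ε / 4 * (k : ℝ) ^ 2 := by
      have := mul_le_mul_of_nonneg_right h5 hkr.le
      nlinarith
    have h9 := abs_le.1 h3
    have h10 := abs_le.1 h7
    have h11 : (k : ℝ) ^ 2 ≤ n := by rw [hnr]; linarith [(by positivity : (0 : ℝ) ≤ (i : ℝ))]
    have h12 : ε / 2 * (k : ℝ) ^ 2 ≤ ε / 2 * n := mul_le_mul_of_nonneg_left h11 (by positivity)
    have e1 : ν * (n : ℝ) = ν * (k : ℝ) ^ 2 + ν * i := by rw [hnr]; ring
    rw [e1, abs_le]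
    constructor <;> nlinarith [h4.1, h4.2, h9.1, h9.2, h10.1, h10.2]
  have e2 : G n / n - ν = (G n - ν * n) / n := by field_simp
  rw [Real.dist_eq, e2, abs_div, abs_of_pos hnpos, div_lt_iff₀ hnpos]
  nlinarith

section

variable {f : ℕ → ℝ} {c : ℝ}

/-- the one-step operator applied to the averaged corrector -/
noncomputable def W (f : ℕ → ℝ) (L : ℕ) (s : Multiset ℕ) : ℝ :=
  (∑ i ∈ Finset.range L, u f i s) / L

lemma P_sum (f : ℕ → ℝ) {ι : Type} (t : Finset ι) (φ : ι → Multiset ℕ → ℝ) (s : Multiset ℕ) :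
    P f (fun r => ∑ i ∈ t, φ i r) s = ∑ i ∈ t, P f (φ i) s := by
  classical
  induction t using Finset.induction_on with
  | empty =>
    simp [P]
  | insert a t ha ih =>
    rw [Finset.sum_insert ha, ← ih, ← P_add]
    congr 1
    funext r
    rw [Finset.sum_insert ha]

lemma P_W (hf : ∀ k, 0 < f k) {L : ℕ} (hL : 0 < L) {s : Multiset ℕ} (hs : s ≠ 0) :
    P f (fun t => Dr t + W f L t) s = (Dr s + W f L s) + u f L s / L := by
  have hLr : (0 : ℝ) < L := by exact_mod_cast hL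
  have h1 : ∀ i, P f (u f i) s = u f (i + 1) s - (P f Dr s - Dr s) := by
    intro i
    rw [u_succ hf hs]
    have : P f (fun t => Dr t - Dr s + u f i t) s
        = P f Dr s - Dr s + P f (u f i) s := by
      rw [P_add, P_sub, P_const hf hs]
    rw [this]
    ring
  rw [P_add]
  have h2 : P f (W f L) s = (∑ i ∈ Finset.range L, P f (u f i) s) / L := by
    have : W f L = fun t => (L : ℝ)⁻¹ * ∑ i ∈ Finset.range L, u f i t := by
      funext t
      unfold W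
      rw [div_eq_inv_mul]
    rw [this, P_mul, P_sum, div_eq_inv_mul]
  rw [h2]
  simp_rw [h1]
  rw [Finset.sum_sub_distrib, Finset.sum_const, Finset.card_range, nsmul_eq_mul]
  have h3 : ∑ i ∈ Finset.range L, u f (i + 1) s = ∑ i ∈ Finset.range L, u f i s + u f L s := by
    have := Finset.sum_range_succ' (fun i => u f i s) L
    rw [Finset.sum_range_succ] at this
    rw [u_zero] at this
    linarith
  rw [h3]
  unfold W
  field_simp
  ring

lemma W_nonneg (hf : ∀ k, 0 < f k) (L : ℕ) {s : Multiset ℕ} (hs : s ≠ 0) : 0 ≤ W f L s := by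
  unfold W
  exact div_nonneg (Finset.sum_nonneg (fun i _ => u_nonneg hf i hs)) (by positivity)

lemma W_le (hf : ∀ k, 0 < f k) {L : ℕ} (hL : 0 < L) {s : Multiset ℕ} (hs : s ≠ 0) :
    W f L s ≤ L := by
  have hLr : (0 : ℝ) < L := by exact_mod_cast hL
  unfold W
  rw [div_le_iff₀ hLr]
  calc ∑ i ∈ Finset.range L, u f i s ≤ ∑ _i ∈ Finset.range L, (L : ℝ) := by
        refine Finset.sum_le_sum (fun i hi => (u_le hf i hs).trans ?_)
        exact_mod_cast (Finset.mem_range.1 hi).le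
    _ = L * L := by simp

/-- lower bound for the one-step increase -/
lemma u_one_ge' (hf : ∀ k, 0 < f k) {θ Cf : ℝ} (hθ : 0 < θ) (hCf : 0 < Cf)
    (hZ : ∀ s : Multiset ℕ, Z f s ≤ Cf * H θ s * f (D s)) {s : Multiset ℕ} (hs : s ≠ 0) :
    1 / (Cf * H θ s) ≤ u f 1 s := by
  have hZ0 := Z_pos hf hs
  have hD := hf (D s)
  have hH : 0 < H θ s := lt_of_lt_of_le zero_lt_one (one_le_H hθ hs)
  have h2 : u f 1 s = P f (fun t => Dr t - Dr s) s := by
    have := u_succ hf hs 0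
    simpa using this
  have h3 : f (D s) ≤ (s.map (fun d => f d * (Dr ((d + 1) ::ₘ s) - Dr s))).sum := by
    have h4 := single_le_msum (s := s) (g := fun d => f d * (Dr ((d + 1) ::ₘ s) - Dr s))
      (fun d _ => mul_nonneg (hf d).le (by have := @Dr_le_step s d; linarith)) (D_mem hs)
    have h5 : Dr ((D s + 1) ::ₘ s) - Dr s = 1 := by
      unfold Dr
      rw [D_step (D_mem hs), if_pos rfl]
      push_cast
      ring
    simp only [h5, mul_one] at h4
    exact h4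
  rw [h2]
  unfold P
  rw [div_le_div_iff₀ (by positivity) hZ0, one_mul]
  calc Z f s ≤ Cf * H θ s * f (D s) := hZ s
    _ ≤ Cf * H θ s * (s.map (fun d => f d * (Dr ((d + 1) ::ₘ s) - Dr s))).sum :=
        mul_le_mul_of_nonneg_left h3 (by positivity)
    _ = _ := by ring

end

/-! ### the deterministic part: a path with the laws of large numbers -/

/-- a path of the chain from the root -/
def Path (S : ℕ → Multiset ℕ) : Prop :=
  S 0 = {0} ∧ ∀ n, ∃ d ∈ S n, S (n + 1) = (d + 1) ::ₘ S n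

/-- law of large numbers along the squares for `φ` on the path `S` -/
def LLN (f : ℕ → ℝ) (φ : Multiset ℕ → ℝ) (S : ℕ → Multiset ℕ) : Prop :=
  Tendsto (fun k : ℕ => (φ (S (k ^ 2)) - φ {0}
    - ∑ n ∈ Finset.range (k ^ 2), (P f φ (S n) - φ (S n))) / (k : ℝ) ^ 2) atTop (𝓝 0)

lemma Path.ne_zero {S : ℕ → Multiset ℕ} (hS : Path S) (n : ℕ) : S n ≠ 0 := by
  cases n with
  | zero => rw [hS.1]; exact Multiset.singleton_ne_zero 0
  | succ n =>
    obtain ⟨d, _, hd⟩ := hS.2 n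
    rw [hd]
    exact Multiset.cons_ne_zero

lemma Path.Dr_mono {S : ℕ → Multiset ℕ} (hS : Path S) (n : ℕ) : Dr (S n) ≤ Dr (S (n + 1)) := by
  obtain ⟨d, _, hd⟩ := hS.2 n
  rw [hd]
  exact Dr_le_step

lemma Path.Dr_lip {S : ℕ → Multiset ℕ} (hS : Path S) (n : ℕ) :
    Dr (S (n + 1)) ≤ Dr (S n) + 1 := by
  obtain ⟨d, hd1, hd⟩ := hS.2 n
  rw [hd]
  exact Dr_step_le hd1

lemma tendsto_const_div_sq (a : ℝ) :
    Tendsto (fun k : ℕ => a / (k : ℝ) ^ 2) atTop (𝓝 0) := by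
  have h1 : Tendsto (fun k : ℕ => (k : ℝ) ^ 2) atTop atTop :=
    (tendsto_pow_atTop (two_ne_zero)).comp tendsto_natCast_atTop_atTop
  exact Tendsto.const_div_atTop h1 a

section det

variable {f : ℕ → ℝ} {c θ : ℝ} {S : ℕ → Multiset ℕ}

/-- the average of `H` along the path is bounded -/
lemma avg_H (hS : Path S) (U : Multiset ℕ → ℝ) (hU : ∀ s, 0 ≤ U s) {δ C : ℝ} (hδ : 0 < δ)
    (hdrift : ∀ s : Multiset ℕ, s ≠ 0 → P f U s ≤ U s - δ * H θ s + C) (hL : LLN f U S) :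
    ∀ᶠ k : ℕ in atTop, ∑ n ∈ Finset.range (k ^ 2), H θ (S n) ≤ (C + 1) / δ * (k : ℝ) ^ 2 := by
  have h1 := (Metric.tendsto_nhds.1 hL) (1 / 2) (by norm_num)
  have h2 := (Metric.tendsto_nhds.1 (tendsto_const_div_sq (U {0}))) (1 / 2) (by norm_num)
  filter_upwards [h1, h2, eventually_gt_atTop 0] with k hk1 hk2 hk
  have hkr : (0 : ℝ) < (k : ℝ) ^ 2 := by positivity
  rw [Real.dist_eq, sub_zero] at hk1 hk2
  have h3 := (abs_lt.1 hk1).2
  have h4 := (abs_lt.1 hk2).2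
  rw [div_lt_iff₀ hkr] at h4
  rw [div_lt_iff₀ hkr] at h3
  have h5 : ∑ n ∈ Finset.range (k ^ 2), (P f U (S n) - U (S n))
      ≤ ∑ n ∈ Finset.range (k ^ 2), (C - δ * H θ (S n)) :=
    Finset.sum_le_sum (fun n _ => by
      have := hdrift (S n) (hS.ne_zero n)
      linarith)
  have e5 : ∑ n ∈ Finset.range (k ^ 2), (C - δ * H θ (S n))
      = (k : ℝ) ^ 2 * C - δ * ∑ n ∈ Finset.range (k ^ 2), H θ (S n) := by
    rw [Finset.sum_sub_distrib, ← Finset.mul_sum, Finset.sum_const, Finset.card_range,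
      nsmul_eq_mul]
    push_cast
    ring
  rw [e5] at h5
  have h6 := hU (S (k ^ 2))
  rw [div_mul_eq_mul_div, le_div_iff₀ hδ]
  nlinarith

lemma avg_u (hf : ∀ k, 0 < f k) (hS : Path S) {L : ℕ} (hL : 0 < L)
    (h : LLN f (fun t => Dr t + W f L t) S) :
    Tendsto (fun k : ℕ => Dr (S (k ^ 2)) / (k : ℝ) ^ 2
      - (∑ n ∈ Finset.range (k ^ 2), u f L (S n)) / (L * (k : ℝ) ^ 2)) atTop (𝓝 0) := by
  have hLr : (0 : ℝ) < L := by exact_mod_cast hL
  have h1 : Tendsto (fun k : ℕ => (W f L (S (k ^ 2)) - (Dr {0} + W f L {0})) / (k : ℝ) ^ 2)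
      atTop (𝓝 0) := by
    refine squeeze_zero_norm' (a := fun k : ℕ => (2 * (L : ℝ)) / (k : ℝ) ^ 2) ?_
      (tendsto_const_div_sq _)
    filter_upwards [eventually_gt_atTop 0] with k hk
    have hkr : (0 : ℝ) < (k : ℝ) ^ 2 := by positivity
    rw [Real.norm_eq_abs, abs_div, abs_of_pos hkr]
    refine div_le_div_of_nonneg_right ?_ hkr.le
    have h2 := W_nonneg hf L (hS.ne_zero (k ^ 2))
    have h3 := W_le hf hL (hS.ne_zero (k ^ 2))
    have h4 := W_nonneg hf L (Multiset.singleton_ne_zero 0)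
    have h5 := W_le hf hL (Multiset.singleton_ne_zero 0)
    have h6 : Dr {0} = 0 := by simp [Dr, D]
    rw [h6, abs_le]
    constructor <;> linarith
  have h2 := h.sub h1
  rw [sub_zero] at h2
  refine h2.congr' ?_
  filter_upwards [eventually_gt_atTop 0] with k hk
  have hkr : (0 : ℝ) < (k : ℝ) ^ 2 := by positivity
  have h3 : ∀ n, P f (fun t => Dr t + W f L t) (S n) - (Dr (S n) + W f L (S n))
      = u f L (S n) / L := by
    intro n
    rw [P_W hf hL (hS.ne_zero n)]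
    ring
  simp only [h3]
  rw [← Finset.sum_div]
  field_simp
  ring

theorem det_main (hf : EG f c) (hc : 1 < c) (hθ : 1 < θ) (hθc : θ < c) (h4 : S_K4)
    {ν : ℝ} (hν0 : 0 < ν) (hν1 : ν < 1)
    (hν : ∀ K ε : ℝ, 0 < ε → ∃ L0 : ℕ, ∀ L : ℕ, L0 ≤ L → ∀ s : Multiset ℕ, s ≠ 0 → H θ s ≤ K →
      |u (pw c) L s - ν * L| ≤ ε * L)
    (hS : Path S) (U : Multiset ℕ → ℝ) (hU : ∀ s, 0 ≤ U s) {δ C : ℝ} (hδ : 0 < δ) (hC : 0 ≤ C)
    (hdrift : ∀ s : Multiset ℕ, s ≠ 0 → P f U s ≤ U s - δ * H θ s + C) (hLU : LLN f U S)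
    (hL : ∀ L : ℕ, 0 < L → LLN f (fun t => Dr t + W f L t) S) :
    Tendsto (fun n : ℕ => Dr (S n) / (n : ℝ)) atTop (𝓝 ν) := by
  refine sq_to_all (fun n => Dr (S n)) hS.Dr_mono hS.Dr_lip ν ?_
  have hf0 := hf.1
  have hθ0 : 0 < θ := by linarith
  obtain ⟨C', hC'⟩ : ∃ C' : ℝ, C' = (C + 1) / δ := ⟨_, rfl⟩
  have hC'0 : 0 < C' := by rw [hC']; positivity
  have hH := avg_H (θ := θ) hS U hU hδ hdrift hLU
  rw [← hC'] at hH
  -- the depth tends to infinity
  obtain ⟨Cf, hCf1, hCf⟩ := Q176.DWT.exists_Cf hθ hθc hf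
  have hCf0 : 0 < Cf := by linarith
  have hZ : ∀ s : Multiset ℕ, Z f s ≤ Cf * H θ s * f (D s) := by
    intro s
    have := Q176.DWT.Z_le_H hθ0 hCf s
    linarith [this, mul_right_comm Cf (f (D s)) (H θ s)]
  have hKpos : 0 < Cf * C' := by positivity
  have hlow : ∀ᶠ k : ℕ in atTop, 1 / (2 * (Cf * C')) * (k : ℝ) ^ 2 ≤ Dr (S (k ^ 2)) := by
    have h1 := (Metric.tendsto_nhds.1 (avg_u hf0 hS one_pos (hL 1 one_pos)))
      (1 / (2 * (Cf * C'))) (by positivity)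
    filter_upwards [h1, hH, eventually_gt_atTop 0] with k hk1 hk2 hk
    have hkr : (0 : ℝ) < (k : ℝ) ^ 2 := by positivity
    rw [Real.dist_eq, sub_zero] at hk1
    have h3 := (abs_lt.1 hk1).1
    have h5 : ∑ n ∈ Finset.range (k ^ 2), (2 / (Cf * C') - Cf * H θ (S n) / (Cf * C') ^ 2)
        ≤ ∑ n ∈ Finset.range (k ^ 2), u f 1 (S n) := by
      refine Finset.sum_le_sum (fun n _ => ?_)
      have hHp : 0 < H θ (S n) := lt_of_lt_of_le zero_lt_one (one_le_H hθ0 (hS.ne_zero n))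
      exact (inv_ge_tangent (by positivity) hKpos).trans
        (u_one_ge' hf0 hθ0 hCf0 hZ (hS.ne_zero n))
    rw [Finset.sum_sub_distrib, Finset.sum_const, Finset.card_range, nsmul_eq_mul,
      ← Finset.sum_div, ← Finset.mul_sum] at h5
    push_cast at h5 h3
    rw [one_mul, ← sub_div, lt_div_iff₀ hkr] at h3
    have h6 : Cf * ∑ n ∈ Finset.range (k ^ 2), H θ (S n) ≤ Cf * (C' * (k : ℝ) ^ 2) :=
      mul_le_mul_of_nonneg_left hk2 hCf0.le
    have h7 : Cf * (∑ n ∈ Finset.range (k ^ 2), H θ (S n)) / (Cf * C') ^ 2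
        ≤ (k : ℝ) ^ 2 / (Cf * C') := by
      rw [div_le_div_iff₀ (by positivity) hKpos]
      calc Cf * (∑ n ∈ Finset.range (k ^ 2), H θ (S n)) * (Cf * C')
          ≤ Cf * (C' * (k : ℝ) ^ 2) * (Cf * C') := mul_le_mul_of_nonneg_right h6 hKpos.le
        _ = (k : ℝ) ^ 2 * (Cf * C') ^ 2 := by ring
    have h8 : (k : ℝ) ^ 2 * (2 / (Cf * C')) - (k : ℝ) ^ 2 / (Cf * C')
        = 2 * (1 / (2 * (Cf * C')) * (k : ℝ) ^ 2) := by
      field_simp
      ring
    linarith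
  have hDinf : ∀ D0 : ℕ, ∃ N : ℕ, ∀ n, N ≤ n → D0 ≤ D (S n) := by
    intro D0
    obtain ⟨k0, hk0⟩ := eventually_atTop.1 hlow
    obtain ⟨k1, hk1⟩ := exists_nat_gt (2 * (Cf * C') * (D0 : ℝ))
    refine ⟨(k0 + k1 + 1) ^ 2, fun n hn => ?_⟩
    have hmono : Monotone (fun n => Dr (S n)) := monotone_nat_of_le_succ hS.Dr_mono
    have h1 := hmono hn
    simp only at h1
    have h2 := hk0 (k0 + k1 + 1) (by omega)
    have h3 : (k1 : ℝ) ≤ ((k0 + k1 + 1 : ℕ) : ℝ) := by exact_mod_cast (by omega)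
    have h3' : (1 : ℝ) ≤ ((k0 + k1 + 1 : ℕ) : ℝ) := by exact_mod_cast (by omega)
    have h4 : (D0 : ℝ) ≤ 1 / (2 * (Cf * C')) * ((k0 + k1 + 1 : ℕ) : ℝ) ^ 2 := by
      rw [div_mul_eq_mul_div, one_mul, le_div_iff₀ (by positivity)]
      nlinarith
    have h5 : (D0 : ℝ) ≤ Dr (S n) := h4.trans (h2.trans h1)
    unfold Dr at h5
    exact_mod_cast h5
  -- the main estimate
  rw [Metric.tendsto_nhds]
  intro ε' hε'
  obtain ⟨ε, hε⟩ : ∃ ε : ℝ, ε = ε' / 6 := ⟨_, rfl⟩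
  have hε0 : 0 < ε := by rw [hε]; positivity
  obtain ⟨K, hK⟩ : ∃ K : ℝ, K = C' / ε := ⟨_, rfl⟩
  have hK0 : 0 < K := by rw [hK]; positivity
  obtain ⟨L0, hL0⟩ := hν K ε hε0
  obtain ⟨L, hLdef⟩ : ∃ L : ℕ, L = L0 + 1 := ⟨_, rfl⟩
  have hLpos : 0 < L := by omega
  have hLr : (0 : ℝ) < L := by exact_mod_cast hLpos
  have hL1 : (1 : ℝ) ≤ L := by exact_mod_cast hLpos
  obtain ⟨D0, hD0⟩ := h4 f c hc hf θ hθ hθc K ε L hε0
  have hall : ∀ s : Multiset ℕ, s ≠ 0 → |u f L s - ν * L| ≤ L := by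
    intro s hs
    have h1 := u_nonneg hf0 L hs
    have h2 := u_le hf0 L hs
    have h3 : 0 < ν * L := by positivity
    have h5 : ν * L < 1 * L := mul_lt_mul_of_pos_right hν1 hLr
    rw [abs_le]
    constructor <;> linarith
  have hdeep : ∀ s : Multiset ℕ, s ≠ 0 → D0 ≤ D s →
      |u f L s - ν * L| ≤ 2 * ε * L + L * (H θ s / K) := by
    intro s hs hD
    have hHp : 0 ≤ H θ s := H_nonneg hθ0 s
    by_cases hHK : H θ s ≤ K
    · have h1 := hD0 s hs hD hHK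
      have h2 := hL0 L (by omega) s hs hHK
      have h3 : |u f L s - ν * L| ≤ |u f L s - u (pw c) L s| + |u (pw c) L s - ν * L| :=
        abs_sub_le _ _ _
      have h5 : 0 ≤ L * (H θ s / K) := by positivity
      have h6 : ε * 1 ≤ ε * L := mul_le_mul_of_nonneg_left hL1 hε0.le
      linarith
    · have h1 := hall s hs
      have h2 : 1 ≤ H θ s / K := by
        rw [le_div_iff₀ hK0]
        linarith [not_le.1 hHK]
      have h3 : (L : ℝ) * 1 ≤ L * (H θ s / K) := mul_le_mul_of_nonneg_left h2 hLr.le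
      have h5 : 0 ≤ 2 * ε * L := by positivity
      linarith
  obtain ⟨N, hN⟩ := hDinf D0
  have hterm : ∀ n, |u f L (S n) - ν * L|
      ≤ (if n < N then (L : ℝ) else 0) + (2 * ε * L + L * (H θ (S n) / K)) := by
    intro n
    have hHp : 0 ≤ H θ (S n) := H_nonneg hθ0 _
    have h5 : 0 ≤ L * (H θ (S n) / K) := by positivity
    have h6 : 0 ≤ 2 * ε * L := by positivity
    by_cases hn : n < N
    · rw [if_pos hn]
      have := hall (S n) (hS.ne_zero n)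
      linarith
    · rw [if_neg hn]
      have := hdeep (S n) (hS.ne_zero n) (hN n (by omega))
      linarith
  have hsumN : ∀ T : ℕ, ∑ n ∈ Finset.range T, (if n < N then (L : ℝ) else 0) ≤ L * N := by
    intro T
    rw [← Finset.sum_filter, Finset.sum_const, nsmul_eq_mul]
    have : (((Finset.range T).filter (fun n => n < N)).card : ℝ) ≤ N := by
      have h1 : (Finset.range T).filter (fun n => n < N) ⊆ Finset.range N := by
        intro n hn
        rw [Finset.mem_filter] at hn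
        exact Finset.mem_range.2 hn.2
      have h2 := Finset.card_le_card h1
      rw [Finset.card_range] at h2
      exact_mod_cast h2
    rw [mul_comm]
    exact mul_le_mul_of_nonneg_left this hLr.le
  have h7 := (Metric.tendsto_nhds.1 (avg_u hf0 hS hLpos (hL L hLpos))) ε hε0
  have h8 := (Metric.tendsto_nhds.1 (tendsto_const_div_sq (N : ℝ))) ε hε0
  filter_upwards [h7, h8, hH, eventually_gt_atTop 0] with k hk1 hk2 hk3 hk
  have hkr : (0 : ℝ) < (k : ℝ) ^ 2 := by positivity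
  rw [Real.dist_eq, sub_zero] at hk1 hk2
  rw [Real.dist_eq]
  have h9 : |(∑ n ∈ Finset.range (k ^ 2), u f L (S n)) - ν * L * (k : ℝ) ^ 2|
      ≤ L * N + 2 * ε * L * (k : ℝ) ^ 2 + L * (C' * (k : ℝ) ^ 2) / K := by
    have e1 : (∑ n ∈ Finset.range (k ^ 2), u f L (S n)) - ν * L * (k : ℝ) ^ 2
        = ∑ n ∈ Finset.range (k ^ 2), (u f L (S n) - ν * L) := by
      rw [Finset.sum_sub_distrib, Finset.sum_const, Finset.card_range, nsmul_eq_mul]
      push_cast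
      ring
    rw [e1]
    calc |∑ n ∈ Finset.range (k ^ 2), (u f L (S n) - ν * L)|
        ≤ ∑ n ∈ Finset.range (k ^ 2), |u f L (S n) - ν * L| := Finset.abs_sum_le_sum_abs _ _
      _ ≤ ∑ n ∈ Finset.range (k ^ 2), ((if n < N then (L : ℝ) else 0)
            + (2 * ε * L + L * (H θ (S n) / K))) := Finset.sum_le_sum (fun n _ => hterm n)
      _ = (∑ n ∈ Finset.range (k ^ 2), (if n < N then (L : ℝ) else 0))
            + 2 * ε * L * (k : ℝ) ^ 2 + L * (∑ n ∈ Finset.range (k ^ 2), H θ (S n)) / K := by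
          rw [Finset.sum_add_distrib, Finset.sum_add_distrib, Finset.sum_const,
            Finset.card_range, nsmul_eq_mul, ← Finset.mul_sum, ← Finset.sum_div]
          push_cast
          ring
      _ ≤ _ := by
          have h10 := hsumN (k ^ 2)
          have h11 : L * (∑ n ∈ Finset.range (k ^ 2), H θ (S n)) / K
              ≤ L * (C' * (k : ℝ) ^ 2) / K := by
            refine div_le_div_of_nonneg_right ?_ hK0.le
            exact mul_le_mul_of_nonneg_left hk3 hLr.le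
          linarith
  have h10 : L * (C' * (k : ℝ) ^ 2) / K = ε * L * (k : ℝ) ^ 2 := by
    rw [hK]
    field_simp
  rw [h10] at h9
  have h11 : (L : ℝ) * N ≤ ε * L * (k : ℝ) ^ 2 := by
    have h12 := (abs_lt.1 hk2).2
    rw [div_lt_iff₀ hkr] at h12
    have := mul_le_mul_of_nonneg_left h12.le hLr.le
    linarith [this, mul_comm (L : ℝ) (ε * (k : ℝ) ^ 2), mul_right_comm ε ((k : ℝ) ^ 2) (L : ℝ)]
  have h12 : |(∑ n ∈ Finset.range (k ^ 2), u f L (S n)) / (L * (k : ℝ) ^ 2) - ν| ≤ 4 * ε := by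
    have e1 : (∑ n ∈ Finset.range (k ^ 2), u f L (S n)) / (L * (k : ℝ) ^ 2) - ν
        = ((∑ n ∈ Finset.range (k ^ 2), u f L (S n)) - ν * L * (k : ℝ) ^ 2)
          / (L * (k : ℝ) ^ 2) := by
      field_simp
    rw [e1, abs_div, abs_of_pos (by positivity : (0 : ℝ) < L * (k : ℝ) ^ 2),
      div_le_iff₀ (by positivity)]
    refine h9.trans ?_
    nlinarith
  have h13 := abs_lt.1 hk1
  have h14 := abs_le.1 h12
  rw [abs_lt, hε] at *
  constructor <;> linarith [h13.1, h13.2, h14.1, h14.2]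

end det

/-! ### the probabilistic part -/

lemma iter_le_const {f : ℕ → ℝ} (hf : ∀ k, 0 < f k) {φ : Multiset ℕ → ℝ} {a : ℝ}
    (h : ∀ s : Multiset ℕ, s ≠ 0 → φ s ≤ a) (n : ℕ) {s : Multiset ℕ} (hs : s ≠ 0) :
    ((P f)^[n]) φ s ≤ a := by
  have h1 : ((P f)^[n]) φ s ≤ ((P f)^[n]) (fun _ => a) s := iter_mono' hf h n hs
  rwa [iter_const hf n hs] at h1

section prob

variable {f : ℕ → ℝ} {c : ℝ} {Ω : Type} [MeasurableSpace Ω] {μ : Measure Ω}
  [IsProbabilityMeasure μ] {X : ℕ → Ω → ℕ}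

lemma ae_path (hf : ∀ k, 0 < f k) (hX : IsDWT f μ X) :
    ∀ᵐ ω ∂μ, Path (fun n => prof (fun i => X i ω) (n + 1)) := by
  have h1 : ∀ᵐ ω ∂μ, ∀ n : ℕ, ∀ k ∈ Finset.Icc 2 (n + 1), X k ω ∈ Finset.Icc 1 (k - 1) := by
    rw [ae_all_iff]
    intro n
    exact ae_hist hf hX (n + 1) (by omega)
  filter_upwards [h1] with ω hω
  refine ⟨prof_one _, fun n => ?_⟩
  have h2 := hω (n + 1) (n + 2) (Finset.mem_Icc.2 ⟨by omega, by omega⟩)
  rw [Finset.mem_Icc] at h2
  refine ⟨dep (fun i => X i ω) (X (n + 2) ω), ?_, ?_⟩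
  · unfold prof
    refine Multiset.mem_map_of_mem _ ?_
    have : X (n + 2) ω ∈ Finset.Icc 1 (n + 1) := Finset.mem_Icc.2 ⟨h2.1, by omega⟩
    exact this
  · simp only
    rw [prof_succ (fun i => X i ω) (n + 1), dep_eq (fun i => X i ω) (n + 1 + 1)]
    have h3 : 1 ≤ X (n + 1 + 1) ω ∧ X (n + 1 + 1) ω < n + 1 + 1 := by
      refine ⟨h2.1, ?_⟩
      have h4 : X (n + 1 + 1) ω ≤ n + 2 - 1 := h2.2
      omega
    rw [if_pos h3]

lemma lln_of_bdd (h5 : S_K5) (hf : ∀ k, 0 < f k) (hX : IsDWT f μ X) (φ : Multiset ℕ → ℝ) (a : ℝ)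
    (h : ∀ s : Multiset ℕ, s ≠ 0 → P f (fun s' => (φ s' - φ s) ^ 2) s ≤ a) :
    ∀ᵐ ω ∂μ, LLN f φ (fun n => prof (fun i => X i ω) (n + 1)) := by
  refine h5 f hf Ω inferInstance μ inferInstance X hX φ a (fun T => ?_)
  calc ∑ n ∈ Finset.range T, ((P f)^[n]) (fun s => P f (fun s' => (φ s' - φ s) ^ 2) s) {0}
      ≤ ∑ _n ∈ Finset.range T, a :=
        Finset.sum_le_sum (fun n _ => iter_le_const hf h n (Multiset.singleton_ne_zero 0))
    _ = a * T := by simp [mul_comm]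

lemma lln_phi (h5 : S_K5) (hf : ∀ k, 0 < f k) (hX : IsDWT f μ X) {L : ℕ} (hL : 0 < L) :
    ∀ᵐ ω ∂μ, LLN f (fun t => Dr t + W f L t) (fun n => prof (fun i => X i ω) (n + 1)) := by
  refine lln_of_bdd h5 hf hX _ ((1 + (L : ℝ)) ^ 2) (fun s hs => ?_)
  refine P_le_of_le hf hs (fun d hd => ?_)
  have hs' : (d + 1) ::ₘ s ≠ 0 := Multiset.cons_ne_zero
  have h1 := @Dr_le_step s d
  have h2 := Dr_step_le hd
  have h3 := W_nonneg hf L hs
  have h4 := W_le hf hL hs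
  have h6 := W_nonneg hf L hs'
  have h7 := W_le hf hL hs'
  refine sq_le_sq' ?_ ?_ <;> linarith

lemma lln_V (h1 : S_K1) (h5 : S_K5) (hf : EG f c) (hc : 1 < c) {θ : ℝ} (hθ : 1 < θ) (hθc : θ < c)
    (hX : IsDWT f μ X) {η : ℝ} {J : ℕ} {m : ℕ → ℕ} (hη : 0 ≤ η) (hJ : η * J ≤ 1) :
    ∀ᵐ ω ∂μ, LLN f (V θ η 2 J m) (fun n => prof (fun i => X i ω) (n + 1)) := by
  have hf0 := hf.1
  have hθ0 : 0 < θ := by linarith
  obtain ⟨η5, J5, m5, δ5, C5, hη5, hJ5, hm5, hδ5, hC5, hdr⟩ := h1 f c hc hf θ hθ hθc 5 (by norm_num)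
  have hV5 : 0 ≤ V θ η5 5 J5 m5 {0} := V_nonneg hθ0 hη5 _
  refine h5 f hf0 Ω inferInstance μ inferInstance X hX (V θ η 2 J m)
    (64 * ((V θ η5 5 J5 m5 {0} + C5) / δ5)) (fun T => ?_)
  have hinc : ∀ s : Multiset ℕ, s ≠ 0 →
      P f (fun s' => (V θ η 2 J m s' - V θ η 2 J m s) ^ 2) s ≤ 64 * H θ s ^ 4 := by
    intro s hs
    refine P_le_of_le hf0 hs (fun d hd => ?_)
    have hs' : (d + 1) ::ₘ s ≠ 0 := Multiset.cons_ne_zero
    have hH1 := one_le_H hθ0 hs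
    have hH1' := one_le_H hθ0 hs'
    have hH2 := H_step_le hθ hd
    have a1 := V_nonneg (q := 2) (J := J) (m := m) hθ0 hη s
    have a2 := V_nonneg (q := 2) (J := J) (m := m) hθ0 hη ((d + 1) ::ₘ s)
    have a3 := V_le (q := 2) (J := J) (m := m) hθ0 hη hJ s
    have a4 := V_le (q := 2) (J := J) (m := m) hθ0 hη hJ ((d + 1) ::ₘ s)
    have a5 : H θ ((d + 1) ::ₘ s) ^ 2 ≤ (2 * H θ s) ^ 2 :=
      pow_le_pow_left₀ (by linarith) (by linarith) 2
    have a6 : |V θ η 2 J m ((d + 1) ::ₘ s) - V θ η 2 J m s| ≤ 8 * H θ s ^ 2 := by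
      rw [abs_le]
      constructor <;> nlinarith [sq_nonneg (H θ s)]
    calc (V θ η 2 J m ((d + 1) ::ₘ s) - V θ η 2 J m s) ^ 2
        = |V θ η 2 J m ((d + 1) ::ₘ s) - V θ η 2 J m s| ^ 2 := (sq_abs _).symm
      _ ≤ (8 * H θ s ^ 2) ^ 2 := pow_le_pow_left₀ (abs_nonneg _) a6 2
      _ = 64 * H θ s ^ 4 := by ring
  have hocc := occ hf0 (V θ η5 5 J5 m5) (fun s => δ5 * H θ s ^ 4) C5
    (fun t ht => by simpa using hdr t ht) (Multiset.singleton_ne_zero 0) T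
  have hit : 0 ≤ ((P f)^[T]) (V θ η5 5 J5 m5) {0} := by
    have := iter_mono' (s := {0}) hf0 (φ := fun _ => (0 : ℝ)) (ψ := V θ η5 5 J5 m5)
      (fun t _ => V_nonneg hθ0 hη5 t) T (Multiset.singleton_ne_zero 0)
    rwa [iter_const hf0 T (Multiset.singleton_ne_zero 0)] at this
  have hocc2 : δ5 * ∑ n ∈ Finset.range T, ((P f)^[n]) (fun s => H θ s ^ 4) {0}
      ≤ V θ η5 5 J5 m5 {0} + C5 * T := by
    have e1 : δ5 * ∑ n ∈ Finset.range T, ((P f)^[n]) (fun s => H θ s ^ 4) {0}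
        = ∑ n ∈ Finset.range T, ((P f)^[n]) (fun s => δ5 * H θ s ^ 4) {0} := by
      rw [Finset.mul_sum]
      refine Finset.sum_congr rfl (fun n _ => ?_)
      rw [iter_mul_fun]
    rw [e1]
    linarith
  rcases Nat.eq_zero_or_pos T with hT | hT
  · subst hT
    simp
  have hTr : (1 : ℝ) ≤ T := by exact_mod_cast hT
  calc ∑ n ∈ Finset.range T, ((P f)^[n])
        (fun s => P f (fun s' => (V θ η 2 J m s' - V θ η 2 J m s) ^ 2) s) {0}
      ≤ ∑ n ∈ Finset.range T, 64 * ((P f)^[n]) (fun s => H θ s ^ 4) {0} := by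
        refine Finset.sum_le_sum (fun n _ => ?_)
        rw [← iter_mul_fun]
        exact iter_mono' hf0 hinc n (Multiset.singleton_ne_zero 0)
    _ = 64 * ∑ n ∈ Finset.range T, ((P f)^[n]) (fun s => H θ s ^ 4) {0} := by
        rw [Finset.mul_sum]
    _ ≤ 64 * ((V θ η5 5 J5 m5 {0} + C5) / δ5 * T) := by
        refine mul_le_mul_of_nonneg_left ?_ (by norm_num)
        rw [div_mul_eq_mul_div, le_div_iff₀ hδ5]
        nlinarith
    _ = 64 * ((V θ η5 5 J5 m5 {0} + C5) / δ5) * T := by ring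

end prob

theorem k7 (h1 : S_K1) (hnu : S_nu) (h4 : S_K4) (h5 : S_K5) : S_main := by
  intro c hc
  obtain ⟨ν, hν0, hν1, hν⟩ := hnu c hc
  refine ⟨ν, hν0, hν1, ?_⟩
  intro f hf Ω _ μ _ X hX
  have hf0 := hf.1
  obtain ⟨θ, hθdef⟩ : ∃ θ : ℝ, θ = (1 + c) / 2 := ⟨_, rfl⟩
  have hθ : 1 < θ := by rw [hθdef]; linarith
  have hθc : θ < c := by rw [hθdef]; linarith
  have hθ0 : 0 < θ := by linarith
  obtain ⟨η, J, m, δ, C, hη, hJ, hm, hδ, hC, hdr⟩ := h1 f c hc hf θ hθ hθc 2 (by norm_num)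
  have hφ : ∀ᵐ ω ∂μ, ∀ L : ℕ, LLN f (fun t => Dr t + W f (L + 1) t)
      (fun n => prof (fun i => X i ω) (n + 1)) := by
    rw [ae_all_iff]
    intro L
    exact lln_phi h5 hf0 hX (Nat.succ_pos L)
  filter_upwards [ae_path hf0 hX, hφ, lln_V h1 h5 hf hc hθ hθc hX (m := m) hη hJ]
    with ω hpath hφω hVω
  have hmain := det_main hf hc hθ hθc h4 hν0 hν1 (hν θ hθ hθc) hpath (V θ η 2 J m)
    (fun s => V_nonneg hθ0 hη s) hδ hC (fun s hs => by simpa using hdr s hs) hVω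
    (fun L hL => by
      obtain ⟨L', rfl⟩ := Nat.exists_eq_add_of_le' hL
      exact hφω L')
  -- shift
  have e1 : ∀ n : ℕ, (((Finset.Icc 1 n).sup (dep (fun k => X k ω)) : ℕ) : ℝ)
      = Dr (prof (fun i => X i ω) n) := fun n => rfl
  simp only [e1]
  rw [← tendsto_add_atTop_iff_nat 1]
  have h6 : Tendsto (fun n : ℕ => (n : ℝ) / (n + 1)) atTop (𝓝 1) :=
    tendsto_natCast_div_add_atTop (1 : ℝ)
  have h7 := hmain.mul h6
  rw [mul_one] at h7
  refine h7.congr' ?_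
  filter_upwards [eventually_gt_atTop 0] with n hn
  have hnr : (0 : ℝ) < n := by exact_mod_cast hn
  push_cast
  field_simp

end Pool.Agent.Q298.DWT
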