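import Mathlib

/-!
# Depth-weighted trees with exponentially growing weights (project DWT, row MP_6f9530_pr)

Definitions and the exact statement of every step.  The state of the chain is the multiset of the
depths of the present vertices.
-/

open MeasureTheory Filter Topology

namespace Pool.Agent.Q298.DWT

/-- (EG): positive weight function whose consecutive ratios tend to `c`. -/
def EG (f : ℕ → ℝ) (c : ℝ) : Prop :=
  (∀ k, 0 < f k) ∧ Tendsto (fun k => f (k + 1) / f k) atTop (𝓝 c)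

/-- the pure exponential weight -/
def pw (c : ℝ) (k : ℕ) : ℝ := c ^ k

/-- total weight of a multiset of depths -/
noncomputable def Z (f : ℕ → ℝ) (s : Multiset ℕ) : ℝ := (s.map f).sum

/-- one step of the chain as an operator: choose `d ∈ s` with probability `f d / Z`, add a vertex
of depth `d + 1` -/
noncomputable def P (f : ℕ → ℝ) (φ : Multiset ℕ → ℝ) (s : Multiset ℕ) : ℝ :=
  (s.map (fun d => f d * φ ((d + 1) ::ₘ s))).sum / Z f s

/-- depth of the tree -/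
def D (s : Multiset ℕ) : ℕ := s.sup

/-- the depth as a real function -/
noncomputable def Dr (s : Multiset ℕ) : ℝ := (D s : ℝ)

/-- weight seen from the top, with ratio `θ` -/
noncomputable def H (θ : ℝ) (s : Multiset ℕ) : ℝ := (s.map (fun d => θ ^ d)).sum / θ ^ D s

/-- expected increase of the depth during `L` steps -/
noncomputable def u (f : ℕ → ℝ) (L : ℕ) (s : Multiset ℕ) : ℝ := ((P f)^[L]) Dr s - Dr s

/-- number of vertices `j` levels above the deepest one -/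
def cnt (s : Multiset ℕ) (j : ℕ) : ℕ := s.countP (fun d => d + j = D s)

noncomputable def psi (m : ℕ → ℕ) (j : ℕ) (s : Multiset ℕ) : ℝ :=
  max 0 (1 - (cnt s j : ℝ) / (m j : ℝ))

/-- the Lyapunov function -/
noncomputable def V (θ η : ℝ) (q J : ℕ) (m : ℕ → ℕ) (s : Multiset ℕ) : ℝ :=
  H θ s ^ q * (1 + η * ∑ j ∈ Finset.range J, psi m j s)

/-- K1: drift inequality. -/
def S_K1 : Prop :=
  ∀ (f : ℕ → ℝ) (c : ℝ), 1 < c → EG f c → ∀ θ : ℝ, 1 < θ → θ < c → ∀ q : ℕ, 1 ≤ q →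
    ∃ (η : ℝ) (J : ℕ) (m : ℕ → ℕ) (δ C : ℝ), 0 ≤ η ∧ η * J ≤ 1 ∧ (∀ j, 0 < m j) ∧ 0 < δ ∧ 0 ≤ C ∧
      ∀ s : Multiset ℕ, s ≠ 0 →
        P f (V θ η q J m) s ≤ V θ η q J m s - δ * H θ s ^ (q - 1) + C

/-- K2a: Jensen lemma (lower bound for the success probability of the coupling). -/
def S_K2a : Prop :=
  ∀ (c : ℝ), 1 < c → ∀ (W : ℝ), 0 ≤ W → ∀ z : Multiset ℕ, z ≠ 0 →
    Real.exp (-(W * (Multiset.card z + c - 1) / ((c - 1) * Z (pw c) z))) ≤
      (z.map (fun d => pw c d *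
        Real.exp (-(W * (Multiset.card z + c) / ((c - 1) * (Z (pw c) z + c * pw c d)))))).sum
        / (W + Z (pw c) z)

/-- K2: coupling estimate for the pure chain. -/
def S_K2 : Prop :=
  ∀ (c : ℝ), 1 < c → ∀ θ : ℝ, 1 < θ → θ < c →
    ∀ (U : Multiset ℕ → ℝ) (δ C : ℝ), 0 < δ → 0 ≤ C → (∀ s, 0 ≤ U s) →
      (∀ (s : Multiset ℕ) (a : ℕ), U (s.map (fun d => d + a)) = U s) →
      (∀ s : Multiset ℕ, s ≠ 0 → P (pw c) U s ≤ U s - δ * H θ s + C) →
      ∀ K : ℝ, 1 ≤ K → ∀ x y : Multiset ℕ, x ≠ 0 → y ≠ 0 → ∀ L : ℕ,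
        |u (pw c) L x - u (pw c) L y| ≤
          K ^ 2 * Real.exp (K / (c - 1)) + (U x + U y) / (δ * K) + 2 * C * L / (δ * K)

/-- K3: existence of the speed of the pure chain, locally uniformly in the initial state. -/
def S_nu : Prop :=
  ∀ c : ℝ, 1 < c → ∃ ν : ℝ, 0 < ν ∧ ν < 1 ∧ ∀ θ : ℝ, 1 < θ → θ < c → ∀ K ε : ℝ, 0 < ε →
    ∃ L0 : ℕ, ∀ L : ℕ, L0 ≤ L → ∀ s : Multiset ℕ, s ≠ 0 → H θ s ≤ K →
      |u (pw c) L s - ν * L| ≤ ε * L

/-- K4: comparison of the `f`-chain with the pure chain, at large depth. -/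
def S_K4 : Prop :=
  ∀ (f : ℕ → ℝ) (c : ℝ), 1 < c → EG f c → ∀ θ : ℝ, 1 < θ → θ < c →
    ∀ (K ε : ℝ) (L : ℕ), 0 < ε → ∃ D0 : ℕ, ∀ s : Multiset ℕ, s ≠ 0 → D0 ≤ D s → H θ s ≤ K →
      |u f L s - u (pw c) L s| ≤ ε

/-- Depths for a sequence `p` of parents: the vertices are `1, 2, 3, ...`, the vertex `1` is the
root and `p n` is the parent of the vertex `n ≥ 2` (used only when `1 ≤ p n < n`). -/
def dep (p : ℕ → ℕ) (n : ℕ) : ℕ :=
  if _h : 1 ≤ p n ∧ p n < n then dep p (p n) + 1 else 0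
termination_by n
decreasing_by exact _h.2

/-- `X n` is the parent of the vertex `n`; given the parents of the vertices `2, ..., n`, the
parent of `n + 1` is `i ∈ {1, ..., n}` with probability proportional to `f (depth i)`. -/
def IsDWT (f : ℕ → ℝ) {Ω : Type*} [MeasurableSpace Ω] (μ : Measure Ω) (X : ℕ → Ω → ℕ) : Prop :=
  (∀ n, Measurable (X n)) ∧
    ∀ n : ℕ, 1 ≤ n → ∀ (a : ℕ → ℕ) (i : ℕ), i ∈ Finset.Icc 1 n →
      μ.real {ω | (∀ k ∈ Finset.Icc 2 n, X k ω = a k) ∧ X (n + 1) ω = i} =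
        μ.real {ω | ∀ k ∈ Finset.Icc 2 n, X k ω = a k} *
          (f (dep a i) / ∑ j ∈ Finset.Icc 1 n, f (dep a j))

/-- the multiset of the depths of the vertices `1, ..., n` -/
def prof (p : ℕ → ℕ) (n : ℕ) : Multiset ℕ := (Finset.Icc 1 n).val.map (dep p)

/-- K5: law of large numbers along the squares for the martingale part of `φ` of the chain. -/
def S_K5 : Prop :=
  ∀ (f : ℕ → ℝ), (∀ k, 0 < f k) → ∀ (Ω : Type) (_ : MeasurableSpace Ω) (μ : Measure Ω)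
    (_ : IsProbabilityMeasure μ) (X : ℕ → Ω → ℕ), IsDWT f μ X →
    ∀ (φ : Multiset ℕ → ℝ) (B : ℝ),
      (∀ T : ℕ, ∑ n ∈ Finset.range T,
        ((P f)^[n]) (fun s => P f (fun s' => (φ s' - φ s) ^ 2) s) {0} ≤ B * T) →
      ∀ᵐ ω ∂μ, Tendsto (fun k : ℕ =>
        (φ (prof (fun i => X i ω) (k ^ 2 + 1)) - φ {0}
          - ∑ n ∈ Finset.range (k ^ 2), (P f φ (prof (fun i => X i ω) (n + 1))
              - φ (prof (fun i => X i ω) (n + 1)))) / (k : ℝ) ^ 2) atTop (𝓝 0)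

/-- The theorem. -/
def S_main : Prop :=
  ∀ c : ℝ, 1 < c → ∃ ν : ℝ, 0 < ν ∧ ν < 1 ∧ ∀ f : ℕ → ℝ, EG f c →
    ∀ (Ω : Type) (_ : MeasurableSpace Ω) (μ : Measure Ω) (_ : IsProbabilityMeasure μ)
      (X : ℕ → Ω → ℕ), IsDWT f μ X →
      ∀ᵐ ω ∂μ, Tendsto (fun n : ℕ =>
        (((Finset.Icc 1 n).sup (dep (fun k => X k ω)) : ℕ) : ℝ) / n) atTop (𝓝 ν)

/-- K6: the process exists for every positive weight function. -/
def S_exist : Prop :=
  ∀ (f : ℕ → ℝ), (∀ k, 0 < f k) → ∃ (Ω : Type) (_ : MeasurableSpace Ω) (μ : Measure Ω)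
    (_ : IsProbabilityMeasure μ) (X : ℕ → Ω → ℕ), IsDWT f μ X

end Pool.Agent.Q298.DWT
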